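import Pool.Agent.Helper970.SH.Defs

open Matrix

namespace H970SH

noncomputable section

theorem lift_endpoint {G X : Type} [Group G] [DecidableEq X] (θ : FreeGroup X →* G)
    (w : FreeGroup X) : (liftPath θ w).endpoint = θ w := by
  let f : LiftedPath G X →* G :=
    { toFun := LiftedPath.endpoint, map_one' := rfl, map_mul' := fun _ _ => rfl }
  have h : f.comp (liftPath θ) = θ := by
    ext x
    simp [f, liftPath]
  exact DFunLike.congr_fun h w

theorem fox_mul {G X : Type} [Group G] [DecidableEq X] (θ : FreeGroup X →* G)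
    (u v : FreeGroup X) (x : X) :
    fox θ (u * v) x = fox θ u x + MonoidAlgebra.of ℤ G (θ u) * fox θ v x := by
  unfold fox
  rw [map_mul, LiftedPath.mul_def]
  simp only [lift_endpoint]

theorem fox_of {G X : Type} [Group G] [DecidableEq X] (θ : FreeGroup X →* G) (y x : X) :
    fox θ (FreeGroup.of y) x = if x = y then 1 else 0 := by
  unfold fox liftPath
  rw [FreeGroup.lift_apply_of]
  simp [Pi.single_apply]

theorem fox_inv {G X : Type} [Group G] [DecidableEq X] (θ : FreeGroup X →* G)
    (u : FreeGroup X) (x : X) :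
    fox θ u⁻¹ x = -(MonoidAlgebra.of ℤ G (θ u)⁻¹ * fox θ u x) := by
  unfold fox
  rw [map_inv, LiftedPath.inv_def]
  simp only [lift_endpoint]

theorem fox_one {G X : Type} [Group G] [DecidableEq X] (θ : FreeGroup X →* G) (x : X) :
    fox θ 1 x = 0 := by
  unfold fox
  rw [map_one, LiftedPath.one_def]
  rfl

theorem fox_pow {G X : Type} [Group G] [DecidableEq X] (θ : FreeGroup X →* G)
    (u : FreeGroup X) (n : ℕ) (x : X) :
    fox θ (u ^ n) x = (∑ m ∈ Finset.range n, MonoidAlgebra.of ℤ G (θ u ^ m)) * fox θ u x := by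
  induction n with
  | zero => simp [fox_one]
  | succ n ih =>
    rw [pow_succ, fox_mul, ih, Finset.sum_range_succ, add_mul, map_pow]

theorem fox_fund {G X : Type} [Group G] [Fintype X] [DecidableEq X] (θ : FreeGroup X →* G)
    (w : FreeGroup X) :
    ∑ x, fox θ w x * (MonoidAlgebra.of ℤ G (θ (FreeGroup.of x)) - 1) =
      MonoidAlgebra.of ℤ G (θ w) - 1 := by
  induction w using FreeGroup.induction_on with
  | C1 =>
    rw [map_one, map_one, sub_self]
    exact Finset.sum_eq_zero fun x _ => by rw [fox_one, zero_mul]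
  | of y =>
    simp only [fox_of, ite_mul, one_mul, zero_mul, Finset.sum_ite_eq', Finset.mem_univ, if_true]
  | inv_of y ih =>
    simp only [fox_inv, neg_mul, mul_assoc, Finset.sum_neg_distrib, ← Finset.mul_sum, ih]
    rw [mul_sub, mul_one, ← map_mul (MonoidAlgebra.of ℤ G), inv_mul_cancel,
      map_one (MonoidAlgebra.of ℤ G), map_inv θ, neg_sub]
  | mul u v hu hv =>
    simp only [fox_mul, add_mul, Finset.sum_add_distrib, mul_assoc, ← Finset.mul_sum, hu, hv]
    rw [map_mul θ, map_mul (MonoidAlgebra.of ℤ G), mul_sub, mul_one]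
    abel

theorem fox_map {G H X : Type} [Group G] [Group H] [DecidableEq X] (θ : FreeGroup X →* G)
    (e : G →* H) (w : FreeGroup X) (x : X) :
    fox (e.comp θ) w x = MonoidAlgebra.mapDomainRingHom ℤ e (fox θ w x) := by
  have hof : ∀ g : G, MonoidAlgebra.mapDomainRingHom ℤ e (MonoidAlgebra.of ℤ G g) =
      MonoidAlgebra.of ℤ H (e g) := by
    intro g
    simp [MonoidAlgebra.of]
  induction w using FreeGroup.induction_on with
  | C1 => simp [fox_one]
  | of y =>
    simp only [fox_of]
    split_ifs <;> simp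
  | inv_of y ih =>
    rw [fox_inv, fox_inv, ih, map_neg, map_mul, hof]
    simp
  | mul u v hu hv =>
    rw [fox_mul, fox_mul, hu, hv, map_add, map_mul, hof]
    rfl

theorem rhoHat_of {G : Type} [Group G] (ρ : G →* ℂ) (g : G) :
    rhoHat ρ (MonoidAlgebra.of ℤ G g) = ρ g := by
  unfold rhoHat
  simp

theorem extA_of {G : Type} [Group G] (a : G → ℂ) (g : G) :
    extA a (MonoidAlgebra.of ℤ G g) = a g := by
  unfold extA
  simp [MonoidAlgebra.of]

theorem lv_dot {G X : Type} [Group G] [Fintype X] (θ : FreeGroup X →* G) (ρ : G →* ℂ)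
    (x : X) (hx : ρ (θ (FreeGroup.of x)) ≠ 1) : lv θ ρ ⬝ᵥ dv θ ρ = 1 := by
  have hne : ∑ y, star (dv θ ρ y) * dv θ ρ y ≠ 0 := by
    have h1 : ∑ y, star (dv θ ρ y) * dv θ ρ y = ((∑ y, Complex.normSq (dv θ ρ y) : ℝ) : ℂ) := by
      push_cast
      refine Finset.sum_congr rfl fun y _ => ?_
      rw [Complex.normSq_eq_conj_mul_self]
      rfl
    rw [h1]
    rw [Ne, Complex.ofReal_eq_zero]
    have h2 : 0 < Complex.normSq (dv θ ρ x) := by
      rw [Complex.normSq_pos]
      exact sub_ne_zero.mpr hx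
    have h3 : Complex.normSq (dv θ ρ x) ≤ ∑ y, Complex.normSq (dv θ ρ y) :=
      Finset.single_le_sum (f := fun y => Complex.normSq (dv θ ρ y))
        (fun y _ => Complex.normSq_nonneg _) (Finset.mem_univ x)
    linarith
  unfold dotProduct lv
  simp only [div_mul_eq_mul_div]
  rw [← Finset.sum_div]
  exact div_self hne

theorem Jm_dv {G X : Type} [Group G] [Fintype X] [DecidableEq X] (θ : FreeGroup X →* G)
    (rel : X → FreeGroup X) (hrel : ∀ i, θ (rel i) = 1) (ρ : G →* ℂ) :
    Jm θ rel ρ *ᵥ dv θ ρ = 0 := by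
  funext i
  have h := congrArg (rhoHat ρ) (fox_fund θ (rel i))
  rw [hrel i, map_one, sub_self, map_zero, map_sum] at h
  simp only [map_mul, map_sub, rhoHat_of, map_one] at h
  simpa [Jm, dv, Matrix.mulVec, dotProduct, bd2] using h

theorem hof_map {G H : Type} [Group G] [Group H] (e : G →* H) (g : G) :
    MonoidAlgebra.mapDomainRingHom ℤ e (MonoidAlgebra.of ℤ G g) = MonoidAlgebra.of ℤ H (e g) := by
  simp [MonoidAlgebra.of]

theorem rhoHat_map {G H : Type} [Group G] [Group H] (e : G →* H) (ρ : H →* ℂ)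
    (u : MonoidAlgebra ℤ G) :
    rhoHat ρ (MonoidAlgebra.mapDomainRingHom ℤ e u) = rhoHat (ρ.comp e) u := by
  induction u using MonoidAlgebra.induction_on with
  | of g => rw [hof_map, rhoHat_of, rhoHat_of]; rfl
  | add x y hx hy => rw [map_add, map_add, map_add, hx, hy]
  | smul r x hx => rw [map_zsmul, map_zsmul, map_zsmul, hx]

theorem extA_map {G H : Type} [Group G] [Group H] (e : G →* H) (a : H → ℂ)
    (u : MonoidAlgebra ℤ G) :
    extA a (MonoidAlgebra.mapDomainRingHom ℤ e u) = extA (fun g => a (e g)) u := by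
  induction u using MonoidAlgebra.induction_on with
  | of g => rw [hof_map, extA_of, extA_of]
  | add x y hx hy => rw [map_add, map_add, map_add, hx, hy]
  | smul r x hx => rw [map_zsmul, map_zsmul, map_zsmul, hx]

end

end H970SH
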