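import Pool.Agent.Helper970.SH.Defs
import Pool.Agent.Helper970.SH.Basic

open Matrix

namespace H970SH



theorem fox_inl_aux_one {G X : Type} [Group G] [DecidableEq X] (θ : FreeGroup X →* G) (x : X) :
    fox θ 1 x = 0 := by
  have h := fox_mul θ 1 1 x
  rw [one_mul, map_one, map_one, one_mul] at h
  exact left_eq_add.1 h

theorem fox_inl {G : Type} [Group G] (k : ℕ) (θ : FreeGroup (Fin 2 ⊕ Fin k) →* G)
    (w : FreeGroup (Fin 2)) :
    (∀ j, fox θ (FreeGroup.map Sum.inl w) (Sum.inl j) =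
      fox (θ.comp (FreeGroup.map Sum.inl)) w j) ∧
    ∀ m, fox θ (FreeGroup.map Sum.inl w) (Sum.inr m) = 0 := by
  induction w using FreeGroup.induction_on with
  | C1 =>
    refine ⟨fun j => ?_, fun m => ?_⟩
    · rw [map_one, fox_inl_aux_one, fox_inl_aux_one]
    · rw [map_one, fox_inl_aux_one]
  | of x =>
    refine ⟨fun j => ?_, fun m => ?_⟩
    · rw [FreeGroup.map.of, fox_of, fox_of]
      by_cases h : j = x
      · rw [if_pos h, if_pos (by rw [h])]
      · rw [if_neg h, if_neg (fun h' => h (Sum.inl_injective h'))]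
    · rw [FreeGroup.map.of, fox_of, if_neg (by simp)]
  | inv_of x ih =>
    refine ⟨fun j => ?_, fun m => ?_⟩
    · rw [map_inv, fox_inv, fox_inv, ih.1 j]
      rfl
    · rw [map_inv, fox_inv, ih.2 m, mul_zero, neg_zero]
  | mul u v ihu ihv =>
    refine ⟨fun j => ?_, fun m => ?_⟩
    · rw [map_mul, fox_mul, fox_mul, ihu.1 j, ihv.1 j]
      rfl
    · rw [map_mul, fox_mul, ihu.2 m, ihv.2 m, mul_zero, add_zero]

end H970SH
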