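import Pool.Agent.Helper970.SH.Defs
import Pool.Agent.Helper970.SH.Basic
import Pool.Agent.Helper970.SH.P_fox_inl

open Matrix

namespace H970SH



theorem fox_wrd_aux {G X : Type} [Group G] [DecidableEq X] (θ : FreeGroup X →* G)
    (a s : FreeGroup X) (c : G) (ha : θ a = c) (hs : θ s = c) (x : X) :
    fox θ (wrd a s) x = lam c * (fox θ a x - fox θ s x) := by
  have h1 : MonoidAlgebra.of ℤ G (c ^ 3 * c) * MonoidAlgebra.of ℤ G ((c ^ 2)⁻¹) =
      MonoidAlgebra.of ℤ G c ^ 2 := by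
    rw [← map_mul, ← map_pow]
    congr 1
    group
  have h2 : MonoidAlgebra.of ℤ G (c ^ 3 * c * (c ^ 2)⁻¹) * MonoidAlgebra.of ℤ G ((c ^ 2)⁻¹) =
      1 := by
    rw [← map_mul, ← map_one (MonoidAlgebra.of ℤ G)]
    congr 1
    group
  have h3 : MonoidAlgebra.of ℤ G (c ^ 3) = MonoidAlgebra.of ℤ G c ^ 3 := by rw [map_pow]
  unfold wrd lam
  rw [fox_mul, fox_mul, fox_mul, fox_inv, fox_inv, fox_pow, fox_pow, fox_pow]
  have e1 : θ (a ^ 3) = c ^ 3 := by rw [map_pow, ha]
  have e2 : θ (a ^ 3 * s) = c ^ 3 * c := by rw [map_mul, e1, hs]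
  have e4 : θ (a ^ 2) = c ^ 2 := by rw [map_pow, ha]
  have e5 : θ (s ^ 2) = c ^ 2 := by rw [map_pow, hs]
  have e3 : θ (a ^ 3 * s * (a ^ 2)⁻¹) = c ^ 3 * c * (c ^ 2)⁻¹ := by rw [map_mul, e2, map_inv, e4]
  rw [e3, e2, e1, e4, e5, ha, hs]
  rw [mul_neg, mul_neg, ← mul_assoc, h1, ← mul_assoc (MonoidAlgebra.of ℤ G (c ^ 3 * c * (c ^ 2)⁻¹)),
    h2, h3]
  rw [Finset.sum_range_succ, Finset.sum_range_succ, Finset.sum_range_succ, Finset.sum_range_zero]
  simp only [pow_zero, map_one, pow_one, map_pow, zero_add]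
  noncomm_ring

theorem bd2_fam {G : Type} [Group G] (k : ℕ) (θ : FreeGroup (Fin 2 ⊕ Fin k) →* G)
    (hθ : ∀ m, θ (FreeGroup.of (Sum.inr m)) = θ (FreeGroup.of (Sum.inl 0)) ^ 24) :
    bd2 θ (famRel k) =
      Matrix.fromBlocks (bd2 (θ.comp (FreeGroup.map Sum.inl)) rel0) 0
        (Matrix.of fun _ j => if j = 0 then
          -(lam (θ (FreeGroup.of (Sum.inl 0)) ^ 24) *
            ∑ n ∈ Finset.range 24, MonoidAlgebra.of ℤ G (θ (FreeGroup.of (Sum.inl 0)) ^ n)) else 0)
        (Matrix.diagonal fun _ => lam (θ (FreeGroup.of (Sum.inl 0)) ^ 24)) := by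
  have hrow : ∀ i : Fin 2, famRel k (Sum.inl i) = FreeGroup.map Sum.inl (rel0 i) := by
    intro i
    unfold famRel rel0 relA
    fin_cases i
    · simp
    · simp
  refine Matrix.ext fun i j => ?_
  rcases i with i | m
  · rcases j with j | m'
    · rw [Matrix.fromBlocks_apply₁₁]
      unfold bd2
      rw [Matrix.of_apply, Matrix.of_apply, hrow i]
      exact (fox_inl k θ (rel0 i)).1 j
    · rw [Matrix.fromBlocks_apply₁₂]
      unfold bd2
      rw [Matrix.of_apply, hrow i]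
      exact (fox_inl k θ (rel0 i)).2 m'
  · have hw : bd2 θ (famRel k) (Sum.inr m) = fun x =>
        lam (θ (FreeGroup.of (Sum.inl 0)) ^ 24) * (fox θ (FreeGroup.of (Sum.inr m)) x -
          fox θ (FreeGroup.of (Sum.inl 0) ^ 24) x) := by
      funext x
      unfold bd2
      rw [Matrix.of_apply]
      show fox θ (wrd (FreeGroup.of (Sum.inr m)) (FreeGroup.of (Sum.inl 0) ^ 24)) x = _
      exact fox_wrd_aux θ _ _ _ (hθ m) (by rw [map_pow]) x
    rw [hw]
    simp only [fox_of, fox_pow]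
    rcases j with j | m'
    · rw [Matrix.fromBlocks_apply₂₁, Matrix.of_apply]
      by_cases hj : j = 0
      · subst hj
        simp
      · simp [hj]
    · rw [Matrix.fromBlocks_apply₂₂, Matrix.diagonal_apply]
      by_cases hm : m = m'
      · subst hm
        simp
      · have hm' : m' ≠ m := fun h => hm h.symm
        simp [hm, hm']

end H970SH
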