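import Pool.Agent.Helper970.SH.Defs
import Pool.Agent.Helper970.SH.Basic

open Matrix

namespace H970SH



theorem gam_hom_ext {H : Type} [Group H] (f g : Gam →* H) (hd : f gd = g gd) (hy : f gy = g gy) :
    f = g := by
  refine PresentedGroup.ext fun x => ?_
  fin_cases x
  · exact hd
  · exact hy

end H970SH
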