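import Pool.Agent.Helper970.SH.Defs
import Pool.Agent.Helper970.SH.Basic

open Matrix

namespace H970SH



theorem gam_rel : ∀ i, relA gd gy i = 1 := by
  intro i
  have h1 : PresentedGroup.mk (Set.range rel0) (rel0 i) = 1 :=
    PresentedGroup.one_of_mem ⟨i, rfl⟩
  rw [← h1]
  fin_cases i
  · show gy ^ 2 * gd ^ 15 * (gy ^ 2)⁻¹ * gd ^ 15 = PresentedGroup.mk (Set.range rel0)
      ((FreeGroup.of 1) ^ 2 * (FreeGroup.of 0) ^ 15 * ((FreeGroup.of 1) ^ 2)⁻¹ * (FreeGroup.of 0) ^ 15)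
    simp only [map_mul, map_pow, map_inv, gy, gd]
  · show gd ^ 10 * gy ^ 3 * (gd ^ 10)⁻¹ * gy ^ 3 = PresentedGroup.mk (Set.range rel0)
      ((FreeGroup.of 0) ^ 10 * (FreeGroup.of 1) ^ 3 * ((FreeGroup.of 0) ^ 10)⁻¹ * (FreeGroup.of 1) ^ 3)
    simp only [map_mul, map_pow, map_inv, gy, gd]

end H970SH
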