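import Pool.Agent.Helper970.SH.Defs
import Pool.Agent.Helper970.SH.Basic
import Pool.Agent.Helper970.SH.P_gam_rel
import Pool.Agent.Helper970.SH.P_gam_hom_ext

open Matrix

namespace H970SH



/-- affine maps with unitary linear part -/
@[ext] structure ch_exists_Aff where
  m : ℂ
  u : ℂ
  hu : ‖u‖ = 1

theorem ch_exists_ne (a : ch_exists_Aff) : a.u ≠ 0 := by
  intro h
  have := a.hu
  rw [h, norm_zero] at this
  exact zero_ne_one this

instance ch_exists_mul : Mul ch_exists_Aff :=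
  ⟨fun a b => ⟨a.m + a.u * b.m, a.u * b.u, by rw [norm_mul, a.hu, b.hu, one_mul]⟩⟩

instance ch_exists_one : One ch_exists_Aff := ⟨⟨0, 1, norm_one⟩⟩

noncomputable instance ch_exists_inv : Inv ch_exists_Aff :=
  ⟨fun a => ⟨-(a.u⁻¹ * a.m), a.u⁻¹, by rw [norm_inv, a.hu, inv_one]⟩⟩

theorem ch_exists_mul_m (a b : ch_exists_Aff) : (a * b).m = a.m + a.u * b.m := rfl
theorem ch_exists_mul_u (a b : ch_exists_Aff) : (a * b).u = a.u * b.u := rfl
theorem ch_exists_one_m : (1 : ch_exists_Aff).m = 0 := rfl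
theorem ch_exists_one_u : (1 : ch_exists_Aff).u = 1 := rfl
theorem ch_exists_inv_m (a : ch_exists_Aff) : (a⁻¹).m = -(a.u⁻¹ * a.m) := rfl
theorem ch_exists_inv_u (a : ch_exists_Aff) : (a⁻¹).u = a.u⁻¹ := rfl

noncomputable instance ch_exists_group : Group ch_exists_Aff :=
  Group.ofLeftAxioms
    (by
      intro a b c
      apply ch_exists_Aff.ext
      · simp only [ch_exists_mul_m, ch_exists_mul_u]; ring
      · simp only [ch_exists_mul_u]; ring)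
    (by
      intro a
      apply ch_exists_Aff.ext
      · simp only [ch_exists_mul_m, ch_exists_one_m, ch_exists_one_u]; ring
      · simp only [ch_exists_mul_u, ch_exists_one_u]; ring)
    (by
      intro a
      have := ch_exists_ne a
      apply ch_exists_Aff.ext
      · simp only [ch_exists_mul_m, ch_exists_inv_m, ch_exists_inv_u, ch_exists_one_m]; ring
      · simp only [ch_exists_mul_u, ch_exists_inv_u, ch_exists_one_u]; field_simp)

theorem ch_exists_pow (a : ch_exists_Aff) (n : ℕ) :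
    (a ^ n).m = a.m * ∑ i ∈ Finset.range n, a.u ^ i ∧ (a ^ n).u = a.u ^ n := by
  induction n with
  | zero => 
    refine ⟨?_, ?_⟩
    · rw [pow_zero, ch_exists_one_m]; simp
    · rw [pow_zero, ch_exists_one_u]; simp
  | succ n ih =>
    obtain ⟨h1, h2⟩ := ih
    refine ⟨?_, ?_⟩
    · rw [pow_succ, ch_exists_mul_m, h1, h2, Finset.sum_range_succ]; ring
    · rw [pow_succ, ch_exists_mul_u, h2, pow_succ]

theorem ch_exists_map {F H : Type} [Group F] [Group H] (φ : F →* H) (D Y : F) (i : Fin 2) :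
    φ (relA D Y i) = relA (φ D) (φ Y) i := by
  fin_cases i <;> simp [relA]

theorem ch_exists_geom (δ : ℂ) (n : ℕ) (h : δ ^ n = 1) (h1 : δ ≠ 1) :
    ∑ i ∈ Finset.range n, δ ^ i = 0 := by
  have := geom_sum_mul δ n
  rw [h, sub_self] at this
  rcases mul_eq_zero.1 this with h2 | h2
  · exact h2
  · exact absurd (sub_eq_zero.1 h2) h1

theorem ch_exists_rel (δ ε : ℂ) (hδ : ‖δ‖ = 1) (hε : ‖ε‖ = 1)
    (h1 : δ ^ 15 = -1 ∧ δ ^ 10 = 1 ∧ ε = -1 ∨ δ ^ 15 = 1 ∧ δ ≠ 1 ∧ ε ^ 3 = 1 ∧ ε ≠ 1) (i : Fin 2) :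
    relA (⟨1, δ, hδ⟩ : ch_exists_Aff) ⟨0, ε, hε⟩ i = 1 := by
  set D : ch_exists_Aff := ⟨1, δ, hδ⟩ with hD
  set Y : ch_exists_Aff := ⟨0, ε, hε⟩ with hY
  have hD15 := ch_exists_pow D 15
  have hD10 := ch_exists_pow D 10
  have hY2 := ch_exists_pow Y 2
  have hY3 := ch_exists_pow Y 3
  have hDm : D.m = 1 := rfl
  have hDu : D.u = δ := rfl
  have hYm : Y.m = 0 := rfl
  have hYu : Y.u = ε := rfl
  rw [hDm, hDu, one_mul] at hD15 hD10
  rw [hYm, hYu, zero_mul] at hY2 hY3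
  have hδ0 : δ ≠ 0 := ch_exists_ne D
  have hε0 : ε ≠ 0 := ch_exists_ne Y
  fin_cases i
  · change Y ^ 2 * D ^ 15 * (Y ^ 2)⁻¹ * D ^ 15 = 1
    have hm : (Y ^ 2 * D ^ 15 * (Y ^ 2)⁻¹ * D ^ 15).m =
        (ε ^ 2 + δ ^ 15) * ∑ i ∈ Finset.range 15, δ ^ i := by
      simp only [ch_exists_mul_m, ch_exists_mul_u, ch_exists_inv_m, ch_exists_inv_u, hD15, hY2]
      field_simp
      ring
    have hu : (Y ^ 2 * D ^ 15 * (Y ^ 2)⁻¹ * D ^ 15).u = δ ^ 15 * δ ^ 15 := by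
      simp only [ch_exists_mul_u, ch_exists_inv_u, hD15, hY2]
      field_simp
    apply ch_exists_Aff.ext
    · rw [hm, ch_exists_one_m]
      rcases h1 with ⟨a1, a2, a3⟩ | ⟨a1, a2, a3, a4⟩
      · rw [a1, a3]; ring
      · rw [ch_exists_geom δ 15 a1 a2, mul_zero]
    · rw [hu, ch_exists_one_u]
      rcases h1 with ⟨a1, a2, a3⟩ | ⟨a1, a2, a3, a4⟩
      · rw [a1]; ring
      · rw [a1]; ring
  · change D ^ 10 * Y ^ 3 * (D ^ 10)⁻¹ * Y ^ 3 = 1
    have hm : (D ^ 10 * Y ^ 3 * (D ^ 10)⁻¹ * Y ^ 3).m =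
        (1 - ε ^ 3) * ∑ i ∈ Finset.range 10, δ ^ i := by
      simp only [ch_exists_mul_m, ch_exists_mul_u, ch_exists_inv_m, ch_exists_inv_u, hD10, hY3]
      field_simp
      ring
    have hu : (D ^ 10 * Y ^ 3 * (D ^ 10)⁻¹ * Y ^ 3).u = ε ^ 3 * ε ^ 3 := by
      simp only [ch_exists_mul_u, ch_exists_inv_u, hD10, hY3]
      field_simp
    apply ch_exists_Aff.ext
    · rw [hm, ch_exists_one_m]
      rcases h1 with ⟨a1, a2, a3⟩ | ⟨a1, a2, a3, a4⟩
      · have hne : δ ≠ 1 := by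
          intro h
          rw [h] at a1
          norm_num at a1
        rw [ch_exists_geom δ 10 a2 hne, mul_zero]
      · rw [a3]; ring
    · rw [hu, ch_exists_one_u]
      rcases h1 with ⟨a1, a2, a3⟩ | ⟨a1, a2, a3, a4⟩
      · rw [a3]; ring
      · rw [a3]; ring

theorem ch_exists (δ ε : ℂ) (hδ : ‖δ‖ = 1) (hε : ‖ε‖ = 1)
    (h1 : δ ^ 15 = -1 ∧ δ ^ 10 = 1 ∧ ε = -1 ∨ δ ^ 15 = 1 ∧ δ ≠ 1 ∧ ε ^ 3 = 1 ∧ ε ≠ 1) :
    ∃ α : CH Gam, α.χ gd = δ ∧ α.χ gy = ε ∧ α.c gd = 1 ∧ α.c gy = 0 := by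
  
  set D : ch_exists_Aff := ⟨1, δ, hδ⟩ with hD
  set Y : ch_exists_Aff := ⟨0, ε, hε⟩ with hY
  have hrels : ∀ r ∈ Set.range rel0, FreeGroup.lift ![D, Y] r = 1 := by
    rintro _ ⟨i, rfl⟩
    unfold rel0
    rw [ch_exists_map]
    have e0 : (FreeGroup.lift ![D, Y]) (FreeGroup.of 0) = D := by simp
    have e1 : (FreeGroup.lift ![D, Y]) (FreeGroup.of 1) = Y := by simp
    rw [e0, e1]
    exact ch_exists_rel δ ε hδ hε h1 i
  set Φ : Gam →* ch_exists_Aff := PresentedGroup.toGroup hrels with hΦ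
  have hΦd : Φ gd = D := PresentedGroup.toGroup.of hrels
  have hΦy : Φ gy = Y := PresentedGroup.toGroup.of hrels
  refine ⟨⟨⟨⟨fun g => (Φ g).u, ?_⟩, ?_⟩, fun g => (Φ g).m, ?_, ?_⟩, ?_, ?_, ?_, ?_⟩
  · rw [map_one, ch_exists_one_u]
  · intro g h
    simp only
    rw [map_mul, ch_exists_mul_u]
  · intro g h
    rw [map_mul, ch_exists_mul_m]
    rfl
  · intro g
    exact (Φ g).hu
  · show (Φ gd).u = δ
    rw [hΦd]
  · show (Φ gy).u = ε
    rw [hΦy]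
  · show (Φ gd).m = 1
    rw [hΦd]
  · show (Φ gy).m = 0
    rw [hΦy]

end H970SH
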