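import Pool.Agent.Helper970.SH.Defs
import Pool.Agent.Helper970.SH.Basic
import Pool.Agent.Helper970.SH.P_gam_rel
import Pool.Agent.Helper970.SH.P_gam_hom_ext

open Matrix

namespace H970SH



theorem ch2_one (χ : Gam →* ℂ) (c : Gam → ℂ) (hc : ∀ g h, c (g * h) = c g + χ g * c h) :
    c 1 = 0 := by
  have h := hc 1 1
  rw [mul_one, map_one, one_mul] at h
  linear_combination -h

theorem ch2_ext (χ : Gam →* ℂ) (hχ : ∀ g, χ g ≠ 0) (c c' : Gam → ℂ)
    (hc : ∀ g h, c (g * h) = c g + χ g * c h) (hc' : ∀ g h, c' (g * h) = c' g + χ g * c' h)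
    (hd : c gd = c' gd) (hy : c gy = c' gy) : ∀ g, c g = c' g := by
  have h1 := ch2_one χ c hc
  have h1' := ch2_one χ c' hc'
  let H : Subgroup Gam :=
    { carrier := {g | c g = c' g}
      mul_mem' := by
        intro a b ha hb
        have ha' : c a = c' a := ha
        have hb' : c b = c' b := hb
        change c (a * b) = c' (a * b)
        rw [hc, hc', ha', hb']
      one_mem' := by
        change c 1 = c' 1
        rw [h1, h1']
      inv_mem' := by
        intro a ha
        have ha' : c a = c' a := ha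
        change c a⁻¹ = c' a⁻¹
        have e1 := hc a a⁻¹
        have e2 := hc' a a⁻¹
        rw [mul_inv_cancel, h1] at e1
        rw [mul_inv_cancel, h1'] at e2
        rw [ha'] at e1
        have e3 : χ a * c a⁻¹ = χ a * c' a⁻¹ := by linear_combination e2 - e1
        exact mul_left_cancel₀ (hχ a) e3 }
  have hH : H = ⊤ := by
    rw [eq_top_iff, ← PresentedGroup.closure_range_of, Subgroup.closure_le]
    rintro _ ⟨i, rfl⟩
    fin_cases i
    · exact hd
    · exact hy
  intro g
  have hg : g ∈ H := by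
    rw [hH]
    exact Subgroup.mem_top g
  exact hg

theorem ch_two (α α' : CH Gam) (h : α.χ = α'.χ) (hα : ∀ t : ℂ, ∃ g, α.c g ≠ t * (α.χ g - 1)) :
    ∃ s t : ℂ, ∀ g, α'.c g = s * α.c g + t * (α.χ g - 1) := by
  have hχ0 : ∀ g, α.χ g ≠ 0 := by
    intro g h0
    have h1 := α.unitary g
    rw [h0, norm_zero] at h1
    exact zero_ne_one h1
  have hχc : ∀ g h, (α.χ (g * h) - 1) = (α.χ g - 1) + α.χ g * (α.χ h - 1) := by
    intro g h
    rw [map_mul]
    ring
  have hα' : ∀ g h, α'.c (g * h) = α'.c g + α.χ g * α'.c h := by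
    intro g h'
    rw [h]
    exact α'.mul g h'
  by_cases hA : α.χ gd = 1 ∧ α.χ gy = 1
  · exfalso
    obtain ⟨hA1, hA2⟩ := hA
    have hχ1 : ∀ g, α.χ g = 1 := by
      intro g
      have h1 := ch2_ext α.χ hχ0 (fun g => α.χ g - 1) (fun _ => 0) hχc
        (fun g h => by simp) (by simp [hA1]) (by simp [hA2]) g
      linear_combination h1
    have hadd : ∀ g h, α.c (g * h) = α.c g + α.c h := by
      intro g h
      rw [α.mul, hχ1, one_mul]
    have hone : α.c 1 = 0 := ch2_one α.χ α.c α.mul
    have hpow : ∀ (g : Gam) (n : ℕ), α.c (g ^ n) = (n : ℂ) * α.c g := by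
      intro g n
      induction n with
      | zero => rw [pow_zero, hone]; simp
      | succ n ih =>
        rw [pow_succ, hadd, ih]
        push_cast
        ring
    have hinv : ∀ g : Gam, α.c g⁻¹ = - α.c g := by
      intro g
      have h1 := hadd g g⁻¹
      rw [mul_inv_cancel, hone] at h1
      linear_combination -h1
    have hd0 : α.c gd = 0 := by
      have h1 : gy ^ 2 * gd ^ 15 * (gy ^ 2)⁻¹ * gd ^ 15 = 1 := gam_rel 0
      have h2 := congrArg α.c h1
      rw [hadd, hadd, hadd, hinv, hpow, hpow, hone] at h2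
      push_cast at h2
      linear_combination h2 / 30
    have hy0 : α.c gy = 0 := by
      have h1 : gd ^ 10 * gy ^ 3 * (gd ^ 10)⁻¹ * gy ^ 3 = 1 := gam_rel 1
      have h2 := congrArg α.c h1
      rw [hadd, hadd, hadd, hinv, hpow, hpow, hone] at h2
      push_cast at h2
      linear_combination h2 / 6
    obtain ⟨g, hg⟩ := hα 0
    apply hg
    rw [zero_mul]
    exact ch2_ext α.χ hχ0 α.c (fun _ => 0) α.mul (fun g h => by simp) hd0 hy0 g
  · have hdet : α.c gd * (α.χ gy - 1) - α.c gy * (α.χ gd - 1) ≠ 0 := by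
      intro hdet
      have ht : ∃ t : ℂ, α.c gd = t * (α.χ gd - 1) ∧ α.c gy = t * (α.χ gy - 1) := by
        by_cases hp : α.χ gd - 1 = 0
        · have hq : α.χ gy - 1 ≠ 0 := by
            intro hq
            exact hA ⟨by linear_combination hp, by linear_combination hq⟩
          refine ⟨α.c gy / (α.χ gy - 1), ?_, ?_⟩
          · rw [hp, mul_zero, sub_zero] at hdet
            rw [hp, mul_zero]
            rcases mul_eq_zero.mp hdet with h1 | h1
            · exact h1
            · exact absurd h1 hq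
          · field_simp
        · refine ⟨α.c gd / (α.χ gd - 1), ?_, ?_⟩
          · field_simp
          · field_simp
            linear_combination -hdet
      obtain ⟨t, ht1, ht2⟩ := ht
      obtain ⟨g, hg⟩ := hα t
      apply hg
      exact ch2_ext α.χ hχ0 α.c (fun g => t * (α.χ g - 1)) α.mul
        (fun g h => by rw [hχc]; ring) ht1 ht2 g
    set Δ : ℂ := α.c gd * (α.χ gy - 1) - α.c gy * (α.χ gd - 1) with hΔ
    refine ⟨(α'.c gd * (α.χ gy - 1) - α'.c gy * (α.χ gd - 1)) / Δ,
      (α.c gd * α'.c gy - α'.c gd * α.c gy) / Δ, ?_⟩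
    refine ch2_ext α.χ hχ0 α'.c (fun g => (α'.c gd * (α.χ gy - 1) - α'.c gy * (α.χ gd - 1)) / Δ *
      α.c g + (α.c gd * α'.c gy - α'.c gd * α.c gy) / Δ * (α.χ g - 1)) hα' ?_ ?_ ?_
    · intro g h
      rw [hχc, α.mul]
      ring
    · field_simp
      rw [hΔ]
      ring
    · field_simp
      rw [hΔ]
      ring

end H970SH
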