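import Pool.Agent.Helper970.SH.Defs
import Pool.Agent.Helper970.SH.Basic
import Pool.Agent.Helper970.SH.P_gam_rel
import Pool.Agent.Helper970.SH.P_gam_hom_ext

open Matrix

namespace H970SH



theorem j25056_key (u : Gam →* ℂˣ) : u gd ^ 30 = 1 ∧ u gy ^ 6 = 1 := by
  constructor
  · have h := congrArg u (gam_rel 0)
    have e : relA gd gy 0 = gy ^ 2 * gd ^ 15 * (gy ^ 2)⁻¹ * gd ^ 15 := rfl
    rw [e, map_mul, map_mul, map_mul, map_inv, map_pow, map_pow, map_one,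
      mul_comm (u gy ^ 2) (u gd ^ 15), mul_inv_cancel_right, ← pow_add] at h
    exact h
  · have h := congrArg u (gam_rel 1)
    have e : relA gd gy 1 = gd ^ 10 * gy ^ 3 * (gd ^ 10)⁻¹ * gy ^ 3 := rfl
    rw [e, map_mul, map_mul, map_mul, map_inv, map_pow, map_pow, map_one,
      mul_comm (u gd ^ 10) (u gy ^ 3), mul_inv_cancel_right, ← pow_add] at h
    exact h

theorem char_finite : Finite (Gam →* ℂ) := by
  let Φ : (Gam →* ℂ) → (rootsOfUnity 30 ℂ) × (rootsOfUnity 6 ℂ) := fun χ =>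
    (⟨χ.toHomUnits gd, (mem_rootsOfUnity _ _).2 (j25056_key χ.toHomUnits).1⟩,
      ⟨χ.toHomUnits gy, (mem_rootsOfUnity _ _).2 (j25056_key χ.toHomUnits).2⟩)
  refine Finite.of_injective Φ ?_
  intro χ χ' h
  have h1 : χ.toHomUnits gd = χ'.toHomUnits gd :=
    congrArg (fun p : (rootsOfUnity 30 ℂ) × (rootsOfUnity 6 ℂ) => (p.1 : ℂˣ)) h
  have h2 : χ.toHomUnits gy = χ'.toHomUnits gy :=
    congrArg (fun p : (rootsOfUnity 30 ℂ) × (rootsOfUnity 6 ℂ) => (p.2 : ℂˣ)) h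
  have h3 := gam_hom_ext χ.toHomUnits χ'.toHomUnits h1 h2
  ext g
  have h4 := congrArg (fun f : Gam →* ℂˣ => ((f g : ℂˣ) : ℂ)) h3
  simpa using h4

end H970SH
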