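import Pool.Agent.Helper970.SH.Defs
import Pool.Agent.Helper970.SH.Basic
import Pool.Agent.Helper970.SH.P_gam_hom_ext

open Matrix

namespace H970SH



theorem char_gen (χ : Gam →* ℂ) (h : ∃ g, χ g ≠ 1) : χ gd ≠ 1 ∨ χ gy ≠ 1 := by
  by_contra hcon
  push Not at hcon
  obtain ⟨g, hg⟩ := h
  have h1 : χ.toHomUnits = 1 := by
    apply gam_hom_ext
    · apply Units.ext
      simpa using hcon.1
    · apply Units.ext
      simpa using hcon.2
  apply hg
  have h2 := congrArg (fun f : Gam →* ℂˣ => ((f g : ℂˣ) : ℂ)) h1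
  simpa using h2

end H970SH
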