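import Pool.Agent.Helper970.SH.Defs
import Pool.Agent.Helper970.SH.Basic

open Matrix

namespace H970SH



theorem extA_of762 {G : Type} [Group G] (a : G → ℂ) (g : G) :
    extA a (MonoidAlgebra.of ℤ G g) = a g := by
  unfold extA
  rw [MonoidAlgebra.of_apply, MonoidAlgebra.liftNC_single]
  simp

theorem rhoHat_of762 {G : Type} [Group G] (ρ : G →* ℂ) (g : G) :
    rhoHat ρ (MonoidAlgebra.of ℤ G g) = ρ g := by
  unfold rhoHat
  exact MonoidAlgebra.lift_of ρ g

theorem extA_mul {G : Type} [Group G] (ρ σ : G →* ℂ) (a : G → ℂ)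
    (ha : ∀ g h, a (g * h) = ρ g * a h + a g * σ h) (u v : MonoidAlgebra ℤ G) :
    extA a (u * v) = rhoHat ρ u * extA a v + extA a u * rhoHat σ v := by
  induction u using MonoidAlgebra.induction_on with
  | of g =>
    induction v using MonoidAlgebra.induction_on with
    | of h =>
      rw [← map_mul, extA_of762, extA_of762, extA_of762, rhoHat_of762, rhoHat_of762, ha]
    | add v w hv hw =>
      rw [mul_add, map_add, map_add, map_add, hv, hw]
      ring
    | smul n v hv =>
      rw [mul_smul_comm, map_zsmul, map_zsmul, map_zsmul, hv]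
      simp only [zsmul_eq_mul]
      ring
  | add u w hu hw =>
    rw [add_mul, map_add, map_add, map_add, hu, hw]
    ring
  | smul n u hu =>
    rw [smul_mul_assoc, map_zsmul, map_zsmul, map_zsmul, hu]
    simp only [zsmul_eq_mul]
    ring

end H970SH
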