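import Pool.Agent.Helper970.SH.Defs
import Pool.Agent.Helper970.SH.Basic
import Pool.Agent.Helper970.SH.P_extA_mul

open Matrix

namespace H970SH



theorem cochain {G p q : Type} [Group G] [Fintype p] [DecidableEq p] [Fintype q] [DecidableEq q]
    (θP : FreeGroup p →* G) (θQ : FreeGroup q →* G) (relP : p → FreeGroup p)
    (relQ : q → FreeGroup q) (hQ : ∀ i, θQ (relQ i) = 1)
    (F1 : Matrix p q (MonoidAlgebra ℤ G)) (F2 : Matrix p q (MonoidAlgebra ℤ G))
    (h1 : bd1 θP = F1 * bd1 θQ) (h2 : bd2 θP relP * F1 = F2 * bd2 θQ relQ) (α β : CH G) :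
    ∃ h : p → ℂ, (F2.map (rhoHat (α.χ * β.χ))) *ᵥ cv θQ relQ α β =
      cv θP relP α β + Jm θP relP (α.χ * β.χ) *ᵥ h := by
  classical
  have ha : ∀ g h, (fun g => α.c g * β.χ g) (g * h) =
      (α.χ * β.χ) g * (fun g => α.c g * β.χ g) h + (fun g => α.c g * β.χ g) g * β.χ h := by
    intro g h
    simp only [MonoidHom.mul_apply, α.mul, map_mul]
    ring
  have hb : ∀ g h, β.c (g * h) = β.χ g * β.c h + β.c g * (1 : G →* ℂ) h := by
    intro g h
    simp only [MonoidHom.one_apply, β.mul, mul_one]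
    ring
  have hc1 : β.c 1 = 0 := by
    have := β.mul 1 1
    simp only [mul_one, map_one, one_mul] at this
    linear_combination -this
  have hof1 : (1 : MonoidAlgebra ℤ G) = MonoidAlgebra.of ℤ G 1 := (map_one _).symm
  -- B (u * (g - 1)) = σ̂ u * β.c g
  have hB : ∀ (u : MonoidAlgebra ℤ G) (g : G),
      extA β.c (u * (MonoidAlgebra.of ℤ G g - 1)) = rhoHat β.χ u * β.c g := by
    intro u g
    rw [extA_mul β.χ 1 β.c hb]
    have e1 : rhoHat (1 : G →* ℂ) (MonoidAlgebra.of ℤ G g - 1) = 0 := by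
      rw [map_sub, map_one, rhoHat_of]; simp
    have e2 : extA β.c (MonoidAlgebra.of ℤ G g - 1) = β.c g := by
      rw [map_sub, hof1, extA_of, extA_of, hc1, sub_zero]
    rw [e1, e2, mul_zero, add_zero]
  -- b_P in terms of b_Q
  have hbP : ∀ x : p, β.c (θP (FreeGroup.of x)) =
      ∑ y, rhoHat β.χ (F1 x y) * β.c (θQ (FreeGroup.of y)) := by
    intro x
    have e := congrArg (fun M : Matrix p Unit (MonoidAlgebra ℤ G) => extA β.c (M x ())) h1
    simp only [bd1, Matrix.of_apply, Matrix.mul_apply, map_sum] at e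
    have e2 : extA β.c (MonoidAlgebra.of ℤ G (θP (FreeGroup.of x)) - 1) =
        β.c (θP (FreeGroup.of x)) := by
      rw [map_sub, hof1, extA_of, extA_of, hc1, sub_zero]
    rw [e2] at e
    rw [e]
    refine Finset.sum_congr rfl fun y _ => ?_
    exact hB _ _
  -- σ̂ (J_Q) b_Q = 0
  have hJQ : ∀ z : q, ∑ y, rhoHat β.χ (bd2 θQ relQ z y) * β.c (θQ (FreeGroup.of y)) = 0 := by
    intro z
    have e : ∑ y, rhoHat β.χ (bd2 θQ relQ z y) * β.c (θQ (FreeGroup.of y)) =
        extA β.c (∑ y, fox θQ (relQ z) y * (MonoidAlgebra.of ℤ G (θQ (FreeGroup.of y)) - 1)) := by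
      rw [map_sum]
      refine Finset.sum_congr rfl fun y _ => ?_
      rw [hB]; rfl
    rw [e, fox_fund, hQ z, map_one, sub_self, map_zero]
  refine ⟨fun x => ∑ y, extA (fun g => α.c g * β.χ g) (F1 x y) * β.c (θQ (FreeGroup.of y)), ?_⟩
  funext i
  have hA : ∀ y : q, ∑ x, (rhoHat (α.χ * β.χ) (bd2 θP relP i x) *
        extA (fun g => α.c g * β.χ g) (F1 x y) +
        extA (fun g => α.c g * β.χ g) (bd2 θP relP i x) * rhoHat β.χ (F1 x y)) =
      ∑ z, (rhoHat (α.χ * β.χ) (F2 i z) *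
        extA (fun g => α.c g * β.χ g) (bd2 θQ relQ z y) +
        extA (fun g => α.c g * β.χ g) (F2 i z) * rhoHat β.χ (bd2 θQ relQ z y)) := by
    intro y
    have e := congrArg (fun M : Matrix p q (MonoidAlgebra ℤ G) =>
      extA (fun g => α.c g * β.χ g) (M i y)) h2
    simp only [Matrix.mul_apply, map_sum] at e
    calc _ = ∑ x, extA (fun g => α.c g * β.χ g) (bd2 θP relP i x * F1 x y) := by
          refine Finset.sum_congr rfl fun x _ => ?_
          rw [extA_mul (α.χ * β.χ) β.χ _ ha]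
      _ = _ := e
      _ = _ := by
          refine Finset.sum_congr rfl fun x _ => ?_
          rw [extA_mul (α.χ * β.χ) β.χ _ ha]
  have hsum : ∑ y, (∑ x, (rhoHat (α.χ * β.χ) (bd2 θP relP i x) *
        extA (fun g => α.c g * β.χ g) (F1 x y) +
        extA (fun g => α.c g * β.χ g) (bd2 θP relP i x) * rhoHat β.χ (F1 x y))) *
          β.c (θQ (FreeGroup.of y)) =
      ∑ y, (∑ z, (rhoHat (α.χ * β.χ) (F2 i z) *
        extA (fun g => α.c g * β.χ g) (bd2 θQ relQ z y) +
        extA (fun g => α.c g * β.χ g) (F2 i z) * rhoHat β.χ (bd2 θQ relQ z y))) *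
          β.c (θQ (FreeGroup.of y)) :=
    Finset.sum_congr rfl fun y _ => by rw [hA y]
  -- rearrange both sides
  have hL : ∑ y, (∑ x, (rhoHat (α.χ * β.χ) (bd2 θP relP i x) *
        extA (fun g => α.c g * β.χ g) (F1 x y) +
        extA (fun g => α.c g * β.χ g) (bd2 θP relP i x) * rhoHat β.χ (F1 x y))) *
          β.c (θQ (FreeGroup.of y)) =
      ∑ x, rhoHat (α.χ * β.χ) (bd2 θP relP i x) *
        (∑ y, extA (fun g => α.c g * β.χ g) (F1 x y) * β.c (θQ (FreeGroup.of y))) +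
      ∑ x, extA (fun g => α.c g * β.χ g) (bd2 θP relP i x) * β.c (θP (FreeGroup.of x)) := by
    simp only [Finset.sum_mul, hbP, Finset.mul_sum]
    rw [Finset.sum_comm, ← Finset.sum_add_distrib]
    refine Finset.sum_congr rfl fun x _ => ?_
    rw [← Finset.sum_add_distrib]
    refine Finset.sum_congr rfl fun y _ => ?_
    ring
  have hR : ∑ y, (∑ z, (rhoHat (α.χ * β.χ) (F2 i z) *
        extA (fun g => α.c g * β.χ g) (bd2 θQ relQ z y) +
        extA (fun g => α.c g * β.χ g) (F2 i z) * rhoHat β.χ (bd2 θQ relQ z y))) *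
          β.c (θQ (FreeGroup.of y)) =
      ∑ z, rhoHat (α.χ * β.χ) (F2 i z) *
        (∑ y, extA (fun g => α.c g * β.χ g) (bd2 θQ relQ z y) * β.c (θQ (FreeGroup.of y))) := by
    have : ∑ z, extA (fun g => α.c g * β.χ g) (F2 i z) *
        (∑ y, rhoHat β.χ (bd2 θQ relQ z y) * β.c (θQ (FreeGroup.of y))) = 0 := by
      refine Finset.sum_eq_zero fun z _ => ?_
      rw [hJQ z, mul_zero]
    rw [← add_zero (∑ z, rhoHat (α.χ * β.χ) (F2 i z) *
        (∑ y, extA (fun g => α.c g * β.χ g) (bd2 θQ relQ z y) * β.c (θQ (FreeGroup.of y)))),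
      ← this]
    simp only [Finset.sum_mul, Finset.mul_sum]
    rw [Finset.sum_comm, ← Finset.sum_add_distrib]
    refine Finset.sum_congr rfl fun x _ => ?_
    rw [← Finset.sum_add_distrib]
    refine Finset.sum_congr rfl fun y _ => ?_
    ring
  rw [hL, hR] at hsum
  simp only [Matrix.mulVec, dotProduct, Pi.add_apply, Matrix.map_apply, Jm, cv]
  have hbd : ∀ (i : p) (x : p), bd2 θP relP i x = fox θP (relP i) x := fun _ _ => rfl
  have hbd' : ∀ (i : q) (x : q), bd2 θQ relQ i x = fox θQ (relQ i) x := fun _ _ => rfl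
  simp only [hbd, hbd'] at hsum ⊢
  rw [← hsum, add_comm]

end H970SH
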