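import Pool.Agent.Helper970.SH.Defs
import Pool.Agent.Helper970.SH.Basic

open Matrix

namespace H970SH



theorem det_block {p q : Type} [Fintype p] [DecidableEq p] [Fintype q] [DecidableEq q]
    (JP : Matrix p p ℂ) (JQ : Matrix q q ℂ) (F1 F2 : Matrix p q ℂ) (S1 : Matrix q p ℂ)
    (S2 : Matrix q q ℂ) (c : q → ℂ) (l : p → ℂ)
    (hJF : JP * F1 = F2 * JQ) (hS : S1 * F1 + S2 * JQ = 1) :
    (Matrix.fromBlocks (-JP) F2 S1 S2).det * (JQ + vecMulVec c (l ᵥ* F1)).det =
      (-1) ^ Fintype.card p * (JP + vecMulVec (F2 *ᵥ c) l).det := by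
  have h1 : vecMulVec c (l ᵥ* F1) = vecMulVec c l * F1 := (Matrix.vecMulVec_mul c l F1).symm
  have h2 : vecMulVec (F2 *ᵥ c) l = F2 * vecMulVec c l := (Matrix.mul_vecMulVec F2 c l).symm
  rw [h1, h2]
  generalize vecMulVec c l = V
  have h3 : Matrix.fromBlocks (-JP) F2 S1 S2 * Matrix.fromBlocks 1 0 (-V) 1 *
      Matrix.fromBlocks 1 F1 0 (JQ + V * F1) =
      Matrix.fromBlocks (-(JP + F2 * V)) 0 (S1 - S2 * V) 1 := by
    rw [Matrix.fromBlocks_multiply, Matrix.fromBlocks_multiply]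
    congr 1
    · simp only [Matrix.mul_one, Matrix.mul_zero, add_zero, Matrix.mul_neg]
      abel
    · simp only [Matrix.mul_one, Matrix.mul_zero, zero_add, Matrix.mul_neg, Matrix.add_mul,
        Matrix.neg_mul, Matrix.mul_add]
      rw [hJF, Matrix.mul_assoc]
      abel
    · simp only [Matrix.mul_one, Matrix.mul_zero, add_zero, Matrix.mul_neg]
      abel
    · simp only [Matrix.mul_one, Matrix.mul_zero, zero_add, Matrix.mul_neg, Matrix.add_mul,
        Matrix.neg_mul, Matrix.mul_add]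
      rw [Matrix.mul_assoc, ← hS]
      abel
  have h4 := congrArg Matrix.det h3
  rw [Matrix.det_mul, Matrix.det_mul, Matrix.det_fromBlocks_zero₁₂, Matrix.det_fromBlocks_zero₂₁,
    Matrix.det_fromBlocks_zero₁₂, Matrix.det_neg] at h4
  simpa using h4

end H970SH
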