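import Pool.Agent.Helper970.SH.Defs
import Pool.Agent.Helper970.SH.Basic

open Matrix

namespace H970SH



theorem det_indep {p : Type} [Fintype p] [DecidableEq p] (J : Matrix p p ℂ) (d c l l' : p → ℂ)
    (hJ : J *ᵥ d = 0) (hl : l ⬝ᵥ d = 1) (hl' : l' ⬝ᵥ d = 1) :
    (J + vecMulVec c l).det = (J + vecMulVec c l').det := by
  have hm : (l' - l) ⬝ᵥ d = 0 := by
    rw [sub_dotProduct, hl, hl', sub_self]
  have h1 : (J + vecMulVec c l) * (1 + vecMulVec d (l' - l)) = J + vecMulVec c l' := by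
    rw [mul_add, mul_one, add_mul, mul_vecMulVec, hJ, vecMulVec_mul_vecMulVec, hl]
    ext i j
    simp [vecMulVec_apply]
    ring
  have h2 : (1 + vecMulVec d (l' - l)).det = 1 := by
    rw [vecMulVec_eq Unit, det_one_add_replicateCol_mul_replicateRow, hm, add_zero]
  rw [← h1, det_mul, h2, mul_one]

end H970SH
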