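import Pool.Agent.Helper970.SH.Defs
import Pool.Agent.Helper970.SH.Basic

open Matrix

namespace H970SH



theorem det_scale_aux {p : Type} [Fintype p] [DecidableEq p] (u v : p → ℂ) :
    (1 + vecMulVec u v).det = 1 + v ⬝ᵥ u := by
  rw [vecMulVec_eq Unit, det_one_add_replicateCol_mul_replicateRow]

theorem det_scale_aux2 {p : Type} [Fintype p] [DecidableEq p] (J : Matrix p p ℂ) (w l k : p → ℂ) :
    (J + vecMulVec w l) * (1 + vecMulVec k l) =
      J + vecMulVec (w + J *ᵥ k + (l ⬝ᵥ k) • w) l := by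
  rw [mul_add, mul_one, add_mul, mul_vecMulVec, vecMulVec_mul_vecMulVec]
  ext i j
  simp only [Matrix.add_apply, vecMulVec_apply, Pi.add_apply, Pi.smul_apply, smul_eq_mul]
  ring

theorem det_scale {p : Type} [Fintype p] [DecidableEq p] (J : Matrix p p ℂ) (d c l h : p → ℂ)
    (s : ℂ) (hJ : J *ᵥ d = 0) (hl : l ⬝ᵥ d = 1) :
    (J + vecMulVec (s • c + J *ᵥ h) l).det = s * (J + vecMulVec c l).det := by
  have h1 : (J + vecMulVec (s • c) l) * (1 + vecMulVec (h - (l ⬝ᵥ h) • d) l) =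
      J + vecMulVec (s • c + J *ᵥ h) l := by
    rw [det_scale_aux2]
    have e1 : J *ᵥ (h - (l ⬝ᵥ h) • d) = J *ᵥ h := by
      rw [mulVec_sub, mulVec_smul, hJ, smul_zero, sub_zero]
    have e2 : l ⬝ᵥ (h - (l ⬝ᵥ h) • d) = 0 := by
      rw [dotProduct_sub, dotProduct_smul, hl, smul_eq_mul, mul_one, sub_self]
    rw [e1, e2, zero_smul, add_zero]
  have h2 : (J + vecMulVec c l) * (1 + vecMulVec ((s - 1) • d) l) =
      J + vecMulVec (s • c) l := by
    rw [det_scale_aux2]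
    have e1 : J *ᵥ ((s - 1) • d) = 0 := by
      rw [mulVec_smul, hJ, smul_zero]
    have e2 : l ⬝ᵥ ((s - 1) • d) = s - 1 := by
      rw [dotProduct_smul, hl, smul_eq_mul, mul_one]
    rw [e1, e2, add_zero]
    congr 2
    rw [sub_smul, one_smul, add_sub_cancel]
  rw [← h1, det_mul, ← h2, det_mul, det_scale_aux, det_scale_aux]
  have e2 : l ⬝ᵥ (h - (l ⬝ᵥ h) • d) = 0 := by
    rw [dotProduct_sub, dotProduct_smul, hl, smul_eq_mul, mul_one, sub_self]
  have e3 : l ⬝ᵥ ((s - 1) • d) = s - 1 := by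
    rw [dotProduct_smul, hl, smul_eq_mul, mul_one]
  rw [e2, e3]
  ring

end H970SH
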