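import Pool.Agent.Helper970.SH.Defs
import Pool.Agent.Helper970.SH.Basic

open Matrix

namespace H970SH



theorem rel_finite_conj3 {H : Type} [Group H] (g a : H) (h : g * a * g⁻¹ = a⁻¹) :
    g ^ 3 * a * (g ^ 3)⁻¹ = a⁻¹ := by
  have h2 : g * a⁻¹ * g⁻¹ = a := by
    have := congrArg (fun z => z⁻¹) h
    simp only [_root_.mul_inv_rev, inv_inv] at this
    rw [mul_assoc]
    exact this
  calc g ^ 3 * a * (g ^ 3)⁻¹ = g * (g * (g * a * g⁻¹) * g⁻¹) * g⁻¹ := by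
        simp only [pow_succ, pow_zero, one_mul, _root_.mul_inv_rev, mul_assoc]
    _ = a⁻¹ := by rw [h, h2, h]

theorem rel_finite_conj2 {H : Type} [Group H] (g a : H) (h : g * a * g⁻¹ = a⁻¹) :
    g * a ^ 2 * g⁻¹ = (a ^ 2)⁻¹ := by
  rw [← conj_pow, h, inv_pow]

theorem rel_finite_key {H : Type} [Group H] (u v : H) (h1 : v * u * v⁻¹ = u⁻¹) (h2 : u * v * u⁻¹ = v⁻¹) :
    u ^ 4 = 1 := by
  have h3 : u * v⁻¹ * u⁻¹ = v := by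
    have := congrArg (fun z => z⁻¹) h2
    simp only [_root_.mul_inv_rev, inv_inv] at this
    rw [mul_assoc]
    exact this
  have h4 : v ^ 2 = (u ^ 2)⁻¹ := by
    calc v ^ 2 = v * (u * v⁻¹ * u⁻¹) := by rw [h3, pow_two]
      _ = (v * u * v⁻¹) * u⁻¹ := by group
      _ = (u ^ 2)⁻¹ := by rw [h1]; group
  have h5 : u * v ^ 2 * u⁻¹ = (v ^ 2)⁻¹ := rel_finite_conj2 u v h2
  rw [h4] at h5
  have h6 : (u ^ 2)⁻¹ = u ^ 2 := by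
    calc (u ^ 2)⁻¹ = u * (u ^ 2)⁻¹ * u⁻¹ := by group
      _ = u ^ 2 := by rw [h5, inv_inv]
  calc u ^ 4 = u ^ 2 * u ^ 2 := by group
    _ = (u ^ 2)⁻¹ * u ^ 2 := by rw [h6]
    _ = 1 := inv_mul_cancel _

theorem rel_finite {H : Type} [Group H] (D Y : H)
    (h0 : Y ^ 2 * D ^ 15 * (Y ^ 2)⁻¹ * D ^ 15 = 1) (h1 : D ^ 10 * Y ^ 3 * (D ^ 10)⁻¹ * Y ^ 3 = 1) :
    (D ^ 24) ^ 5 = 1 := by
  have a0 : Y ^ 2 * D ^ 15 * (Y ^ 2)⁻¹ = (D ^ 15)⁻¹ := mul_eq_one_iff_eq_inv.mp h0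
  have b0 : D ^ 10 * Y ^ 3 * (D ^ 10)⁻¹ = (Y ^ 3)⁻¹ := mul_eq_one_iff_eq_inv.mp h1
  have a1 := rel_finite_conj2 _ _ (rel_finite_conj3 _ _ a0)
  have b1 := rel_finite_conj2 _ _ (rel_finite_conj3 _ _ b0)
  rw [← pow_mul, ← pow_mul] at a1 b1
  norm_num at a1 b1
  have h2 := rel_finite_key (D ^ 30) (Y ^ 6) a1 b1
  rw [← pow_mul] at h2 ⊢
  exact h2

end H970SH
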