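import Pool.Agent.Helper970.SH.Defs
import Pool.Agent.Helper970.SH.Basic
import Pool.Agent.Helper970.SH.P_rel_finite

open Matrix

namespace H970SH



theorem famk_gen (k : ℕ) (hkey : ∀ (H : Type) [Group H] (a s : H), s ^ 5 = 1 → wrd a s = 1 → a = s)
    (m : Fin k) :
    (fam k).proj (FreeGroup.of (Sum.inr m)) = (fam k).proj (FreeGroup.of (Sum.inl 0)) ^ 24 := by
  obtain ⟨π, hπ⟩ : ∃ π : FreeGroup (Fin 2 ⊕ Fin k) →* (fam k).Pi1, π = (fam k).proj := ⟨_, rfl⟩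
  have hrel : ∀ y : Fin 2 ⊕ Fin k, π (famRel k y) = 1 := by
    intro y
    have h1 : (famRel k y) ∈ Set.range (fam k).rel := ⟨y, rfl⟩
    rw [hπ]
    exact PresentedGroup.one_of_mem h1
  have hgoal : π (FreeGroup.of (Sum.inr m)) = π (FreeGroup.of (Sum.inl 0)) ^ 24 → (fam k).proj (FreeGroup.of (Sum.inr m)) = (fam k).proj (FreeGroup.of (Sum.inl 0)) ^ 24 := by
    intro h
    rw [hπ] at h
    exact h
  apply hgoal
  set D := π (FreeGroup.of (Sum.inl 0)) with hD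
  set Y := π (FreeGroup.of (Sum.inl 1)) with hY
  set a := π (FreeGroup.of (Sum.inr m)) with ha
  have h0 : Y ^ 2 * D ^ 15 * (Y ^ 2)⁻¹ * D ^ 15 = 1 := by
    have h : π ((FreeGroup.of (Sum.inl 1)) ^ 2 * (FreeGroup.of (Sum.inl 0)) ^ 15 * ((FreeGroup.of (Sum.inl 1)) ^ 2)⁻¹ * (FreeGroup.of (Sum.inl 0)) ^ 15) = 1 := hrel (Sum.inl 0)
    simp only [map_mul, map_pow, map_inv] at h
    exact h
  have h1 : D ^ 10 * Y ^ 3 * (D ^ 10)⁻¹ * Y ^ 3 = 1 := by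
    have h : π ((FreeGroup.of (Sum.inl 0)) ^ 10 * (FreeGroup.of (Sum.inl 1)) ^ 3 * ((FreeGroup.of (Sum.inl 0)) ^ 10)⁻¹ * (FreeGroup.of (Sum.inl 1)) ^ 3) = 1 := hrel (Sum.inl 1)
    simp only [map_mul, map_pow, map_inv] at h
    exact h
  have h5 := rel_finite D Y h0 h1
  have h2 : wrd a (D ^ 24) = 1 := by
    have h : π ((FreeGroup.of (Sum.inr m)) ^ 3 * (FreeGroup.of (Sum.inl 0)) ^ 24 * ((FreeGroup.of (Sum.inr m)) ^ 2)⁻¹ * (((FreeGroup.of (Sum.inl 0)) ^ 24) ^ 2)⁻¹) = 1 := hrel (Sum.inr m)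
    simp only [map_mul, map_pow, map_inv] at h
    exact h
  exact hkey _ a (D ^ 24) h5 h2
end H970SH
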