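import Pool.Agent.Helper970.SH.Defs
import Pool.Agent.Helper970.SH.Basic
import Pool.Agent.Helper970.SH.P_gam_rel

open Matrix

namespace H970SH



theorem projk_rel_map {F H : Type} [Group F] [Group H] (φ : F →* H) (D Y : F) (i : Fin 2) :
    φ (relA D Y i) = relA (φ D) (φ Y) i := by
  fin_cases i <;> simp [relA]

theorem projk_rel_wrd {F H : Type} [Group F] [Group H] (φ : F →* H) (a s : F) :
    φ (wrd a s) = wrd (φ a) (φ s) := by
  simp [wrd]

theorem projk_rel (k : ℕ) : ∀ i, projk k (famRel k i) = 1 := by
  
  intro i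
  rcases i with i | m
  · unfold famRel
    rw [Sum.elim_inl, projk_rel_map]
    have h0 : projk k (FreeGroup.of (Sum.inl 0)) = gd := by simp [projk]
    have h1 : projk k (FreeGroup.of (Sum.inl 1)) = gy := by simp [projk]
    rw [h0, h1]
    exact gam_rel i
  · unfold famRel
    rw [Sum.elim_inr, projk_rel_wrd, map_pow]
    have h0 : projk k (FreeGroup.of (Sum.inl 0)) = gd := by simp [projk]
    have h1 : projk k (FreeGroup.of (Sum.inr m)) = gd ^ 24 := by simp [projk]
    rw [h0, h1]
    unfold wrd
    group

end H970SH
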