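import Pool.Agent.Helper970.SH.Defs
import Pool.Agent.Helper970.SH.Basic
import Pool.Agent.Helper970.SH.P_famk_gen
import Pool.Agent.Helper970.SH.P_projk_rel

open Matrix

namespace H970SH



theorem famk_iso (k : ℕ) (hkey : ∀ (H : Type) [Group H] (a s : H), s ^ 5 = 1 → wrd a s = 1 → a = s) :
    ∃ e : (fam k).Pi1 ≃* Gam, e.toMonoidHom.comp (fam k).proj = projk k := by
  have hto : ∀ r ∈ Set.range (fam k).rel, FreeGroup.lift (Sum.elim ![gd, gy] (fun _ => gd ^ 24)) r = 1 := by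
    rintro _ ⟨i, rfl⟩
    exact projk_rel k i
  let tt0 : (fam k).Pi1 →* Gam := PresentedGroup.toGroup hto
  obtain ⟨p, hp⟩ : ∃ p : FreeGroup (Fin 2 ⊕ Fin k) →* (fam k).Pi1, p = (fam k).proj := ⟨_, rfl⟩
  have hto_mk : ∀ w : FreeGroup (Fin 2 ⊕ Fin k), tt0 (p w) = projk k w := by
    intro w
    rw [hp]
    rfl
  have hgen : ∀ m, p (FreeGroup.of (Sum.inr m)) = p (FreeGroup.of (Sum.inl 0)) ^ 24 := by
    intro m
    rw [hp]
    exact famk_gen k hkey m
  have hrelp : ∀ i, p (famRel k i) = 1 := by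
    intro i
    rw [hp]
    exact PresentedGroup.one_of_mem (rels := Set.range (fam k).rel) ⟨i, rfl⟩
  let g : Fin 2 → (fam k).Pi1 := ![p (FreeGroup.of (Sum.inl 0)), p (FreeGroup.of (Sum.inl 1))]
  have hg0 : g 0 = p (FreeGroup.of (Sum.inl 0)) := rfl
  have hg1 : g 1 = p (FreeGroup.of (Sum.inl 1)) := rfl
  have hfrom : ∀ r ∈ Set.range rel0, FreeGroup.lift g r = 1 := by
    rintro _ ⟨i, rfl⟩
    have h1 := hrelp (Sum.inl i)
    rw [← h1]
    fin_cases i
    · simp [rel0, relA, famRel, hg0, hg1]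
    · simp [rel0, relA, famRel, hg0, hg1]
  let fr : Gam →* (fam k).Pi1 := PresentedGroup.toGroup hfrom
  have hfr_gd : fr gd = p (FreeGroup.of (Sum.inl 0)) := by
    show FreeGroup.lift g (FreeGroup.of 0) = _
    rw [FreeGroup.lift_apply_of]
    exact hg0
  have hfr_gy : fr gy = p (FreeGroup.of (Sum.inl 1)) := by
    show FreeGroup.lift g (FreeGroup.of 1) = _
    rw [FreeGroup.lift_apply_of]
    exact hg1
  have t0 : projk k (FreeGroup.of (Sum.inl 0)) = gd := by
    unfold projk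
    rw [FreeGroup.lift_apply_of]
    rfl
  have t1 : projk k (FreeGroup.of (Sum.inl 1)) = gy := by
    unfold projk
    rw [FreeGroup.lift_apply_of]
    rfl
  have t2 : ∀ m, projk k (FreeGroup.of (Sum.inr m)) = gd ^ 24 := by
    intro m
    unfold projk
    rw [FreeGroup.lift_apply_of]
    rfl
  have hA0 : ∀ x : Fin 2 ⊕ Fin k, fr (tt0 (p (FreeGroup.of x))) = p (FreeGroup.of x) := by
    intro x
    rw [hto_mk]
    rcases x with x | m
    · fin_cases x
      · show fr (projk k (FreeGroup.of (Sum.inl 0))) = p (FreeGroup.of (Sum.inl 0))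
        rw [t0, hfr_gd]
      · show fr (projk k (FreeGroup.of (Sum.inl 1))) = p (FreeGroup.of (Sum.inl 1))
        rw [t1, hfr_gy]
    · rw [t2, map_pow, hfr_gd, hgen m]
  have hA : fr.comp tt0 = MonoidHom.id _ := by
    refine PresentedGroup.ext fun x => ?_
    have := hA0 x
    rw [hp] at this
    exact this
  have hB : tt0.comp fr = MonoidHom.id _ := by
    refine PresentedGroup.ext fun x => ?_
    fin_cases x
    · show tt0 (fr gd) = gd
      rw [hfr_gd, hto_mk, t0]
    · show tt0 (fr gy) = gy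
      rw [hfr_gy, hto_mk, t1]
  refine ⟨MonoidHom.toMulEquiv tt0 fr hA hB, ?_⟩
  ext1 x
  rfl

end H970SH
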