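import Pool.Agent.Helper970.SH.Defs
import Pool.Agent.Helper970.SH.Basic

open Matrix

namespace H970SH



theorem lam_unit {G : Type} [Group G] (c : G) (hc : c ^ 5 = 1) :
    lam c * (MonoidAlgebra.of ℤ G c - MonoidAlgebra.of ℤ G (c ^ 2) + MonoidAlgebra.of ℤ G (c ^ 3)) = 1 ∧
    (MonoidAlgebra.of ℤ G c - MonoidAlgebra.of ℤ G (c ^ 2) + MonoidAlgebra.of ℤ G (c ^ 3)) * lam c = 1 := by
  have h5 : (MonoidAlgebra.of ℤ G c) ^ 5 = 1 := by
    rw [← map_pow, hc, map_one]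
  unfold lam
  rw [map_pow, map_pow]
  generalize MonoidAlgebra.of ℤ G c = x at h5 ⊢
  have h6 : x ^ 6 = x := by
    rw [pow_succ, h5, one_mul]
  constructor
  · have : (1 + x - x ^ 3) * (x - x ^ 2 + x ^ 3) = x + x ^ 5 - x ^ 6 := by noncomm_ring
    rw [this, h5, h6]
    abel
  · have : (x - x ^ 2 + x ^ 3) * (1 + x - x ^ 3) = x + x ^ 5 - x ^ 6 := by noncomm_ring
    rw [this, h5, h6]
    abel

end H970SH
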