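import Pool.Agent.Helper970.SH.Defs
import Pool.Agent.Helper970.SH.Basic
import Pool.Agent.Helper970.SH.P_rel_finite
import Pool.Agent.Helper970.SH.P_lam_unit
import Pool.Agent.Helper970.SH.P_famk_gen
import Pool.Agent.Helper970.SH.P_famk_iso
import Pool.Agent.Helper970.SH.P_bd2_fam

open Matrix

namespace H970SH



/-- scalar diagonal matrix -/
def fe_d {R : Type} [Ring R] (k : ℕ) (a : R) : Matrix (Fin k) (Fin k) R := diagonal fun _ => a

/-- the matrix with first column `v` -/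
def fe_V {R : Type} [Ring R] (k : ℕ) (v : R) : Matrix (Fin k) (Fin 2) R :=
  Matrix.of fun _ j => if j = 0 then v else 0

/-- the boundary matrix -/
def fe_B {R : Type} [Ring R] (k : ℕ) (J : Matrix (Fin 2) (Fin 2) R) (v a : R) :
    Matrix (Fin 2 ⊕ Fin k) (Fin 2 ⊕ Fin k) R :=
  fromBlocks J 0 (-(fe_d k a * fe_V k v)) (fe_d k a)

/-- the chain map in degree one -/
def fe_f1 {R : Type} [Ring R] (k l : ℕ) (v : R) : Matrix (Fin 2 ⊕ Fin k) (Fin 2 ⊕ Fin l) R :=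
  fromBlocks 1 0 (fe_V k v) 0

/-- the chain map in degree two -/
def fe_f2 (R : Type) [Ring R] (k l : ℕ) : Matrix (Fin 2 ⊕ Fin k) (Fin 2 ⊕ Fin l) R :=
  fromBlocks 1 0 0 0

/-- part of the contraction -/
def fe_H {R : Type} [Ring R] (k : ℕ) (b : R) : Matrix (Fin 2 ⊕ Fin k) (Fin 2 ⊕ Fin k) R :=
  fromBlocks 0 0 0 (fe_d k b)

theorem fe_diag {R : Type} [Ring R] {k : ℕ} (a b : R) (h : a * b = 1) :
    fe_d k a * fe_d k b = 1 := by
  unfold fe_d
  rw [diagonal_mul_diagonal, h, diagonal_one]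

theorem fe_diag2 {R : Type} [Ring R] {k : ℕ} (a b : R) (h : a * b = 1)
    (V : Matrix (Fin k) (Fin 2) R) : fe_d k a * (fe_d k b * V) = V := by
  rw [← Matrix.mul_assoc, fe_diag a b h, Matrix.one_mul]

theorem fe_alg1 {R : Type} [Ring R] {k l : ℕ} (J : Matrix (Fin 2) (Fin 2) R) (v a : R) :
    fe_B k J v a * fe_f1 k l v = fe_f2 R k l * fe_B l J v a := by
  unfold fe_B fe_f1 fe_f2
  rw [fromBlocks_multiply, fromBlocks_multiply]
  simp

theorem fe_alg2 {R : Type} [Ring R] {k l : ℕ} (J : Matrix (Fin 2) (Fin 2) R) (v a b : R)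
    (hba : b * a = 1) :
    fromCols (fe_f1 l k v) (fe_H l b) * fromRows (fe_f1 k l v) (fe_B l J v a) = 1 := by
  unfold fe_B fe_f1 fe_H
  rw [fromCols_mul_fromRows, fromBlocks_multiply, fromBlocks_multiply, fromBlocks_add]
  simp [fe_diag b a hba, fe_diag2 b a hba]

theorem fe_alg4 {R : Type} [Ring R] {k l : ℕ} (J : Matrix (Fin 2) (Fin 2) R) (v a b : R)
    (hab : a * b = 1) :
    fromCols (-(fe_B k J v a)) (fe_f2 R k l) * fromRows (-(fe_H k b)) (fe_f2 R l k) = 1 := by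
  unfold fe_B fe_f2 fe_H
  rw [fromCols_mul_fromRows, fromBlocks_neg, fromBlocks_neg, fromBlocks_multiply,
    fromBlocks_multiply, fromBlocks_add]
  simp [fe_diag a b hab]

theorem fe_alg3 {R : Type} [Ring R] {k l : ℕ} (J : Matrix (Fin 2) (Fin 2) R) (v a b : R)
    (hab : a * b = 1) (hba : b * a = 1) :
    fromRows (-(fe_H k b)) (fe_f2 R l k) * fromCols (-(fe_B k J v a)) (fe_f2 R k l) +
    fromRows (fe_f1 k l v) (fe_B l J v a) * fromCols (fe_f1 l k v) (fe_H l b) = 1 := by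
  unfold fe_B fe_f1 fe_f2 fe_H
  rw [fromRows_mul_fromCols, fromRows_mul_fromCols, fromBlocks_add, fromBlocks_neg, fromBlocks_neg]
  simp only [fromBlocks_multiply, fromBlocks_add]
  simp [fe_diag a b hab, fe_diag b a hba, fe_diag2 b a hba]

theorem fe_bd2 {G : Type} [Group G] (k : ℕ) (θ : FreeGroup (Fin 2 ⊕ Fin k) →* G)
    (hθ : ∀ m, θ (FreeGroup.of (Sum.inr m)) = θ (FreeGroup.of (Sum.inl 0)) ^ 24)
    (θ0 : FreeGroup (Fin 2) →* G) (h0 : θ.comp (FreeGroup.map Sum.inl) = θ0) (D : G)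
    (hD : θ (FreeGroup.of (Sum.inl 0)) = D) :
    bd2 θ (famRel k) = fe_B k (bd2 θ0 rel0)
      (∑ n ∈ Finset.range 24, MonoidAlgebra.of ℤ G (D ^ n)) (lam (D ^ 24)) := by
  rw [bd2_fam k θ hθ, h0, hD]
  unfold fe_B
  congr 1
  ext m j
  unfold fe_d fe_V
  rw [Matrix.neg_apply, Matrix.diagonal_mul, Matrix.of_apply, Matrix.of_apply]
  split_ifs
  · rfl
  · rw [mul_zero, neg_zero]

theorem fe_bd1 {G : Type} [Group G] (k l : ℕ) (θP : FreeGroup (Fin 2 ⊕ Fin k) →* G)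
    (θQ : FreeGroup (Fin 2 ⊕ Fin l) →* G)
    (hPQ : ∀ i : Fin 2, θP (FreeGroup.of (Sum.inl i)) = θQ (FreeGroup.of (Sum.inl i))) (D : G)
    (hD : θQ (FreeGroup.of (Sum.inl 0)) = D)
    (hP : ∀ m, θP (FreeGroup.of (Sum.inr m)) = D ^ 24) :
    bd1 θP = fe_f1 k l (∑ n ∈ Finset.range 24, MonoidAlgebra.of ℤ G (D ^ n)) * bd1 θQ := by
  ext x u
  rw [Matrix.mul_apply, Fintype.sum_sum_type]
  unfold fe_f1 bd1 fe_V
  rcases x with i | m
  · simp only [Matrix.of_apply, fromBlocks_apply₁₁, fromBlocks_apply₁₂, Matrix.zero_apply,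
      zero_mul, Finset.sum_const_zero, add_zero, Matrix.one_apply, ite_mul, one_mul,
      Finset.sum_ite_eq, Finset.mem_univ, if_true]
    rw [hPQ]
  · simp only [Matrix.of_apply, fromBlocks_apply₂₁, fromBlocks_apply₂₂, Matrix.zero_apply,
      zero_mul, Finset.sum_const_zero, add_zero, ite_mul, Finset.sum_ite_eq', Finset.mem_univ,
      if_true]
    rw [hP, hD, map_pow]
    simp only [map_pow]
    rw [geom_sum_mul]

theorem fe_main {G : Type} [Group G] (k l : ℕ) (θP : FreeGroup (Fin 2 ⊕ Fin k) →* G)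
    (θQ : FreeGroup (Fin 2 ⊕ Fin l) →* G)
    (hPQ : ∀ i : Fin 2, θP (FreeGroup.of (Sum.inl i)) = θQ (FreeGroup.of (Sum.inl i)))
    (hPr : ∀ m, θP (FreeGroup.of (Sum.inr m)) = θP (FreeGroup.of (Sum.inl 0)) ^ 24)
    (hQr : ∀ m, θQ (FreeGroup.of (Sum.inr m)) = θQ (FreeGroup.of (Sum.inl 0)) ^ 24)
    (hrel : ∀ y, θQ (famRel l y) = 1) :
    ∃ ν μ : MonoidAlgebra ℤ G, bd1 θP = fe_f1 k l ν * bd1 θQ ∧
      bd2 θP (famRel k) * fe_f1 k l ν = fe_f2 (MonoidAlgebra ℤ G) k l * bd2 θQ (famRel l) ∧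
      fromCols (fe_f1 l k ν) (fe_H l μ) * fromRows (fe_f1 k l ν) (bd2 θQ (famRel l)) = 1 ∧
      fromRows (-(fe_H k μ)) (fe_f2 (MonoidAlgebra ℤ G) l k) * fromCols (-(bd2 θP (famRel k))) (fe_f2 (MonoidAlgebra ℤ G) k l) +
        fromRows (fe_f1 k l ν) (bd2 θQ (famRel l)) * fromCols (fe_f1 l k ν) (fe_H l μ) = 1 ∧
      fromCols (-(bd2 θP (famRel k))) (fe_f2 (MonoidAlgebra ℤ G) k l) *
        fromRows (-(fe_H k μ)) (fe_f2 (MonoidAlgebra ℤ G) l k) = 1 := by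
  have hcomp : θP.comp (FreeGroup.map Sum.inl) = θQ.comp (FreeGroup.map Sum.inl) := by
    apply FreeGroup.ext_hom
    intro i
    rw [MonoidHom.comp_apply, MonoidHom.comp_apply, FreeGroup.map.of, FreeGroup.map.of]
    exact hPQ i
  obtain ⟨D, hD⟩ : ∃ D, θQ (FreeGroup.of (Sum.inl 0)) = D := ⟨_, rfl⟩
  have hc : (D ^ 24) ^ 5 = 1 := by
    apply rel_finite D (θQ (FreeGroup.of (Sum.inl 1)))
    · have := hrel (Sum.inl 0)
      have e : famRel l (Sum.inl 0) = FreeGroup.of (Sum.inl 1) ^ 2 * FreeGroup.of (Sum.inl 0) ^ 15 *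
        (FreeGroup.of (Sum.inl 1) ^ 2)⁻¹ * FreeGroup.of (Sum.inl 0) ^ 15 := rfl
      rw [e] at this
      simp only [map_mul, map_pow, map_inv, hD] at this
      exact this
    · have := hrel (Sum.inl 1)
      have e : famRel l (Sum.inl 1) = FreeGroup.of (Sum.inl 0) ^ 10 * FreeGroup.of (Sum.inl 1) ^ 3 *
        (FreeGroup.of (Sum.inl 0) ^ 10)⁻¹ * FreeGroup.of (Sum.inl 1) ^ 3 := rfl
      rw [e] at this
      simp only [map_mul, map_pow, map_inv, hD] at this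
      exact this
  obtain ⟨hab, hba⟩ := lam_unit (D ^ 24) hc
  have hDP : θP (FreeGroup.of (Sum.inl 0)) = D := (hPQ 0).trans hD
  have hbP := fe_bd2 k θP hPr _ hcomp D hDP
  have hbQ := fe_bd2 l θQ hQr _ rfl D hD
  have hb1 := fe_bd1 k l θP θQ hPQ D hD (fun m => by rw [hPr, hDP])
  refine ⟨∑ n ∈ Finset.range 24, MonoidAlgebra.of ℤ G (D ^ n),
    MonoidAlgebra.of ℤ G (D ^ 24) - MonoidAlgebra.of ℤ G ((D ^ 24) ^ 2) +
        MonoidAlgebra.of ℤ G ((D ^ 24) ^ 3), hb1, ?_, ?_, ?_, ?_⟩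
  · rw [hbP, hbQ]
    exact fe_alg1 _ _ _
  · rw [hbQ]
    exact fe_alg2 _ _ _ _ hba
  · rw [hbQ, hbP]
    exact fe_alg3 _ _ _ _ hab hba
  · rw [hbP]
    exact fe_alg4 _ _ _ _ hab

theorem fam_equiv (k l : ℕ)
    (hkey : ∀ (H : Type) [Group H] (a s : H), s ^ 5 = 1 → wrd a s = 1 → a = s) :
    HomotopyEquivalent (fam k) (fam l) := by
  obtain ⟨ek, hek⟩ := famk_iso k hkey
  obtain ⟨el, hel⟩ := famk_iso l hkey
  let φ : (fam k).Pi1 ≃* (fam l).Pi1 := ek.trans el.symm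
  let θP : FreeGroup (Fin 2 ⊕ Fin k) →* (fam l).Pi1 := φ.toMonoidHom.comp (fam k).proj
  let θQ : FreeGroup (Fin 2 ⊕ Fin l) →* (fam l).Pi1 := (fam l).proj
  have hP : ∀ w, el (θP w) = projk k w := by
    intro w
    have h1 : el (θP w) = ek ((fam k).proj w) := el.apply_symm_apply _
    rw [h1]
    exact DFunLike.congr_fun hek w
  have hQ : ∀ w, el (θQ w) = projk l w := fun w => DFunLike.congr_fun hel w
  have hPQ : ∀ i : Fin 2, θP (FreeGroup.of (Sum.inl i)) = θQ (FreeGroup.of (Sum.inl i)) := by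
    intro i
    apply el.injective
    rw [hP, hQ]
    unfold projk
    rw [FreeGroup.lift_apply_of, FreeGroup.lift_apply_of]
    rfl
  have hPr : ∀ m, θP (FreeGroup.of (Sum.inr m)) = θP (FreeGroup.of (Sum.inl 0)) ^ 24 := by
    intro m
    apply el.injective
    rw [map_pow, hP, hP]
    unfold projk
    rw [FreeGroup.lift_apply_of, FreeGroup.lift_apply_of]
    rfl
  have hQr : ∀ m, θQ (FreeGroup.of (Sum.inr m)) = θQ (FreeGroup.of (Sum.inl 0)) ^ 24 := by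
    intro m
    apply el.injective
    rw [map_pow, hQ, hQ]
    unfold projk
    rw [FreeGroup.lift_apply_of, FreeGroup.lift_apply_of]
    rfl
  have hrel : ∀ y, θQ (famRel l y) = 1 := by
    intro y
    apply PresentedGroup.one_of_mem
    exact ⟨y, rfl⟩
  obtain ⟨ν, μ, h1, h2, h3, h4, h5⟩ := fe_main k l θP θQ hPQ hPr hQr hrel
  exact ⟨φ, ⟨fe_f1 k l ν, fe_f2 _ k l, h1, h2⟩, ⟨⟨fromCols (fe_f1 l k ν) (fe_H l μ),
      fromRows (-(fe_H k μ)) (fe_f2 _ l k), h3, h4, h5⟩⟩⟩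

end H970SH
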