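import Pool.Agent.Helper970.SH.Defs
import Pool.Agent.Helper970.SH.Basic
import Pool.Agent.Helper970.SH.P_det_indep
import Pool.Agent.Helper970.SH.P_det_scale
import Pool.Agent.Helper970.SH.P_det_block
import Pool.Agent.Helper970.SH.P_cochain

open Matrix

namespace H970SH



theorem rhoHat_of_kb {G : Type} [Group G] (ρ : G →* ℂ) (g : G) :
    rhoHat ρ (MonoidAlgebra.of ℤ G g) = ρ g := by
  show (MonoidAlgebra.lift ℤ ℂ G ρ) (MonoidAlgebra.of ℤ G g) = ρ g
  exact MonoidAlgebra.lift_of ρ g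

theorem map_dv {G p q : Type} [Group G] [Fintype p] [DecidableEq p] [Fintype q] [DecidableEq q]
    (θP : FreeGroup p →* G) (θQ : FreeGroup q →* G)
    (F1 : Matrix p q (MonoidAlgebra ℤ G))
    (h1 : bd1 θP = F1 * bd1 θQ) (ρ : G →* ℂ) :
    (F1.map (rhoHat ρ)) *ᵥ dv θQ ρ = dv θP ρ := by
  funext i
  have h := congrFun (congrFun h1 i) ()
  have h' := congrArg (rhoHat ρ) h
  simp only [bd1, Matrix.of_apply, Matrix.mul_apply, map_sub, map_sum, map_mul, map_one,
    rhoHat_of_kb] at h'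
  simp only [Matrix.mulVec, dotProduct, Matrix.map_apply, dv]
  exact h'.symm

theorem kap_block {G p q : Type} [Group G] [Fintype p] [DecidableEq p] [Fintype q] [DecidableEq q]
    (θP : FreeGroup p →* G) (θQ : FreeGroup q →* G) (relP : p → FreeGroup p)
    (relQ : q → FreeGroup q) (hP : ∀ i, θP (relP i) = 1) (hQ : ∀ i, θQ (relQ i) = 1)
    (F1 : Matrix p q (MonoidAlgebra ℤ G)) (F2 : Matrix p q (MonoidAlgebra ℤ G))
    (s : Matrix q (p ⊕ q) (MonoidAlgebra ℤ G))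
    (h1 : bd1 θP = F1 * bd1 θQ) (h2 : bd2 θP relP * F1 = F2 * bd2 θQ relQ)
    (hs : s * Matrix.fromRows F1 (bd2 θQ relQ) = 1) (α β : CH G)
    (hn : ∃ x, (α.χ * β.χ) (θP (FreeGroup.of x)) ≠ 1) :
    ((Matrix.fromRows (Matrix.fromCols (-(bd2 θP relP)) F2) s).map (rhoHat (α.χ * β.χ))).det *
      kap θQ relQ α β = (-1) ^ Fintype.card p * kap θP relP α β := by
  obtain ⟨x, hx⟩ := hn
  set ρ : G →* ℂ := α.χ * β.χ with hρ
  have hdv := map_dv θP θQ F1 h1 ρ
  have hJF : Jm θP relP ρ * F1.map (rhoHat ρ) = F2.map (rhoHat ρ) * Jm θQ relQ ρ := by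
    have h := congrArg (fun M => M.map (rhoHat ρ)) h2
    simp only [Matrix.map_mul] at h
    exact h
  have hS : (s.toCols₁.map (rhoHat ρ)) * F1.map (rhoHat ρ) +
      (s.toCols₂.map (rhoHat ρ)) * Jm θQ relQ ρ = 1 := by
    have h : s.toCols₁ * F1 + s.toCols₂ * bd2 θQ relQ = 1 := by
      rw [← Matrix.fromCols_mul_fromRows, Matrix.fromCols_toCols]
      exact hs
    have h' := congrArg (fun M => M.map (rhoHat ρ)) h
    simp only [Matrix.map_add _ (map_add (rhoHat ρ)), Matrix.map_mul,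
      Matrix.map_one _ (map_zero (rhoHat ρ)) (map_one (rhoHat ρ))] at h'
    exact h'
  have hblk : (Matrix.fromRows (Matrix.fromCols (-(bd2 θP relP)) F2) s).map (rhoHat ρ) =
      Matrix.fromBlocks (-(Jm θP relP ρ)) (F2.map (rhoHat ρ)) (s.toCols₁.map (rhoHat ρ))
        (s.toCols₂.map (rhoHat ρ)) := by
    ext i j
    rcases i with i | i <;> rcases j with j | j <;> simp [Jm, Matrix.toCols₁, Matrix.toCols₂]
  have hPx := lv_dot θP ρ x hx
  have hxQ : ∃ y, ρ (θQ (FreeGroup.of y)) ≠ 1 := by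
    by_contra hcon
    push Not at hcon
    have h0 : dv θQ ρ = 0 := by
      funext y
      simp [dv, hcon y]
    rw [h0, Matrix.mulVec_zero] at hdv
    apply hx
    have := congrFun hdv x
    simp only [dv, Pi.zero_apply] at this
    exact (sub_eq_zero.mp this.symm)
  obtain ⟨y, hy⟩ := hxQ
  have hQy := lv_dot θQ ρ y hy
  have hkQ : kap θQ relQ α β =
      (Jm θQ relQ ρ + vecMulVec (cv θQ relQ α β) (lv θP ρ ᵥ* F1.map (rhoHat ρ))).det := by
    rw [kap, ← hρ]
    apply det_indep _ (dv θQ ρ) _ _ _ (Jm_dv θQ relQ hQ ρ) hQy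
    rw [← Matrix.dotProduct_mulVec, hdv]
    exact hPx
  obtain ⟨h, hh⟩ := cochain θP θQ relP relQ hQ F1 F2 h1 h2 α β
  rw [← hρ] at hh
  rw [hblk, hkQ, det_block _ _ _ _ _ _ _ _ hJF hS, hh, kap, ← hρ]
  have := det_scale (Jm θP relP ρ) (dv θP ρ) (cv θP relP α β) (lv θP ρ) h 1
    (Jm_dv θP relP hP ρ) hPx
  rw [one_smul, one_mul] at this
  rw [this]

end H970SH
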