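import Pool.Agent.Helper970.SH.Defs
import Pool.Agent.Helper970.SH.Basic

open Matrix

namespace H970SH



theorem kap_comap {G H X : Type} [Group G] [Group H] [Fintype X] [DecidableEq X]
    (θ : FreeGroup X →* G) (e : G →* H) (rel : X → FreeGroup X) (α β : CH H) :
    kap (e.comp θ) rel α β = kap θ rel (α.comap e) (β.comap e) := by
  have h1 : Jm (e.comp θ) rel (α.χ * β.χ) = Jm θ rel ((α.comap e).χ * (β.comap e).χ) := by
    ext i j
    show rhoHat (α.χ * β.χ) (fox (e.comp θ) (rel i) j) =
      rhoHat ((α.comap e).χ * (β.comap e).χ) (fox θ (rel i) j)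
    rw [fox_map, rhoHat_map]
    rfl
  have h2 : cv (e.comp θ) rel α β = cv θ rel (α.comap e) (β.comap e) := by
    funext i
    unfold cv
    refine Finset.sum_congr rfl fun x _ => ?_
    rw [fox_map, extA_map]
    rfl
  have h3 : lv (e.comp θ) (α.χ * β.χ) = lv θ ((α.comap e).χ * (β.comap e).χ) := rfl
  unfold kap
  rw [h1, h2, h3]

end H970SH
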