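import Pool.Agent.Helper970.SH.Defs
import Pool.Agent.Helper970.SH.Basic
import Pool.Agent.Helper970.SH.P_extA_mul
import Pool.Agent.Helper970.SH.P_det_indep
import Pool.Agent.Helper970.SH.P_det_scale
import Pool.Agent.Helper970.SH.P_gam_rel
import Pool.Agent.Helper970.SH.P_bd2_fam
import Pool.Agent.Helper970.SH.P_projk_rel
import Pool.Agent.Helper970.SH.P_char_gen

open Matrix

namespace H970SH



theorem aux_c_one (β : CH Gam) : β.c 1 = 0 := by
  have h := β.mul 1 1
  simp only [mul_one, map_one, one_mul] at h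
  linear_combination -h

theorem aux_c_pow (β : CH Gam) (g : Gam) (n : ℕ) :
    β.c (g ^ n) = rhoHat β.χ (∑ i ∈ Finset.range n, MonoidAlgebra.of ℤ Gam (g ^ i)) * β.c g := by
  induction n with
  | zero => simp [aux_c_one]
  | succ n ih =>
    rw [pow_succ, β.mul, ih, Finset.sum_range_succ, map_add, rhoHat_of, add_mul]

theorem aux_inl0 (k : ℕ) : projk k (FreeGroup.of (Sum.inl 0)) = gd := by
  simp [projk]

theorem aux_inl1 (k : ℕ) : projk k (FreeGroup.of (Sum.inl 1)) = gy := by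
  simp [projk]

theorem aux_inr (k : ℕ) (m : Fin k) : projk k (FreeGroup.of (Sum.inr m)) = gd ^ 24 := by
  simp [projk]

theorem aux_comp (k : ℕ) : (projk k).comp (FreeGroup.map Sum.inl) = proj0 := by
  ext i
  fin_cases i
  · simp [projk, proj0, gd]
  · simp [projk, proj0, gy]

theorem aux_inl (k : ℕ) (j : Fin 2) : projk k (FreeGroup.of (Sum.inl j)) = proj0 (FreeGroup.of j) := by
  rw [← aux_comp k]
  simp

theorem aux_bd2 (k : ℕ) : bd2 (projk k) (famRel k) =
      Matrix.fromBlocks (bd2 proj0 rel0) 0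
        (Matrix.of fun _ j => if j = 0 then
          -(lam (gd ^ 24) *
            ∑ n ∈ Finset.range 24, MonoidAlgebra.of ℤ Gam (gd ^ n)) else 0)
        (Matrix.diagonal fun _ => lam (gd ^ 24)) := by
  have h := bd2_fam k (projk k) (fun m => by rw [aux_inr, aux_inl0])
  rw [aux_comp, aux_inl0] at h
  exact h

theorem aux_Jm (k : ℕ) (ρ : Gam →* ℂ) : Jm (projk k) (famRel k) ρ =
      Matrix.fromBlocks (Jm proj0 rel0 ρ) 0
        (Matrix.of fun _ j => if j = 0 then
          -(rhoHat ρ (lam (gd ^ 24)) *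
            rhoHat ρ (∑ n ∈ Finset.range 24, MonoidAlgebra.of ℤ Gam (gd ^ n))) else 0)
        (Matrix.diagonal fun _ => rhoHat ρ (lam (gd ^ 24))) := by
  unfold Jm
  rw [aux_bd2, Matrix.fromBlocks_map]
  have e2 : (0 : Matrix (Fin 2) (Fin k) (MonoidAlgebra ℤ Gam)).map (rhoHat ρ) = 0 := by
    ext i j; simp
  have e3 : (Matrix.of fun (_ : Fin k) (j : Fin 2) => if j = 0 then
          -(lam (gd ^ 24) *
            ∑ n ∈ Finset.range 24, MonoidAlgebra.of ℤ Gam (gd ^ n)) else 0).map (rhoHat ρ)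
      = (Matrix.of fun (_ : Fin k) (j : Fin 2) => if j = 0 then
          -(rhoHat ρ (lam (gd ^ 24)) *
            rhoHat ρ (∑ n ∈ Finset.range 24, MonoidAlgebra.of ℤ Gam (gd ^ n))) else 0) := by
    ext i j
    rw [Matrix.map_apply, Matrix.of_apply, Matrix.of_apply]
    by_cases hj : j = 0
    · rw [if_pos hj, if_pos hj, map_neg, map_mul]
    · rw [if_neg hj, if_neg hj, map_zero]
  have e4 : (Matrix.diagonal fun (_ : Fin k) => lam (gd ^ 24)).map (rhoHat ρ)
      = Matrix.diagonal fun (_ : Fin k) => rhoHat ρ (lam (gd ^ 24)) := by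
    rw [Matrix.diagonal_map (map_zero _)]
  rw [e2, e3, e4]

theorem aux_fox (k : ℕ) (i x : Fin 2 ⊕ Fin k) : fox (projk k) (famRel k i) x =
      Matrix.fromBlocks (bd2 proj0 rel0) 0
        (Matrix.of fun _ j => if j = 0 then
          -(lam (gd ^ 24) *
            ∑ n ∈ Finset.range 24, MonoidAlgebra.of ℤ Gam (gd ^ n)) else 0)
        (Matrix.diagonal fun _ => lam (gd ^ 24)) i x := by
  rw [← aux_bd2]; rfl

theorem aux_cv (k : ℕ) (α β : CH Gam) : cv (projk k) (famRel k) α β =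
    (1 : ℂ) • (Sum.elim (cv proj0 rel0 α β) (0 : Fin k → ℂ)) +
      Jm (projk k) (famRel k) (α.χ * β.χ) *ᵥ
        (Sum.elim (0 : Fin 2 → ℂ) (fun _ : Fin k => -(extA (fun g => α.c g * β.χ g)
          (∑ n ∈ Finset.range 24, MonoidAlgebra.of ℤ Gam (gd ^ n))) * β.c gd)) := by
  rw [aux_Jm]
  funext i
  cases i with
  | inl i =>
    simp only [cv, Fintype.sum_sum_type, aux_fox, Matrix.fromBlocks_apply₁₁,
      Matrix.fromBlocks_apply₁₂, Matrix.zero_apply, map_zero, zero_mul, Finset.sum_const_zero,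
      add_zero, Pi.add_apply, Pi.smul_apply, Sum.elim_inl, one_smul, Matrix.mulVec, dotProduct,
      Pi.zero_apply, mul_zero, aux_inl]
    rfl
  | inr m =>
    have hmul := extA_mul (α.χ * β.χ) β.χ (fun g => α.c g * β.χ g)
      (by
        intro g h
        simp only [α.mul, map_mul, MonoidHom.mul_apply]
        ring) (lam (gd ^ 24)) (∑ n ∈ Finset.range 24, MonoidAlgebra.of ℤ Gam (gd ^ n))
    have hpow := aux_c_pow β gd 24
    simp only [cv, Fintype.sum_sum_type, aux_fox, Matrix.fromBlocks_apply₂₁,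
      Matrix.fromBlocks_apply₂₂, Matrix.zero_apply, map_zero, zero_mul,
      Pi.add_apply, Pi.smul_apply, Sum.elim_inr, one_smul, Matrix.mulVec, dotProduct,
      Pi.zero_apply, mul_zero, Fin.sum_univ_two, Matrix.of_apply, aux_inl0, aux_inl1, aux_inr]
    simp only [Sum.elim_inl, Pi.zero_apply, mul_zero, add_zero, zero_add, if_true,
      Matrix.diagonal_apply]
    have e1 : (∑ x : Fin k, extA (fun g => α.c g * β.χ g) (if m = x then lam (gd ^ 24) else 0) * β.c (gd ^ 24))
        = extA (fun g => α.c g * β.χ g) (lam (gd ^ 24)) * β.c (gd ^ 24) := by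
      rw [Finset.sum_eq_single m]
      · simp
      · intro b _ hb
        rw [if_neg (Ne.symm hb)]; simp
      · intro h; exact absurd (Finset.mem_univ m) h
    rw [e1, hpow]
    simp only [map_neg, hmul]
    simp
    ring

theorem kap_fam (k : ℕ) (α β : CH Gam) (hn : ∃ g, (α.χ * β.χ) g ≠ 1) :
    kap (projk k) (famRel k) α β =
      kap proj0 rel0 α β * (rhoHat (α.χ * β.χ) (lam (gd ^ 24))) ^ k := by
  set ρ := α.χ * β.χ with hρ
  have hgen := char_gen ρ hn
  have hJ := Jm_dv (projk k) (famRel k) (projk_rel k) ρ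
  have hl : lv (projk k) ρ ⬝ᵥ dv (projk k) ρ = 1 := by
    rcases hgen with h | h
    · exact lv_dot _ _ (Sum.inl 0) (by rw [aux_inl0]; exact h)
    · exact lv_dot _ _ (Sum.inl 1) (by rw [aux_inl1]; exact h)
  have hl0 : lv proj0 ρ ⬝ᵥ dv proj0 ρ = 1 := by
    rcases hgen with h | h
    · exact lv_dot _ _ 0 h
    · exact lv_dot _ _ 1 h
  have hl' : (Sum.elim (lv proj0 ρ) (0 : Fin k → ℂ)) ⬝ᵥ dv (projk k) ρ = 1 := by
    rw [← hl0]
    simp only [dotProduct, Fintype.sum_sum_type, Sum.elim_inl, Sum.elim_inr, Pi.zero_apply,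
      zero_mul, Finset.sum_const_zero, add_zero]
    apply Finset.sum_congr rfl
    intro j _
    simp only [dv, aux_inl]
  unfold kap
  rw [← hρ, det_indep _ _ _ _ _ hJ hl hl', aux_cv, det_scale _ _ _ _ _ _ hJ hl', one_mul]
  have hM : Jm (projk k) (famRel k) ρ +
      vecMulVec (Sum.elim (cv proj0 rel0 α β) (0 : Fin k → ℂ)) (Sum.elim (lv proj0 ρ) (0 : Fin k → ℂ))
      = Matrix.fromBlocks (Jm proj0 rel0 ρ + vecMulVec (cv proj0 rel0 α β) (lv proj0 ρ)) 0
        (Matrix.of fun _ j => if j = 0 then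
          -(rhoHat ρ (lam (gd ^ 24)) *
            rhoHat ρ (∑ n ∈ Finset.range 24, MonoidAlgebra.of ℤ Gam (gd ^ n))) else 0)
        (Matrix.diagonal fun _ => rhoHat ρ (lam (gd ^ 24))) := by
    rw [aux_Jm]
    ext i j
    cases i <;> cases j <;> simp [Matrix.add_apply, vecMulVec_apply]
  rw [hM, det_fromBlocks_zero₁₂, det_diagonal]
  simp

end H970SH
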