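import Pool.Agent.Helper970.SH.Defs
import Pool.Agent.Helper970.SH.Basic
import Pool.Agent.Helper970.SH.P_extA_mul
import Pool.Agent.Helper970.SH.P_det_scale
import Pool.Agent.Helper970.SH.P_gam_rel
import Pool.Agent.Helper970.SH.P_char_gen

open Matrix

namespace H970SH



theorem h400_c_one {G : Type} [Group G] (α : CH G) : α.c 1 = 0 := by
  have h := α.mul 1 1
  rw [mul_one, map_one, one_mul] at h
  linear_combination (-1 : ℂ) * h

theorem h400_extA_lin {G : Type} [Group G] (a0 a' : G → ℂ) (ρ σ : G →* ℂ) (s t : ℂ)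
    (h : ∀ g, a' g = s * a0 g + t * (ρ g - σ g)) (w : MonoidAlgebra ℤ G) :
    extA a' w = s * extA a0 w + t * (rhoHat ρ w - rhoHat σ w) := by
  induction w using MonoidAlgebra.induction_on with
  | of g => rw [extA_of, extA_of, rhoHat_of, rhoHat_of, h]
  | add f g hf hg =>
    rw [map_add, map_add, map_add, map_add, hf, hg]
    ring
  | smul r f hf =>
    rw [map_zsmul, map_zsmul, map_zsmul, map_zsmul, hf]
    simp only [zsmul_eq_mul]
    ring

theorem h400_rel (i : Fin 2) : proj0 (rel0 i) = 1 := PresentedGroup.one_of_mem ⟨i, rfl⟩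

/-- crossed homomorphisms vanish on relators -/
theorem h400_b (β : CH Gam) (i : Fin 2) :
    ∑ x, rhoHat β.χ (fox proj0 (rel0 i) x) * β.c (proj0 (FreeGroup.of x)) = 0 := by
  have h1 := congrArg (extA β.c) (fox_fund proj0 (rel0 i))
  rw [h400_rel, map_one, sub_self, map_zero, map_sum] at h1
  rw [← h1]
  apply Finset.sum_congr rfl
  intro x _
  rw [extA_mul β.χ 1 β.c (by
    intro g h
    rw [β.mul, MonoidHom.one_apply, mul_one]
    ring), map_sub, map_sub, map_one (rhoHat 1), rhoHat_of, MonoidHom.one_apply, sub_self, mul_zero,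
    add_zero, extA_of]
  have h2 : extA β.c (1 : MonoidAlgebra ℤ Gam) = 0 := by
    rw [← map_one (MonoidAlgebra.of ℤ Gam), extA_of, h400_c_one]
  rw [h2, sub_zero]

theorem h400_d (σ : Gam →* ℂ) (i : Fin 2) :
    ∑ x, rhoHat σ (fox proj0 (rel0 i) x) * (σ (proj0 (FreeGroup.of x)) - 1) = 0 := by
  have h1 := congrArg (rhoHat σ) (fox_fund proj0 (rel0 i))
  rw [h400_rel, map_one, sub_self, map_zero, map_sum] at h1
  rw [← h1]
  apply Finset.sum_congr rfl
  intro x _
  rw [map_mul, map_sub, map_one, rhoHat_of]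

theorem h400_A (α β : CH Gam) (i : Fin 2) :
    ∑ x, (rhoHat (α.χ * β.χ) (fox proj0 (rel0 i) x) *
        (α.c (proj0 (FreeGroup.of x)) * β.χ (proj0 (FreeGroup.of x))) +
      extA (fun g => α.c g * β.χ g) (fox proj0 (rel0 i) x) *
        (β.χ (proj0 (FreeGroup.of x)) - 1)) = 0 := by
  have h1 := congrArg (extA (fun g => α.c g * β.χ g)) (fox_fund proj0 (rel0 i))
  rw [h400_rel, map_one, sub_self, map_zero, map_sum] at h1
  rw [← h1]
  apply Finset.sum_congr rfl
  intro x _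
  rw [extA_mul (α.χ * β.χ) β.χ (fun g => α.c g * β.χ g) (by
    intro g h
    rw [α.mul, map_mul, MonoidHom.mul_apply]
    ring), map_sub, map_sub, map_one (rhoHat β.χ), rhoHat_of, extA_of]
  have h2 : extA (fun g => α.c g * β.χ g) (1 : MonoidAlgebra ℤ Gam) = 0 := by
    rw [← map_one (MonoidAlgebra.of ℤ Gam), extA_of, h400_c_one, zero_mul]
  rw [h2, sub_zero]

theorem kap_lin (α α' β β' : CH Gam) (h1 : α.χ = α'.χ) (h2 : β.χ = β'.χ) (s t u v : ℂ)
    (ha : ∀ g, α'.c g = s * α.c g + t * (α.χ g - 1))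
    (hb : ∀ g, β'.c g = u * β.c g + v * (β.χ g - 1)) (hn : ∃ g, (α.χ * β.χ) g ≠ 1) :
    kap proj0 rel0 α' β' = s * u * kap proj0 rel0 α β := by
  have hρ : α'.χ * β'.χ = α.χ * β.χ := by rw [h1, h2]
  obtain ⟨h, hh⟩ : ∃ h : Fin 2 → ℂ, h = fun x =>
      - (s * v) * (α.c (proj0 (FreeGroup.of x)) * β.χ (proj0 (FreeGroup.of x))) +
        t * u * β.c (proj0 (FreeGroup.of x)) + t * v * (β.χ (proj0 (FreeGroup.of x)) - 1) :=
    ⟨_, rfl⟩
  have hcv : cv proj0 rel0 α' β' = (s * u) • cv proj0 rel0 α β + Jm proj0 rel0 (α.χ * β.χ) *ᵥ h := by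
    funext i
    rw [Pi.add_apply, Pi.smul_apply, smul_eq_mul]
    have e1 := h400_b β i
    have e2 := h400_d β.χ i
    have e3 := h400_A α β i
    have e4 : (Jm proj0 rel0 (α.χ * β.χ) *ᵥ h) i =
        ∑ x, rhoHat (α.χ * β.χ) (fox proj0 (rel0 i) x) * h x := rfl
    rw [e4]
    unfold cv
    have e5 : ∀ x, extA (fun g => α'.c g * β'.χ g) (fox proj0 (rel0 i) x) =
        s * extA (fun g => α.c g * β.χ g) (fox proj0 (rel0 i) x) +
          t * (rhoHat (α.χ * β.χ) (fox proj0 (rel0 i) x) - rhoHat β.χ (fox proj0 (rel0 i) x)) := by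
      intro x
      apply h400_extA_lin
      intro g
      rw [ha, ← h2, MonoidHom.mul_apply]
      ring
    simp only [e5, hb, hh]
    rw [Fin.sum_univ_two] at e1 e2 e3 ⊢
    rw [Fin.sum_univ_two, Fin.sum_univ_two]
    linear_combination (-(t * u)) * e1 + (-(t * v)) * e2 + (s * v) * e3
  have hl : lv proj0 (α.χ * β.χ) ⬝ᵥ dv proj0 (α.χ * β.χ) = 1 := by
    rcases char_gen (α.χ * β.χ) hn with hx | hx
    · exact lv_dot proj0 (α.χ * β.χ) 0 hx
    · exact lv_dot proj0 (α.χ * β.χ) 1 hx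
  unfold kap
  rw [hρ, hcv]
  exact det_scale _ (dv proj0 (α.χ * β.χ)) _ _ h (s * u) (Jm_dv proj0 rel0 h400_rel _) hl

end H970SH
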