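import Pool.Agent.Helper970.SH.Defs
import Pool.Agent.Helper970.SH.Basic
import Pool.Agent.Helper970.SH.P_det_indep
import Pool.Agent.Helper970.SH.P_gam_rel

open Matrix

namespace H970SH



theorem kap_val_fa (n : ℕ) : fox proj0 (FreeGroup.of 0 ^ n) 0 =
    ∑ m ∈ Finset.range n, MonoidAlgebra.of ℤ Gam (gd ^ m) := by
  rw [fox_pow, fox_of, if_pos rfl, mul_one]
  rfl

theorem kap_val_fb (n : ℕ) : fox proj0 (FreeGroup.of 0 ^ n) 1 = 0 := by
  rw [fox_pow, fox_of, if_neg (by decide), mul_zero]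

theorem kap_val_fc (n : ℕ) : fox proj0 (FreeGroup.of 1 ^ n) 0 = 0 := by
  rw [fox_pow, fox_of, if_neg (by decide), mul_zero]

theorem kap_val_fd (n : ℕ) : fox proj0 (FreeGroup.of 1 ^ n) 1 =
    ∑ m ∈ Finset.range n, MonoidAlgebra.of ℤ Gam (gy ^ m) := by
  rw [fox_pow, fox_of, if_pos rfl, mul_one]
  rfl

theorem kap_val_fox0 (x : Fin 2) : fox proj0 (rel0 0) x =
    fox proj0 (FreeGroup.of 1 ^ 2) x +
      MonoidAlgebra.of ℤ Gam (gy ^ 2) * fox proj0 (FreeGroup.of 0 ^ 15) x +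
      MonoidAlgebra.of ℤ Gam (gy ^ 2 * gd ^ 15) *
        (-(MonoidAlgebra.of ℤ Gam (gy ^ 2)⁻¹ * fox proj0 (FreeGroup.of 1 ^ 2) x)) +
      MonoidAlgebra.of ℤ Gam (gy ^ 2 * gd ^ 15 * (gy ^ 2)⁻¹) *
        fox proj0 (FreeGroup.of 0 ^ 15) x := by
  have e : rel0 0 = FreeGroup.of 1 ^ 2 * FreeGroup.of 0 ^ 15 * (FreeGroup.of 1 ^ 2)⁻¹ *
    FreeGroup.of 0 ^ 15 := rfl
  have p1 : proj0 (FreeGroup.of 1 ^ 2) = gy ^ 2 := by rw [map_pow]; rfl
  have p2 : proj0 (FreeGroup.of 1 ^ 2 * FreeGroup.of 0 ^ 15) = gy ^ 2 * gd ^ 15 := by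
    rw [map_mul, map_pow, map_pow]; rfl
  have p3 : proj0 (FreeGroup.of 1 ^ 2 * FreeGroup.of 0 ^ 15 * (FreeGroup.of 1 ^ 2)⁻¹) =
      gy ^ 2 * gd ^ 15 * (gy ^ 2)⁻¹ := by
    rw [map_mul, map_mul, map_inv, map_pow, map_pow]; rfl
  rw [e, fox_mul, fox_mul, fox_mul, fox_inv, p3, p2, p1]

theorem kap_val_fox1 (x : Fin 2) : fox proj0 (rel0 1) x =
    fox proj0 (FreeGroup.of 0 ^ 10) x +
      MonoidAlgebra.of ℤ Gam (gd ^ 10) * fox proj0 (FreeGroup.of 1 ^ 3) x +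
      MonoidAlgebra.of ℤ Gam (gd ^ 10 * gy ^ 3) *
        (-(MonoidAlgebra.of ℤ Gam (gd ^ 10)⁻¹ * fox proj0 (FreeGroup.of 0 ^ 10) x)) +
      MonoidAlgebra.of ℤ Gam (gd ^ 10 * gy ^ 3 * (gd ^ 10)⁻¹) *
        fox proj0 (FreeGroup.of 1 ^ 3) x := by
  have e : rel0 1 = FreeGroup.of 0 ^ 10 * FreeGroup.of 1 ^ 3 * (FreeGroup.of 0 ^ 10)⁻¹ *
    FreeGroup.of 1 ^ 3 := rfl
  have p1 : proj0 (FreeGroup.of 0 ^ 10) = gd ^ 10 := by rw [map_pow]; rfl
  have p2 : proj0 (FreeGroup.of 0 ^ 10 * FreeGroup.of 1 ^ 3) = gd ^ 10 * gy ^ 3 := by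
    rw [map_mul, map_pow, map_pow]; rfl
  have p3 : proj0 (FreeGroup.of 0 ^ 10 * FreeGroup.of 1 ^ 3 * (FreeGroup.of 0 ^ 10)⁻¹) =
      gd ^ 10 * gy ^ 3 * (gd ^ 10)⁻¹ := by
    rw [map_mul, map_mul, map_inv, map_pow, map_pow]; rfl
  rw [e, fox_mul, fox_mul, fox_mul, fox_inv, p3, p2, p1]

theorem kap_val_of_sum (g : Gam) (n : ℕ) :
    MonoidAlgebra.of ℤ Gam g * ∑ m ∈ Finset.range n, MonoidAlgebra.of ℤ Gam (gd ^ m) =
      ∑ m ∈ Finset.range n, MonoidAlgebra.of ℤ Gam (g * gd ^ m) := by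
  rw [Finset.mul_sum]
  apply Finset.sum_congr rfl
  intro m _
  rw [← map_mul]

theorem kap_val_f00 : fox proj0 (rel0 0) 0 =
    ∑ m ∈ Finset.range 15, MonoidAlgebra.of ℤ Gam (gy ^ 2 * gd ^ m) +
      ∑ m ∈ Finset.range 15, MonoidAlgebra.of ℤ Gam (gy ^ 2 * gd ^ 15 * (gy ^ 2)⁻¹ * gd ^ m) := by
  rw [kap_val_fox0, kap_val_fa, kap_val_fc, kap_val_of_sum, kap_val_of_sum]
  simp only [mul_zero, neg_zero, zero_add, add_zero]

theorem kap_val_f10 : fox proj0 (rel0 1) 0 =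
    ∑ m ∈ Finset.range 10, MonoidAlgebra.of ℤ Gam (gd ^ m) -
      ∑ m ∈ Finset.range 10, MonoidAlgebra.of ℤ Gam (gd ^ 10 * gy ^ 3 * (gd ^ 10)⁻¹ * gd ^ m) := by
  rw [kap_val_fox1, kap_val_fa, kap_val_fc, mul_neg, ← mul_assoc, ← map_mul, kap_val_of_sum]
  simp only [mul_zero, neg_zero, zero_add, add_zero]
  rw [sub_eq_add_neg]

theorem kap_val_c1 (α : CH Gam) : α.c 1 = 0 := by
  have h := α.mul 1 1
  rw [mul_one, map_one, one_mul] at h
  linear_combination -h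

theorem kap_val_cd (α : CH Gam) (δ : ℂ) (ha : α.χ gd = δ) (hac : α.c gd = 1) (m : ℕ) :
    α.c (gd ^ m) * (δ - 1) = δ ^ m - 1 := by
  induction m with
  | zero => rw [pow_zero, kap_val_c1]; ring
  | succ m ih =>
    rw [pow_succ, α.mul, map_pow, ha, hac]
    linear_combination ih

theorem kap_val_cy (α : CH Gam) (hac' : α.c gy = 0) (m : ℕ) : α.c (gy ^ m) = 0 := by
  induction m with
  | zero => rw [pow_zero, kap_val_c1]
  | succ m ih => rw [pow_succ, α.mul, ih, hac', mul_zero, add_zero]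

theorem kap_val_cinv (α : CH Gam) (g : Gam) (hg : α.c g = 0) : α.c g⁻¹ = 0 := by
  have h := α.mul g⁻¹ g
  rw [inv_mul_cancel, kap_val_c1, hg, mul_zero, add_zero] at h
  exact h.symm

theorem kap_val_w (ω : ℂ) (hω : ω ^ 3 = 1) (hω1 : ω ≠ 1) : ω ^ 2 + ω + 1 = 0 := by
  have h : (ω - 1) * (ω ^ 2 + ω + 1) = 0 := by linear_combination hω
  exact (mul_eq_zero.1 h).resolve_left (sub_ne_zero.2 hω1)

/-- the first cochain value -/
theorem kap_val_A0 (δ η ω : ℂ) (h1 : δ ^ 15 = -1) (hη : η ^ 15 = 1) (hη1 : η ≠ 1)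
    (α β : CH Gam) (ha : α.χ gd = δ) (ha' : α.χ gy = -1) (hac : α.c gd = 1) (hac' : α.c gy = 0)
    (hb : β.χ gd = η) (hb' : β.χ gy = ω) (hω0 : ω ≠ 0) :
    extA (fun g => α.c g * β.χ g) (fox proj0 (rel0 0) 0) =
      (ω ^ 2 - 1) * ∑ m ∈ Finset.range 15, α.c (gd ^ m) * η ^ m := by
  rw [kap_val_f00, map_add, map_sum, map_sum]
  simp only [extA_of]
  have e1 : ∀ m, α.c (gy ^ 2 * gd ^ m) * β.χ (gy ^ 2 * gd ^ m) =
      ω ^ 2 * (α.c (gd ^ m) * η ^ m) := by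
    intro m
    rw [α.mul, kap_val_cy α hac', map_mul, map_pow, map_pow, map_pow, ha', hb, hb']
    ring
  have e2 : ∀ m, α.c (gy ^ 2 * gd ^ 15 * (gy ^ 2)⁻¹ * gd ^ m) *
      β.χ (gy ^ 2 * gd ^ 15 * (gy ^ 2)⁻¹ * gd ^ m) =
      α.c (gd ^ 15) * η ^ m - α.c (gd ^ m) * η ^ m := by
    intro m
    have k1 : α.c (gy ^ 2 * gd ^ 15 * (gy ^ 2)⁻¹ * gd ^ m) = α.c (gd ^ 15) - α.c (gd ^ m) := by
      have x1 : α.χ (gy ^ 2) = 1 := by rw [map_pow, ha']; norm_num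
      have x2 : α.χ (gy ^ 2 * gd ^ 15 * (gy ^ 2)⁻¹) = -1 := by
        rw [map_mul, map_mul, map_inv, x1, map_pow, ha, h1]; norm_num
      rw [α.mul, α.mul, α.mul, x2, x1, kap_val_cinv α _ (kap_val_cy α hac' 2),
        kap_val_cy α hac']
      ring
    have k2 : β.χ (gy ^ 2 * gd ^ 15 * (gy ^ 2)⁻¹ * gd ^ m) = η ^ m := by
      rw [map_mul, map_mul, map_mul, map_inv, map_pow, map_pow, map_pow, hb, hb', hη]
      field_simp
    rw [k1, k2]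
    ring
  rw [Finset.sum_congr rfl (fun m _ => e1 m), Finset.sum_congr rfl (fun m _ => e2 m),
    Finset.sum_sub_distrib, ← Finset.mul_sum, ← Finset.mul_sum]
  have h2 : ∑ m ∈ Finset.range 15, η ^ m = 0 := by
    have h3 := geom_sum_mul η 15
    rw [hη, sub_self] at h3
    exact (mul_eq_zero.1 h3).resolve_right (sub_ne_zero.2 hη1)
  rw [h2]
  ring

/-- the second cochain value -/
theorem kap_val_A1 (δ η ω : ℂ) (h2 : δ ^ 10 = 1) (hω : ω ^ 3 = 1) (hδ1 : δ ≠ 1)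
    (hη0 : η ≠ 0)
    (α β : CH Gam) (ha : α.χ gd = δ) (ha' : α.χ gy = -1) (hac : α.c gd = 1) (hac' : α.c gy = 0)
    (hb : β.χ gd = η) (hb' : β.χ gy = ω) :
    extA (fun g => α.c g * β.χ g) (fox proj0 (rel0 1) 0) =
      2 * ∑ m ∈ Finset.range 10, α.c (gd ^ m) * η ^ m := by
  rw [kap_val_f10, map_sub, map_sum, map_sum]
  simp only [extA_of]
  have hc10 : α.c (gd ^ 10) = 0 := by
    have h3 := kap_val_cd α δ ha hac 10
    rw [h2, sub_self] at h3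
    exact (mul_eq_zero.1 h3).resolve_right (sub_ne_zero.2 hδ1)
  have e1 : ∀ m, α.c (gd ^ m) * β.χ (gd ^ m) = α.c (gd ^ m) * η ^ m := by
    intro m
    rw [map_pow, hb]
  have e2 : ∀ m, α.c (gd ^ 10 * gy ^ 3 * (gd ^ 10)⁻¹ * gd ^ m) *
      β.χ (gd ^ 10 * gy ^ 3 * (gd ^ 10)⁻¹ * gd ^ m) = -(α.c (gd ^ m) * η ^ m) := by
    intro m
    have k1 : α.c (gd ^ 10 * gy ^ 3 * (gd ^ 10)⁻¹ * gd ^ m) = -α.c (gd ^ m) := by
      have x2 : α.χ (gd ^ 10 * gy ^ 3 * (gd ^ 10)⁻¹) = -1 := by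
        rw [map_mul, map_mul, map_inv, map_pow, map_pow, ha, ha', h2]; norm_num
      rw [α.mul, α.mul, α.mul, x2, kap_val_cinv α _ hc10, hc10, kap_val_cy α hac']
      ring
    have k2 : β.χ (gd ^ 10 * gy ^ 3 * (gd ^ 10)⁻¹ * gd ^ m) = η ^ m := by
      rw [map_mul, map_mul, map_mul, map_inv, map_pow, map_pow, map_pow, hb, hb', hω]
      field_simp
    rw [k1, k2]
    ring
  rw [Finset.sum_congr rfl (fun m _ => e1 m), Finset.sum_congr rfl (fun m _ => e2 m),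
    Finset.sum_neg_distrib]
  ring

/-- the sums of the crossed homomorphism -/
theorem kap_val_U (δ η : ℂ) (α : CH Gam) (ha : α.χ gd = δ) (hac : α.c gd = 1) (n : ℕ) :
    (δ - 1) * ∑ m ∈ Finset.range n, α.c (gd ^ m) * η ^ m =
      ∑ m ∈ Finset.range n, (δ * η) ^ m - ∑ m ∈ Finset.range n, η ^ m := by
  rw [Finset.mul_sum, ← Finset.sum_sub_distrib]
  apply Finset.sum_congr rfl
  intro m _
  have h := kap_val_cd α δ ha hac m
  rw [mul_pow]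
  linear_combination η ^ m * h

theorem kap_val_rs (ρ : Gam →* ℂ) (g h : Gam) (n : ℕ) :
    rhoHat ρ (∑ m ∈ Finset.range n, MonoidAlgebra.of ℤ Gam (g * h ^ m)) =
      ρ g * ∑ m ∈ Finset.range n, ρ h ^ m := by
  rw [map_sum, Finset.mul_sum]
  apply Finset.sum_congr rfl
  intro m _
  rw [rhoHat_of, map_mul, map_pow]

theorem kap_val_rt (ρ : Gam →* ℂ) (h : Gam) (n : ℕ) :
    rhoHat ρ (∑ m ∈ Finset.range n, MonoidAlgebra.of ℤ Gam (h ^ m)) =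
      ∑ m ∈ Finset.range n, ρ h ^ m := by
  rw [map_sum]
  apply Finset.sum_congr rfl
  intro m _
  rw [rhoHat_of, map_pow]

theorem kap_val_rm (ρ : Gam →* ℂ) (g : Gam) (x : MonoidAlgebra ℤ Gam) :
    rhoHat ρ (MonoidAlgebra.of ℤ Gam g * x) = ρ g * rhoHat ρ x := by
  rw [map_mul, rhoHat_of]

theorem kap_val (δ η ω : ℂ) (h1 : δ ^ 15 = -1) (h2 : δ ^ 10 = 1) (hω : ω ^ 3 = 1) (hω1 : ω ≠ 1)
    (hη : η ^ 15 = 1) (hη1 : η ≠ 1) (hη2 : η ^ 10 = ω)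
    (α β : CH Gam) (ha : α.χ gd = δ) (ha' : α.χ gy = -1) (hac : α.c gd = 1) (hac' : α.c gy = 0)
    (hb : β.χ gd = η) (hb' : β.χ gy = ω) (hbc : β.c gd = 1) (hbc' : β.c gy = 0) :
    kap proj0 rel0 α β * ((δ * η - 1) * (δ - 1) * (η - 1)) = -4 * (ω - 1) ^ 2 := by
  have hω0 : ω ≠ 0 := by
    rintro rfl
    norm_num at hω
  have hη0 : η ≠ 0 := by
    rintro rfl
    norm_num at hη
  have hδ0 : δ ≠ 0 := by
    rintro rfl
    norm_num at h2
  have hδ1 : δ ≠ 1 := by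
    rintro rfl
    norm_num at h1
  have hD15 : (δ * η) ^ 15 = -1 := by rw [mul_pow, h1, hη, mul_one]
  have hD10 : (δ * η) ^ 10 = ω := by rw [mul_pow, h2, hη2, one_mul]
  have hD1 : δ * η ≠ 1 := by
    intro h
    rw [h] at hD15
    norm_num at hD15
  have hw := kap_val_w ω hω hω1
  have hρd : (α.χ * β.χ) gd = δ * η := by rw [MonoidHom.mul_apply, ha, hb]
  have hρy : (α.χ * β.χ) gy = -ω := by rw [MonoidHom.mul_apply, ha', hb']; ring
  set ρ : Gam →* ℂ := α.χ * β.χ with hρ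
  -- entries of the matrix
  have hY3 : (-ω) ^ 3 = -1 := by linear_combination -hω
  have J00 : rhoHat ρ (fox proj0 (rel0 0) 0) =
      (ω ^ 2 - 1) * ∑ m ∈ Finset.range 15, (δ * η) ^ m := by
    rw [kap_val_f00, map_add, kap_val_rs, kap_val_rs, map_mul, map_mul, map_inv, map_pow, map_pow,
      hρd, hρy, hD15]
    field_simp
    ring
  have J01 : rhoHat ρ (fox proj0 (rel0 0) 1) = 2 * (1 - ω) := by
    rw [kap_val_fox0, kap_val_fb, kap_val_fd]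
    simp only [mul_zero, add_zero]
    have x1 : ρ (gy ^ 2 * gd ^ 15) = -ω ^ 2 := by
      rw [map_mul, map_pow, map_pow, hρd, hρy, hD15]; ring
    have x2 : ρ (gy ^ 2)⁻¹ = (ω ^ 2)⁻¹ := by
      rw [map_inv, map_pow, hρy]; congr 1; ring
    rw [map_add, kap_val_rm, map_neg, kap_val_rm, kap_val_rt, x1, x2, hρy]
    simp only [Finset.sum_range_succ, Finset.sum_range_zero]
    field_simp
    ring
  have J10 : rhoHat ρ (fox proj0 (rel0 1) 0) = 2 * ∑ m ∈ Finset.range 10, (δ * η) ^ m := by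
    rw [kap_val_f10, map_sub, kap_val_rt, kap_val_rs, map_mul, map_mul, map_inv, map_pow, map_pow,
      hρd, hρy, hD10, hY3]
    field_simp
    ring
  have J11 : rhoHat ρ (fox proj0 (rel0 1) 1) = (ω - 1) * (1 - ω + ω ^ 2) := by
    rw [kap_val_fox1, kap_val_fb, kap_val_fd]
    simp only [mul_zero, add_zero, neg_zero, zero_add]
    have x1 : ρ (gd ^ 10) = ω := by rw [map_pow, hρd, hD10]
    have x2 : ρ (gd ^ 10 * gy ^ 3 * (gd ^ 10)⁻¹) = -1 := by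
      rw [map_mul, map_mul, map_inv, map_pow, map_pow, hρd, hρy, hD10, hY3]
      field_simp
    rw [map_add, kap_val_rm, kap_val_rm, kap_val_rt, x1, x2, hρy]
    simp only [Finset.sum_range_succ, Finset.sum_range_zero]
    field_simp
    ring
  -- change of the vector `l`
  have hdv0 : dv proj0 ρ 0 = δ * η - 1 := by
    show ρ gd - 1 = _
    rw [hρd]
  have hE : δ * η - 1 ≠ 0 := sub_ne_zero.2 hD1
  have hrel : ∀ i, proj0 (rel0 i) = 1 := fun i =>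
    PresentedGroup.one_of_mem (Set.mem_range_self i)
  have hkap : kap proj0 rel0 α β = (Jm proj0 rel0 ρ +
      vecMulVec (cv proj0 rel0 α β) ![(δ * η - 1)⁻¹, 0]).det := by
    unfold kap
    refine det_indep _ (dv proj0 ρ) _ _ _ (Jm_dv proj0 rel0 hrel ρ) (lv_dot proj0 ρ 0 ?_) ?_
    · show ρ gd ≠ 1
      rw [hρd]
      exact hD1
    · rw [dotProduct, Fin.sum_univ_two, hdv0]
      simp [hE]
  have hc0 : cv proj0 rel0 α β 0 =
      (ω ^ 2 - 1) * ∑ m ∈ Finset.range 15, α.c (gd ^ m) * η ^ m := by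
    unfold cv
    rw [Fin.sum_univ_two, kap_val_A0 δ η ω h1 hη hη1 α β ha ha' hac hac' hb hb' hω0]
    have e0 : β.c (proj0 (FreeGroup.of 0)) = 1 := hbc
    have e1 : β.c (proj0 (FreeGroup.of 1)) = 0 := hbc'
    rw [e0, e1, mul_zero, add_zero, mul_one]
  have hc1 : cv proj0 rel0 α β 1 =
      2 * ∑ m ∈ Finset.range 10, α.c (gd ^ m) * η ^ m := by
    unfold cv
    rw [Fin.sum_univ_two, kap_val_A1 δ η ω h2 hω hδ1 hη0 α β ha ha' hac hac' hb hb']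
    have e0 : β.c (proj0 (FreeGroup.of 0)) = 1 := hbc
    have e1 : β.c (proj0 (FreeGroup.of 1)) = 0 := hbc'
    rw [e0, e1, mul_zero, add_zero, mul_one]
  rw [hkap, Matrix.det_fin_two]
  simp only [Matrix.add_apply, Matrix.vecMulVec_apply, Matrix.cons_val_zero, Matrix.cons_val_one]
  have m00 : Jm proj0 rel0 ρ 0 0 = (ω ^ 2 - 1) * ∑ m ∈ Finset.range 15, (δ * η) ^ m := J00
  have m01 : Jm proj0 rel0 ρ 0 1 = 2 * (1 - ω) := J01
  have m10 : Jm proj0 rel0 ρ 1 0 = 2 * ∑ m ∈ Finset.range 10, (δ * η) ^ m := J10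
  have m11 : Jm proj0 rel0 ρ 1 1 = (ω - 1) * (1 - ω + ω ^ 2) := J11
  rw [m00, m01, m10, m11, hc0, hc1]
  have u15 := kap_val_U δ η α ha hac 15
  have u10 := kap_val_U δ η α ha hac 10
  have s15 := geom_sum_mul (δ * η) 15
  have s10 := geom_sum_mul (δ * η) 10
  have v15 : ∑ m ∈ Finset.range 15, η ^ m = 0 := by
    have h3 := geom_sum_mul η 15
    rw [hη, sub_self] at h3
    exact (mul_eq_zero.1 h3).resolve_right (sub_ne_zero.2 hη1)
  have v10 := geom_sum_mul η 10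
  rw [v15, sub_zero] at u15
  rw [hD15] at s15
  rw [hD10] at s10
  rw [hη2] at v10
  set l := (δ * η - 1)⁻¹ with hl
  have hlE : l * (δ * η - 1) = 1 := inv_mul_cancel₀ hE
  set S := ∑ m ∈ Finset.range 15, (δ * η) ^ m
  set T := ∑ m ∈ Finset.range 10, (δ * η) ^ m
  set V := ∑ m ∈ Finset.range 10, η ^ m
  set U := ∑ m ∈ Finset.range 15, α.c (gd ^ m) * η ^ m
  set W := ∑ m ∈ Finset.range 10, α.c (gd ^ m) * η ^ m
  have hS : S = -2 * l := by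
    linear_combination -S * hlE + l * s15
  have hT : T = (ω - 1) * l := by
    linear_combination -T * hlE + l * s10
  rw [hS] at u15
  rw [hT] at u10
  rw [hS, hT]
  clear_value S T V U W l
  have key : (((ω ^ 2 - 1) * (-2 * l) + (ω ^ 2 - 1) * U * l) * ((ω - 1) * (1 - ω + ω ^ 2) +
      2 * W * 0) - (2 * (1 - ω) + (ω ^ 2 - 1) * U * 0) * (2 * ((ω - 1) * l) + 2 * W * l)) *
      ((δ * η - 1) * (δ - 1) * (η - 1)) = -4 * (ω - 1) ^ 2 := by
    have e11 : (ω - 1) * (1 - ω + ω ^ 2) = -2 * ω * (ω - 1) := by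
      linear_combination (ω - 1) * hw
    rw [e11]
    linear_combination ((δ - 1) * (η - 1) * (4 * ω * (ω ^ 2 - 1) * (ω - 1) -
      2 * ω * (ω - 1) * (ω ^ 2 - 1) * U + 4 * (ω - 1) ^ 2 + 4 * (ω - 1) * W)) * hlE +
      (η - 1) * (-2 * ω * (ω - 1) * (ω ^ 2 - 1)) * u15 + 4 * (η - 1) * (ω - 1) * u10 -
      4 * (ω - 1) * v10 + (4 * (δ - 1) * (η - 1) * (ω - 1) ^ 2 + 4 * (η - 1) * l * (ω - 1) ^ 2) * hw
  exact key

end H970SH
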