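import Pool.Agent.Helper970.SH.Defs
import Pool.Agent.Helper970.SH.Basic

open Matrix

namespace H970SH



/-- logarithm of the modulus of the determinant -/
noncomputable def dd79 {R : Type} [Ring R] (f : R →+* ℂ) (x : Σ n : ℕ, (Matrix (Fin n) (Fin n) R)ˣ) : ℝ :=
  Real.log ‖((x.2 : Matrix (Fin x.1) (Fin x.1) R).map f).det‖

theorem dd79_ne {R : Type} [Ring R] (f : R →+* ℂ) {n : ℕ} (M : (Matrix (Fin n) (Fin n) R)ˣ) :
    ((M : Matrix (Fin n) (Fin n) R).map f).det ≠ 0 := by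
  have h1 : IsUnit ((f.mapMatrix : Matrix (Fin n) (Fin n) R →+* Matrix (Fin n) (Fin n) ℂ)
      (M : Matrix (Fin n) (Fin n) R)) := (Units.isUnit M).map _
  rw [RingHom.mapMatrix_apply, Matrix.isUnit_iff_isUnit_det] at h1
  exact h1.ne_zero

theorem dd79_rel {R : Type} [Ring R] (f : R →+* ℂ)
    (x : FreeAbelianGroup (Σ n : ℕ, (Matrix (Fin n) (Fin n) R)ˣ)) (hx : x ∈ K1Rel R) :
    FreeAbelianGroup.lift (dd79 f) x = 0 := by
  rcases hx with ⟨n, M, N, rfl⟩ | ⟨n, M, N, hN, rfl⟩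
  · rw [map_sub, map_add, FreeAbelianGroup.lift_apply_of, FreeAbelianGroup.lift_apply_of,
      FreeAbelianGroup.lift_apply_of]
    unfold dd79
    simp only [Units.val_mul]
    rw [Matrix.map_mul, Matrix.det_mul, norm_mul, Real.log_mul
      (norm_ne_zero_iff.2 (dd79_ne f M)) (norm_ne_zero_iff.2 (dd79_ne f N)), sub_self]
  · rw [map_sub, FreeAbelianGroup.lift_apply_of, FreeAbelianGroup.lift_apply_of]
    unfold dd79
    simp only [hN]
    have e : (Matrix.reindex finSumFinEquiv finSumFinEquiv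
            (Matrix.fromBlocks (M : Matrix (Fin n) (Fin n) R) 0 0 (1 : Matrix (Fin 1) (Fin 1) R))).map f
        = Matrix.reindex finSumFinEquiv finSumFinEquiv
          (Matrix.fromBlocks ((M : Matrix (Fin n) (Fin n) R).map f) 0 0 (1 : Matrix (Fin 1) (Fin 1) ℂ)) := by
      have e1 : (Matrix.fromBlocks (M : Matrix (Fin n) (Fin n) R) 0 0 (1 : Matrix (Fin 1) (Fin 1) R)).map f
          = Matrix.fromBlocks ((M : Matrix (Fin n) (Fin n) R).map f) 0 0 (1 : Matrix (Fin 1) (Fin 1) ℂ) := by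
        rw [Matrix.fromBlocks_map]
        congr 1
        · ext i j; simp
        · ext i j; simp
        · exact Matrix.map_one f (map_zero f) (map_one f)
      rw [← e1]
      rfl
    rw [e, Matrix.det_reindex_self, Matrix.det_fromBlocks_zero₂₁, Matrix.det_one, mul_one, sub_self]

/-- the determinant on `K₁` -/
noncomputable def L1_79 {R : Type} [Ring R] (f : R →+* ℂ) : K1 R →+ ℝ :=
  QuotientAddGroup.lift (AddSubgroup.closure (K1Rel R)) (FreeAbelianGroup.lift (dd79 f)) (by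
    have h : AddSubgroup.closure (K1Rel R) ≤ (FreeAbelianGroup.lift (dd79 f)).ker := by
      rw [AddSubgroup.closure_le]
      intro x hx
      exact dd79_rel f x hx
    exact h)

theorem L1_79_mk {R : Type} [Ring R] (f : R →+* ℂ) {n : ℕ} (M : (Matrix (Fin n) (Fin n) R)ˣ) :
    L1_79 f (K1.mk M) = dd79 f ⟨n, M⟩ := by
  unfold L1_79 K1.mk
  rw [QuotientAddGroup.mk'_apply, QuotientAddGroup.lift_mk, FreeAbelianGroup.lift_apply_of]

theorem L1_79_triv {π : Type} [Group π] (ρ : π →* ℂ) (hρ : ∀ g, ‖ρ g‖ = 1) :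
    trivialUnits π ≤ (L1_79 (rhoHat ρ)).ker := by
  unfold trivialUnits
  rw [AddSubgroup.closure_le]
  rintro c ⟨g, M, hM, rfl⟩
  show L1_79 (rhoHat ρ) (K1.mk M) = 0
  rw [L1_79_mk]
  unfold dd79
  have hr : rhoHat ρ (MonoidAlgebra.of ℤ π g) = ρ g := by
    unfold rhoHat
    exact MonoidAlgebra.lift_of ρ g
  have hn : ‖((M : Matrix (Fin 1) (Fin 1) (MonoidAlgebra ℤ π)).map (rhoHat ρ)).det‖ = 1 := by
    rw [Matrix.det_fin_one, Matrix.map_apply]
    rcases hM with h | h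
    · rw [h, hr, hρ]
    · rw [h, map_neg, hr, norm_neg, hρ]
  simp only [hn, Real.log_one]

theorem wh_det {π : Type} [Group π] (ρ : π →* ℂ) (hρ : ∀ g, ‖ρ g‖ = 1) {N : ℕ}
    (U : (Matrix (Fin N) (Fin N) (MonoidAlgebra ℤ π))ˣ) (hU : Wh.mk U = 0) :
    ‖((U : Matrix (Fin N) (Fin N) (MonoidAlgebra ℤ π)).map (rhoHat ρ)).det‖ = 1 := by
  have h1 : L1_79 (rhoHat ρ) (K1.mk U) = 0 := by
    have h2 : K1.mk U ∈ trivialUnits π := by
      unfold Wh.mk at hU
      rw [QuotientAddGroup.mk'_apply, QuotientAddGroup.eq_zero_iff] at hU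
      exact hU
    exact L1_79_triv ρ hρ h2
  rw [L1_79_mk] at h1
  exact Real.eq_one_of_pos_of_log_eq_zero (norm_pos_iff.2 (dd79_ne (rhoHat ρ) U)) h1

end H970SH
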