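import Pool.Agent.Helper970.SH.Defs
import Pool.Agent.Helper970.SH.Basic
import Pool.Agent.Helper970.SH.P_kap_comap
import Pool.Agent.Helper970.SH.P_kap_block
import Pool.Agent.Helper970.SH.P_wh_det

open Matrix

namespace H970SH



private theorem j24968_det {T : Type} [Fintype T] [DecidableEq T] {N : ℕ} (A : Matrix T T ℂ)
    (e e' : T ≃ Fin N) : ‖(Matrix.reindex e e' A).det‖ = ‖A.det‖ := by
  have h1 : Matrix.reindex e e' A =
      (A.submatrix (e'.trans e.symm : T ≃ T) id).submatrix e'.symm e'.symm := by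
    ext i j
    simp
  rw [h1, Matrix.det_submatrix_equiv_self, Matrix.det_permute, norm_mul]
  have h2 : ‖((Equiv.Perm.sign (e'.trans e.symm : T ≃ T) : ℤˣ) : ℂ)‖ = 1 := by
    rcases Int.units_eq_one_or (Equiv.Perm.sign (e'.trans e.symm : T ≃ T)) with h | h
    · rw [h]
      simp
    · rw [h]
      simp
  rw [h2, one_mul]

private theorem j24968_rel (P : Pres) (i : P.Y) : P.proj (P.rel i) = 1 :=
  PresentedGroup.one_of_mem (Set.mem_range_self i)

private theorem j24968_gen (P Q : Pres) (φ : P.Pi1 ≃* Q.Pi1) (ρ : Q.Pi1 →* ℂ)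
    (h : ∃ g, ρ g ≠ 1) : ∃ x, ρ ((φ.toMonoidHom.comp P.proj) (FreeGroup.of x)) ≠ 1 := by
  by_contra hcon
  push Not at hcon
  obtain ⟨g, hg⟩ := h
  apply hg
  have h1 : ρ.comp (φ.toMonoidHom.comp P.proj) = 1 := by
    apply FreeGroup.ext_hom
    intro x
    exact hcon x
  obtain ⟨w, hw⟩ := φ.surjective g
  obtain ⟨u, hu⟩ := PresentedGroup.mk_surjective (Set.range P.rel) w
  have h2 := DFunLike.congr_fun h1 u
  have h3 : (φ.toMonoidHom.comp P.proj) u = g := by
    rw [← hw, ← hu]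
    rfl
  rw [MonoidHom.comp_apply, h3] at h2
  exact h2

theorem simple_inv (k l : ℕ) (h : SimpleHomotopyEquivalent (fam k) (fam l)) :
    ∃ φ : (fam k).Pi1 ≃* (fam l).Pi1, ∀ α β : CH (fam l).Pi1,
      (∃ g, (α.χ * β.χ) g ≠ 1) →
      ‖kap (fam k).proj (famRel k) (α.comap φ.toMonoidHom) (β.comap φ.toMonoidHom)‖ =
        ‖kap (fam l).proj (famRel l) α β‖ := by
  obtain ⟨φ, f, hc, N, e, e', U, hU, hW⟩ := h
  refine ⟨φ, fun α β hg => ?_⟩
  have hρ : ∀ g, ‖(α.χ * β.χ) g‖ = 1 := by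
    intro g
    rw [MonoidHom.mul_apply, norm_mul, α.unitary, β.unitary, one_mul]
  have hdet := wh_det (α.χ * β.χ) hρ U hW
  have hblk := kap_block (φ.toMonoidHom.comp (fam k).proj) (fam l).proj (famRel k) (famRel l)
    (fun i => by
      have h1 := j24968_rel (fam k) i
      show φ.toMonoidHom ((fam k).proj ((fam k).rel i)) = 1
      rw [h1, map_one])
    (fun i => j24968_rel (fam l) i) f.f₁ f.f₂ hc.s f.comm₁ f.comm₂ hc.left α β
    (j24968_gen (fam k) (fam l) φ (α.χ * β.χ) hg)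
  have hmat : (U : Matrix (Fin N) (Fin N) (MonoidAlgebra ℤ (fam l).Pi1)).map
      (rhoHat (α.χ * β.χ)) = Matrix.reindex e e'
      ((Matrix.fromRows f.bd3 hc.s).map (rhoHat (α.χ * β.χ))) := by
    rw [hU]
    ext i j
    rfl
  rw [hmat] at hdet
  have hdet2 : ‖((Matrix.fromRows f.bd3 hc.s).map (rhoHat (α.χ * β.χ))).det‖ = 1 := by
    have h1 := j24968_det (T := (Fin 2 ⊕ Fin k) ⊕ (Fin 2 ⊕ Fin l))
      ((Matrix.fromRows f.bd3 hc.s).map (rhoHat (α.χ * β.χ))) e e'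
    exact h1.symm.trans hdet
  have h6 := kap_comap (fam k).proj φ.toMonoidHom (famRel k) α β
  have h7 : ∀ (a b c d : ℂ) (n : ℕ), ‖a‖ = 1 → a * b = (-1) ^ n * c → c = d → ‖d‖ = ‖b‖ := by
    intro a b c d n h1 h2 h3
    have h4 := congrArg norm h2
    rw [norm_mul, norm_mul, norm_pow, norm_neg, norm_one, one_pow, one_mul, h1, one_mul] at h4
    rw [← h3, h4]
  exact h7 _ _ _ _ _ hdet2 hblk h6

end H970SH
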