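import Pool.Agent.Helper970.SH.Basic
import Pool.Agent.Helper970.SH.Key
import Pool.Agent.Helper970.SH.P_bd2_fam
import Pool.Agent.Helper970.SH.P_ch_exists
import Pool.Agent.Helper970.SH.P_ch_two
import Pool.Agent.Helper970.SH.P_char_finite
import Pool.Agent.Helper970.SH.P_char_gen
import Pool.Agent.Helper970.SH.P_cochain
import Pool.Agent.Helper970.SH.P_det_block
import Pool.Agent.Helper970.SH.P_det_indep
import Pool.Agent.Helper970.SH.P_det_scale
import Pool.Agent.Helper970.SH.P_extA_mul
import Pool.Agent.Helper970.SH.P_famk_gen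
import Pool.Agent.Helper970.SH.P_famk_iso
import Pool.Agent.Helper970.SH.P_fox_inl
import Pool.Agent.Helper970.SH.P_gam_hom_ext
import Pool.Agent.Helper970.SH.P_gam_rel
import Pool.Agent.Helper970.SH.P_kap_block
import Pool.Agent.Helper970.SH.P_kap_comap
import Pool.Agent.Helper970.SH.P_kap_fam
import Pool.Agent.Helper970.SH.P_kap_lin
import Pool.Agent.Helper970.SH.P_lam_unit
import Pool.Agent.Helper970.SH.P_projk_rel
import Pool.Agent.Helper970.SH.P_rel_finite
import Pool.Agent.Helper970.SH.P_simple_inv
import Pool.Agent.Helper970.SH.P_wh_det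
import Pool.Agent.Helper970.SH.P_kap_val
import Pool.Agent.Helper970.SH.P_fam_equiv
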