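import Mathlib

open Matrix

namespace H970SH

noncomputable section

/-! ### The Whitehead group -/

/-- The relations `[M N] = [M] + [N]` and `[M ⊕ 1] = [M]` for invertible matrices over `R`. -/
def K1Rel (R : Type) [Ring R] : Set (FreeAbelianGroup (Σ n : ℕ, (Matrix (Fin n) (Fin n) R)ˣ)) :=
  {x | (∃ (n : ℕ) (M N : (Matrix (Fin n) (Fin n) R)ˣ),
        x = FreeAbelianGroup.of ⟨n, M * N⟩ - (FreeAbelianGroup.of ⟨n, M⟩ + FreeAbelianGroup.of ⟨n, N⟩)) ∨
      (∃ (n : ℕ) (M : (Matrix (Fin n) (Fin n) R)ˣ) (N : (Matrix (Fin (n + 1)) (Fin (n + 1)) R)ˣ),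
        (N : Matrix (Fin (n + 1)) (Fin (n + 1)) R) =
          Matrix.reindex finSumFinEquiv finSumFinEquiv
            (Matrix.fromBlocks (M : Matrix (Fin n) (Fin n) R) 0 0 (1 : Matrix (Fin 1) (Fin 1) R)) ∧
        x = FreeAbelianGroup.of ⟨n + 1, N⟩ - FreeAbelianGroup.of ⟨n, M⟩)}

/-- `K₁(R)`, the abelianization of the union of the groups `GL_n(R)`: the abelian group generated by
the classes `[M]` of the invertible matrices over `R` with the relations `[M N] = [M] + [N]`
and `[M ⊕ 1] = [M]`. -/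
abbrev K1 (R : Type) [Ring R] : Type :=
  FreeAbelianGroup (Σ n : ℕ, (Matrix (Fin n) (Fin n) R)ˣ) ⧸ AddSubgroup.closure (K1Rel R)

/-- The class in `K₁(R)` of an invertible matrix over `R`. -/
def K1.mk {R : Type} [Ring R] {n : ℕ} (M : (Matrix (Fin n) (Fin n) R)ˣ) : K1 R :=
  QuotientAddGroup.mk' (AddSubgroup.closure (K1Rel R)) (FreeAbelianGroup.of ⟨n, M⟩)

/-- The subgroup of `K₁(ℤ[π])` generated by the classes of `g` and `-g`, `g ∈ π`. -/
def trivialUnits (π : Type) [Group π] : AddSubgroup (K1 (MonoidAlgebra ℤ π)) :=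
  AddSubgroup.closure {c | ∃ (g : π) (M : (Matrix (Fin 1) (Fin 1) (MonoidAlgebra ℤ π))ˣ),
    ((M : Matrix (Fin 1) (Fin 1) (MonoidAlgebra ℤ π)) 0 0 = MonoidAlgebra.of ℤ π g ∨
      (M : Matrix (Fin 1) (Fin 1) (MonoidAlgebra ℤ π)) 0 0 = -MonoidAlgebra.of ℤ π g) ∧ c = K1.mk M}

/-- The Whitehead group `Wh(π) = K₁(ℤ[π]) / {±g : g ∈ π}`. -/
abbrev Wh (π : Type) [Group π] : Type := K1 (MonoidAlgebra ℤ π) ⧸ trivialUnits π

/-- The class in `Wh(π)` of an invertible matrix over `ℤ[π]`. -/
def Wh.mk {π : Type} [Group π] {n : ℕ} (M : (Matrix (Fin n) (Fin n) (MonoidAlgebra ℤ π))ˣ) : Wh π :=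
  QuotientAddGroup.mk' (trivialUnits π) (K1.mk M)

/-! ### Finite presentations and the cellular chain complex of the universal cover -/

/-- A finite presentation `⟨X ∣ rel y, y ∈ Y⟩`. Its standard complex is the compact 2-complex with
one 0-cell, one 1-cell for every generator `x ∈ X` and one 2-cell for every `y ∈ Y`, attached along
the word `rel y`. -/
structure Pres where
  X : Type
  Y : Type
  [finX : Fintype X]
  [decX : DecidableEq X]
  [finY : Fintype Y]
  [decY : DecidableEq Y]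
  rel : Y → FreeGroup X

attribute [instance] Pres.finX Pres.decX Pres.finY Pres.decY

/-- The fundamental group of the standard complex. -/
abbrev Pres.Pi1 (P : Pres) : Type := PresentedGroup (Set.range P.rel)

/-- The projection from the fundamental group of the 1-skeleton. -/
def Pres.proj (P : Pres) : FreeGroup P.X →* P.Pi1 := PresentedGroup.mk (Set.range P.rel)

/-- The lift to a regular covering (deck group `G`) of an edge loop: the cellular 1-chain of the
lift starting at the base vertex, and the deck transformation `g` for which the lift ends at the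
vertex `g`. The 1-chains are the functions `X → ℤ[G]`. -/
@[ext] structure LiftedPath (G X : Type) where
  chain : X → MonoidAlgebra ℤ G
  endpoint : G

instance LiftedPath.instMul {G X : Type} [Group G] : Mul (LiftedPath G X) :=
  ⟨fun p q => ⟨fun x => p.chain x + MonoidAlgebra.of ℤ G p.endpoint * q.chain x,
    p.endpoint * q.endpoint⟩⟩

instance LiftedPath.instOne {G X : Type} [Group G] : One (LiftedPath G X) := ⟨⟨0, 1⟩⟩

instance LiftedPath.instInv {G X : Type} [Group G] : Inv (LiftedPath G X) :=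
  ⟨fun p => ⟨fun x => -(MonoidAlgebra.of ℤ G p.endpoint⁻¹ * p.chain x), p.endpoint⁻¹⟩⟩

theorem LiftedPath.mul_def {G X : Type} [Group G] (p q : LiftedPath G X) :
    p * q = ⟨fun x => p.chain x + MonoidAlgebra.of ℤ G p.endpoint * q.chain x,
      p.endpoint * q.endpoint⟩ := rfl

theorem LiftedPath.one_def {G X : Type} [Group G] : (1 : LiftedPath G X) = ⟨0, 1⟩ := rfl

theorem LiftedPath.inv_def {G X : Type} [Group G] (p : LiftedPath G X) :
    p⁻¹ = ⟨fun x => -(MonoidAlgebra.of ℤ G p.endpoint⁻¹ * p.chain x), p.endpoint⁻¹⟩ := rfl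

/-- Concatenation of lifted paths (the second one is translated to the end of the first one). -/
instance LiftedPath.instGroup {G X : Type} [Group G] : Group (LiftedPath G X) :=
  Group.ofLeftAxioms
    (by
      intro p q r
      ext x
      · simp only [LiftedPath.mul_def, map_mul, mul_add, mul_assoc, add_assoc]
      · simp only [LiftedPath.mul_def, mul_assoc])
    (by
      intro p
      ext x
      · simp only [LiftedPath.mul_def, LiftedPath.one_def, map_one, one_mul, Pi.zero_apply, zero_add]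
      · simp only [LiftedPath.mul_def, LiftedPath.one_def, one_mul])
    (by
      intro p
      ext x
      · simp only [LiftedPath.mul_def, LiftedPath.one_def, LiftedPath.inv_def, Pi.zero_apply,
          neg_add_cancel]
      · simp only [LiftedPath.mul_def, LiftedPath.one_def, LiftedPath.inv_def, inv_mul_cancel])

/-- The lift of an edge loop (a word in the generators); the edge `x` lifts to the basis element
`x` of the 1-chains and ends at the vertex `θ x`. -/
def liftPath {G X : Type} [Group G] [DecidableEq X] (θ : FreeGroup X →* G) :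
    FreeGroup X →* LiftedPath G X :=
  FreeGroup.lift fun x => ⟨Pi.single x 1, θ (FreeGroup.of x)⟩

/-- The 1-chain of the lift of a word: its coordinates are the Fox derivatives of the word, with
values in `ℤ[G]`. -/
def fox {G X : Type} [Group G] [DecidableEq X] (θ : FreeGroup X →* G) (w : FreeGroup X) (x : X) :
    MonoidAlgebra ℤ G := (liftPath θ w).chain x

/-- The cellular boundary map `C₂ = ℤ[G]^Y → C₁ = ℤ[G]^X` (left modules, row vectors). -/
def bd2 {G X Y : Type} [Group G] [DecidableEq X] (θ : FreeGroup X →* G) (rel : Y → FreeGroup X) :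
    Matrix Y X (MonoidAlgebra ℤ G) := Matrix.of fun i x => fox θ (rel i) x

/-- The cellular boundary map `C₁ = ℤ[G]^X → C₀ = ℤ[G]`. -/
def bd1 {G X : Type} [Group G] (θ : FreeGroup X →* G) :
    Matrix X Unit (MonoidAlgebra ℤ G) :=
  Matrix.of fun x _ => MonoidAlgebra.of ℤ G (θ (FreeGroup.of x)) - 1

/-! ### Homotopy equivalences and their torsion -/

/-- A chain map, over the isomorphism `φ` of fundamental groups, between the cellular chain
complexes of the universal covers of the standard complexes of `P` and `Q`, which is the identity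
on the base 0-cell. -/
structure CellularMap (P Q : Pres) (φ : P.Pi1 ≃* Q.Pi1) where
  f₁ : Matrix P.X Q.X (MonoidAlgebra ℤ Q.Pi1)
  f₂ : Matrix P.Y Q.Y (MonoidAlgebra ℤ Q.Pi1)
  comm₁ : bd1 (φ.toMonoidHom.comp P.proj) = f₁ * bd1 Q.proj
  comm₂ : bd2 (φ.toMonoidHom.comp P.proj) P.rel * f₁ = f₂ * bd2 Q.proj Q.rel

/-- `C₃ → C₂` of the pair of universal covers of (reduced mapping cylinder of `f`, complex of
`P`): the relative 3-cells are the products of the 2-cells of `P` with the interval, the relative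
2-cells are the products of the 1-cells of `P` with the interval and the 2-cells of `Q`. -/
def CellularMap.bd3 {P Q : Pres} {φ : P.Pi1 ≃* Q.Pi1} (f : CellularMap P Q φ) :
    Matrix P.Y (P.X ⊕ Q.Y) (MonoidAlgebra ℤ Q.Pi1) :=
  Matrix.fromCols (-(bd2 (φ.toMonoidHom.comp P.proj) P.rel)) f.f₂

/-- `C₂ → C₁` of the same pair; the relative 1-cells are the 1-cells of `Q`. -/
def CellularMap.bdm {P Q : Pres} {φ : P.Pi1 ≃* Q.Pi1} (f : CellularMap P Q φ) :
    Matrix (P.X ⊕ Q.Y) Q.X (MonoidAlgebra ℤ Q.Pi1) :=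
  Matrix.fromRows f.f₁ (bd2 Q.proj Q.rel)

/-- A contraction of the relative chain complex of the mapping cylinder. It exists if and only if
`f` is a homotopy equivalence (theorem of Whitehead). -/
structure Contraction {P Q : Pres} {φ : P.Pi1 ≃* Q.Pi1} (f : CellularMap P Q φ) where
  s : Matrix Q.X (P.X ⊕ Q.Y) (MonoidAlgebra ℤ Q.Pi1)
  t : Matrix (P.X ⊕ Q.Y) P.Y (MonoidAlgebra ℤ Q.Pi1)
  left : s * f.bdm = 1
  mid : t * f.bd3 + f.bdm * s = 1
  right : f.bd3 * t = 1

/-- The standard complexes of `P` and `Q` are homotopy equivalent. -/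
def HomotopyEquivalent (P Q : Pres) : Prop :=
  ∃ (φ : P.Pi1 ≃* Q.Pi1) (f : CellularMap P Q φ), Nonempty (Contraction f)

/-- The standard complexes of `P` and `Q` are simple-homotopy equivalent: there is a homotopy
equivalence with vanishing Whitehead torsion in `Wh(π₁)`. The torsion of an acyclic based complex
`C₃ → C₂ → C₁` with contraction `(s, t)` is the class of the matrix of
`(∂, s) : C₃ ⊕ C₁ → C₂` in the given bases (numbered in some way). -/
def SimpleHomotopyEquivalent (P Q : Pres) : Prop :=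
  ∃ (φ : P.Pi1 ≃* Q.Pi1) (f : CellularMap P Q φ) (h : Contraction f) (N : ℕ)
    (e : P.Y ⊕ Q.X ≃ Fin N) (e' : P.X ⊕ Q.Y ≃ Fin N)
    (U : (Matrix (Fin N) (Fin N) (MonoidAlgebra ℤ Q.Pi1))ˣ),
    (U : Matrix (Fin N) (Fin N) (MonoidAlgebra ℤ Q.Pi1)) =
        Matrix.reindex e e' (Matrix.fromRows f.bd3 h.s) ∧
      Wh.mk U = 0

/-! ### Auxiliary definitions used only in the proof -/

/-- The extension of a character to the group ring. -/
def rhoHat {G : Type} [Group G] (ρ : G →* ℂ) : MonoidAlgebra ℤ G →+* ℂ :=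
  (MonoidAlgebra.lift ℤ ℂ G ρ).toRingHom

/-- The additive extension of a function to the group ring. -/
def extA {G : Type} [Group G] (a : G → ℂ) : MonoidAlgebra ℤ G →+ ℂ :=
  MonoidAlgebra.liftNC (Int.castAddHom ℂ) a

/-- A unitary character together with a crossed homomorphism. -/
structure CH (G : Type) [Group G] where
  χ : G →* ℂ
  c : G → ℂ
  mul : ∀ g h, c (g * h) = c g + χ g * c h
  unitary : ∀ g, ‖χ g‖ = 1

def CH.comap {G H : Type} [Group G] [Group H] (α : CH G) (e : H →* G) : CH H where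
  χ := α.χ.comp e
  c := fun h => α.c (e h)
  mul := fun g h => by rw [map_mul, α.mul]; rfl
  unitary := fun g => α.unitary _

def Jm {G X : Type} [Group G] [Fintype X] [DecidableEq X] (θ : FreeGroup X →* G)
    (rel : X → FreeGroup X) (ρ : G →* ℂ) : Matrix X X ℂ := (bd2 θ rel).map (rhoHat ρ)

def dv {G X : Type} [Group G] (θ : FreeGroup X →* G) (ρ : G →* ℂ) : X → ℂ :=
  fun x => ρ (θ (FreeGroup.of x)) - 1

def lv {G X : Type} [Group G] [Fintype X] (θ : FreeGroup X →* G) (ρ : G →* ℂ) : X → ℂ :=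
  fun x => star (dv θ ρ x) / ∑ y, star (dv θ ρ y) * dv θ ρ y

/-- The cup product cochain. -/
def cv {G X : Type} [Group G] [Fintype X] [DecidableEq X] (θ : FreeGroup X →* G)
    (rel : X → FreeGroup X) (α β : CH G) : X → ℂ :=
  fun i => ∑ x, extA (fun g => α.c g * β.χ g) (fox θ (rel i) x) * β.c (θ (FreeGroup.of x))

/-- The torsion, normalised by the cup product. -/
def kap {G X : Type} [Group G] [Fintype X] [DecidableEq X] (θ : FreeGroup X →* G)
    (rel : X → FreeGroup X) (α β : CH G) : ℂ :=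
  (Jm θ rel (α.χ * β.χ) + Matrix.vecMulVec (cv θ rel α β) (lv θ (α.χ * β.χ))).det

def relA {F : Type} [Group F] (D Y : F) : Fin 2 → F :=
  ![Y ^ 2 * D ^ 15 * (Y ^ 2)⁻¹ * D ^ 15, D ^ 10 * Y ^ 3 * (D ^ 10)⁻¹ * Y ^ 3]

def wrd {F : Type} [Group F] (a s : F) : F := a ^ 3 * s * (a ^ 2)⁻¹ * (s ^ 2)⁻¹

/-- The relators of the presentation
`⟨d, y, a₁, …, a_k ∣ y² d¹⁵ y⁻² d¹⁵, d¹⁰ y³ d⁻¹⁰ y³, a_m³ c a_m⁻² c⁻² (m = 1, …, k)⟩`,
where `c = d²⁴`. -/
def famRel (k : ℕ) : Fin 2 ⊕ Fin k → FreeGroup (Fin 2 ⊕ Fin k) :=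
  Sum.elim (relA (FreeGroup.of (Sum.inl 0)) (FreeGroup.of (Sum.inl 1)))
    (fun m => wrd (FreeGroup.of (Sum.inr m)) (FreeGroup.of (Sum.inl 0) ^ 24))

def fam (k : ℕ) : Pres where
  X := Fin 2 ⊕ Fin k
  Y := Fin 2 ⊕ Fin k
  rel := famRel k

def rel0 : Fin 2 → FreeGroup (Fin 2) := relA (FreeGroup.of 0) (FreeGroup.of 1)

/-- The group `⟨d, y ∣ y² d¹⁵ y⁻² d¹⁵, d¹⁰ y³ d⁻¹⁰ y³⟩`. -/
abbrev Gam : Type := PresentedGroup (Set.range rel0)

def gd : Gam := PresentedGroup.mk _ (FreeGroup.of 0)
def gy : Gam := PresentedGroup.mk _ (FreeGroup.of 1)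

def proj0 : FreeGroup (Fin 2) →* Gam := PresentedGroup.mk _

/-- The projection `FreeGroup X → Γ` sending all the new generators to `d²⁴`. -/
def projk (k : ℕ) : FreeGroup (Fin 2 ⊕ Fin k) →* Gam :=
  FreeGroup.lift (Sum.elim ![gd, gy] (fun _ => gd ^ 24))

/-- The unit `1 + c - c³`. -/
def lam {G : Type} [Group G] (c : G) : MonoidAlgebra ℤ G :=
  1 + MonoidAlgebra.of ℤ G c - MonoidAlgebra.of ℤ G (c ^ 3)

end

end H970SH
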