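import Pool.Agent.Helper970.SH.All

open Matrix

namespace H970SH

noncomputable section

/-- Coboundaries have vanishing `kap`. -/
theorem kap_cob_left (α β : CH Gam) (hn : ∃ g, (α.χ * β.χ) g ≠ 1) (hk : kap proj0 rel0 α β ≠ 0)
    (t : ℂ) : ∃ g, α.c g ≠ t * (α.χ g - 1) := by
  by_contra hcon
  push Not at hcon
  apply hk
  have h := kap_lin α α β β rfl rfl 0 t 1 0 (fun g => by rw [hcon g]; ring)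
    (fun g => by ring) hn
  rw [h]; ring

theorem kap_cob_right (α β : CH Gam) (hn : ∃ g, (α.χ * β.χ) g ≠ 1) (hk : kap proj0 rel0 α β ≠ 0)
    (t : ℂ) : ∃ g, β.c g ≠ t * (β.χ g - 1) := by
  by_contra hcon
  push Not at hcon
  apply hk
  have h := kap_lin α α β β rfl rfl 1 0 0 t (fun g => by ring)
    (fun g => by rw [hcon g]; ring) hn
  rw [h]; ring

/-- The four crossed homomorphisms used in the cross ratio. -/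
structure Quad where
  α₀ : CH Gam
  α₁ : CH Gam
  β₀ : CH Gam
  β₁ : CH Gam
  n00 : ∃ g, (α₀.χ * β₀.χ) g ≠ 1
  n01 : ∃ g, (α₀.χ * β₁.χ) g ≠ 1
  n10 : ∃ g, (α₁.χ * β₀.χ) g ≠ 1
  n11 : ∃ g, (α₁.χ * β₁.χ) g ≠ 1
  k00 : kap proj0 rel0 α₀ β₀ ≠ 0
  k01 : kap proj0 rel0 α₀ β₁ ≠ 0
  k10 : kap proj0 rel0 α₁ β₀ ≠ 0
  k11 : kap proj0 rel0 α₁ β₁ ≠ 0

/-- The cross ratio depends only on the characters. -/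
theorem cross_ratio (p q : Quad) (h1 : p.α₀.χ = q.α₀.χ) (h2 : p.α₁.χ = q.α₁.χ)
    (h3 : p.β₀.χ = q.β₀.χ) (h4 : p.β₁.χ = q.β₁.χ) :
    kap proj0 rel0 p.α₀ p.β₁ * kap proj0 rel0 p.α₁ p.β₀ *
        (kap proj0 rel0 q.α₀ q.β₀ * kap proj0 rel0 q.α₁ q.β₁) =
      kap proj0 rel0 q.α₀ q.β₁ * kap proj0 rel0 q.α₁ q.β₀ *
        (kap proj0 rel0 p.α₀ p.β₀ * kap proj0 rel0 p.α₁ p.β₁) := by
  obtain ⟨s0, t0, e0⟩ := ch_two p.α₀ q.α₀ h1 (kap_cob_left p.α₀ p.β₀ p.n00 p.k00)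
  obtain ⟨s1, t1, e1⟩ := ch_two p.α₁ q.α₁ h2 (kap_cob_left p.α₁ p.β₀ p.n10 p.k10)
  obtain ⟨u0, v0, f0⟩ := ch_two p.β₀ q.β₀ h3 (kap_cob_right p.α₀ p.β₀ p.n00 p.k00)
  obtain ⟨u1, v1, f1⟩ := ch_two p.β₁ q.β₁ h4 (kap_cob_right p.α₀ p.β₁ p.n01 p.k01)
  rw [kap_lin p.α₀ q.α₀ p.β₀ q.β₀ h1 h3 s0 t0 u0 v0 e0 f0 p.n00,
    kap_lin p.α₀ q.α₀ p.β₁ q.β₁ h1 h4 s0 t0 u1 v1 e0 f1 p.n01,
    kap_lin p.α₁ q.α₁ p.β₀ q.β₀ h2 h3 s1 t1 u0 v0 e1 f0 p.n10,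
    kap_lin p.α₁ q.α₁ p.β₁ q.β₁ h2 h4 s1 t1 u1 v1 e1 f1 p.n11]
  ring

end

end H970SH
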