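import Pool.Agent.Helper970.SH.All

open Matrix

namespace H970SH

noncomputable section

theorem CH.ext' {G : Type} [Group G] {α β : CH G} (h1 : α.χ = β.χ) (h2 : α.c = β.c) : α = β := by
  cases α; cases β; cases h1; cases h2; rfl

/-- `fam k` and `fam l` have the same normalised torsions up to an automorphism of the group. -/
def Rel (k l : ℕ) : Prop := ∃ ψ : Gam ≃* Gam, ∀ α β : CH Gam, (∃ g, (α.χ * β.χ) g ≠ 1) →
  ‖kap (projk k) (famRel k) (α.comap ψ.toMonoidHom) (β.comap ψ.toMonoidHom)‖ =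
    ‖kap (projk l) (famRel l) α β‖

theorem kap_iso (k : ℕ) (e : (fam k).Pi1 →* Gam) (he : e.comp (fam k).proj = projk k)
    (α β : CH Gam) :
    kap (fam k).proj (famRel k) (α.comap e) (β.comap e) = kap (projk k) (famRel k) α β := by
  have h := kap_comap (X := Fin 2 ⊕ Fin k) (fam k).proj e (famRel k) α β
  have he' : (MonoidHom.comp e (fam k).proj : FreeGroup (Fin 2 ⊕ Fin k) →* Gam) = projk k := he
  rw [he'] at h
  exact h.symm

theorem rel_of_simple (k l : ℕ) (h : SimpleHomotopyEquivalent (fam k) (fam l)) : Rel k l := by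
  obtain ⟨φ, hφ⟩ := simple_inv k l h
  obtain ⟨ek, hek⟩ := famk_iso k hkey
  obtain ⟨el, hel⟩ := famk_iso l hkey
  refine ⟨(ek.symm.trans φ).trans el, fun α β hn => ?_⟩
  have h1 := hφ (α.comap el.toMonoidHom) (β.comap el.toMonoidHom) (by
    obtain ⟨g, hg⟩ := hn
    refine ⟨el.symm g, ?_⟩
    simpa [CH.comap] using hg)
  rw [kap_iso l el.toMonoidHom hel α β] at h1
  rw [← h1]
  have e2 : ∀ γ : CH Gam, (γ.comap el.toMonoidHom).comap φ.toMonoidHom =
      (γ.comap ((ek.symm.trans φ).trans el).toMonoidHom).comap ek.toMonoidHom := by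
    intro γ
    apply CH.ext'
    · ext x
      simp [CH.comap]
    · funext x
      simp [CH.comap]
  rw [e2 α, e2 β, kap_iso k ek.toMonoidHom hek]

theorem rel_symm (k l : ℕ) (h : Rel l k) : Rel k l := by
  obtain ⟨ψ, hψ⟩ := h
  refine ⟨ψ.symm, fun α β hn => ?_⟩
  have h1 := hψ (α.comap ψ.symm.toMonoidHom) (β.comap ψ.symm.toMonoidHom) (by
    obtain ⟨g, hg⟩ := hn
    refine ⟨ψ g, ?_⟩
    simpa [CH.comap] using hg)
  have e2 : ∀ γ : CH Gam, (γ.comap ψ.symm.toMonoidHom).comap ψ.toMonoidHom = γ := by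
    intro γ
    apply CH.ext'
    · ext x
      simp [CH.comap]
    · funext x
      simp [CH.comap]
  rw [e2 α, e2 β] at h1
  exact h1.symm

/-- The value of the unit. -/
def Lv (χ : Gam →* ℂ) : ℝ := ‖rhoHat χ (lam (gd ^ 24))‖

theorem gd_pow : (gd ^ 24) ^ 5 = 1 :=
  rel_finite gd gy (by simpa [relA] using gam_rel 0) (by simpa [relA] using gam_rel 1)

theorem Lv_pos (χ : Gam →* ℂ) : 0 < Lv χ := by
  unfold Lv
  rw [norm_pos_iff]
  intro h0
  have h1 := congrArg (rhoHat χ) (lam_unit (gd ^ 24) gd_pow).1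
  rw [map_mul, h0, zero_mul, map_one] at h1
  exact zero_ne_one h1

theorem Lv_eq (χ : Gam →* ℂ) : Lv χ = ‖1 + (χ gd) ^ 24 - (χ gd) ^ 72‖ := by
  unfold Lv lam
  rw [map_sub, map_add, map_one, rhoHat_of, rhoHat_of, map_pow, map_pow, map_pow, ← pow_mul]

theorem kap_rel (k l : ℕ) (ψ : Gam ≃* Gam) (α β : CH Gam) (hn : ∃ g, (α.χ * β.χ) g ≠ 1)
    (h : ‖kap (projk k) (famRel k) (α.comap ψ.toMonoidHom) (β.comap ψ.toMonoidHom)‖ =
      ‖kap (projk l) (famRel l) α β‖) :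
    ‖kap proj0 rel0 (α.comap ψ.toMonoidHom) (β.comap ψ.toMonoidHom)‖ *
        Lv ((α.χ * β.χ).comp ψ.toMonoidHom) ^ k = ‖kap proj0 rel0 α β‖ * Lv (α.χ * β.χ) ^ l := by
  rw [kap_fam l α β hn, kap_fam k (α.comap ψ.toMonoidHom) (β.comap ψ.toMonoidHom) (by
    obtain ⟨g, hg⟩ := hn
    refine ⟨ψ.symm g, ?_⟩
    simpa [CH.comap] using hg), norm_mul, norm_mul, norm_pow, norm_pow] at h
  exact h

end

end H970SH
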