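import Pool.Agent.Helper970.SH.Main
import Pool.Agent.Helper970.SH.Main2

open Matrix

namespace H970SH

noncomputable section

/-- Pull back a quadruple. -/
theorem quad_comap (q : Quad) (k l : ℕ) (ψ : Gam ≃* Gam)
    (h : ∀ α β : CH Gam, (∃ g, (α.χ * β.χ) g ≠ 1) →
      ‖kap (projk k) (famRel k) (α.comap ψ.toMonoidHom) (β.comap ψ.toMonoidHom)‖ =
        ‖kap (projk l) (famRel l) α β‖) :
    ∃ p : Quad, p.α₀ = q.α₀.comap ψ.toMonoidHom ∧ p.α₁ = q.α₁.comap ψ.toMonoidHom ∧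
      p.β₀ = q.β₀.comap ψ.toMonoidHom ∧ p.β₁ = q.β₁.comap ψ.toMonoidHom := by
  have hn : ∀ α β : CH Gam, (∃ g, (α.χ * β.χ) g ≠ 1) →
      ∃ g, ((α.comap ψ.toMonoidHom).χ * (β.comap ψ.toMonoidHom).χ) g ≠ 1 := by
    rintro α β ⟨g, hg⟩
    refine ⟨ψ.symm g, ?_⟩
    simpa [CH.comap] using hg
  have hk : ∀ α β : CH Gam, (∃ g, (α.χ * β.χ) g ≠ 1) → kap proj0 rel0 α β ≠ 0 →
      kap proj0 rel0 (α.comap ψ.toMonoidHom) (β.comap ψ.toMonoidHom) ≠ 0 := by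
    intro α β h1 h2 h0
    have h3 := kap_rel k l ψ α β h1 (h α β h1)
    rw [h0, norm_zero, zero_mul] at h3
    have h4 : 0 < ‖kap proj0 rel0 α β‖ * Lv (α.χ * β.χ) ^ l :=
      mul_pos (norm_pos_iff.mpr h2) (pow_pos (Lv_pos _) _)
    rw [← h3] at h4
    exact lt_irrefl _ h4
  exact ⟨⟨q.α₀.comap ψ.toMonoidHom, q.α₁.comap ψ.toMonoidHom, q.β₀.comap ψ.toMonoidHom,
    q.β₁.comap ψ.toMonoidHom, hn _ _ q.n00, hn _ _ q.n01, hn _ _ q.n10, hn _ _ q.n11,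
    hk _ _ q.n00 q.k00, hk _ _ q.n01 q.k01, hk _ _ q.n10 q.k10, hk _ _ q.n11 q.k11⟩,
    rfl, rfl, rfl, rfl⟩

/-- If two members have the same pulled back characters, they coincide. -/
theorem index_eq (q : Quad) (h00 : Lv (q.α₀.χ * q.β₀.χ) = 1) (h11 : Lv (q.α₁.χ * q.β₁.χ) = 1)
    (hN : Lv (q.α₀.χ * q.β₁.χ) * Lv (q.α₁.χ * q.β₀.χ) ≠ 1)
    (k l m : ℕ) (ψ ψ' : Gam ≃* Gam)
    (h : ∀ α β : CH Gam, (∃ g, (α.χ * β.χ) g ≠ 1) →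
      ‖kap (projk k) (famRel k) (α.comap ψ.toMonoidHom) (β.comap ψ.toMonoidHom)‖ =
        ‖kap (projk l) (famRel l) α β‖)
    (h' : ∀ α β : CH Gam, (∃ g, (α.χ * β.χ) g ≠ 1) →
      ‖kap (projk k) (famRel k) (α.comap ψ'.toMonoidHom) (β.comap ψ'.toMonoidHom)‖ =
        ‖kap (projk m) (famRel m) α β‖)
    (e1 : q.α₀.χ.comp ψ.toMonoidHom = q.α₀.χ.comp ψ'.toMonoidHom)
    (e2 : q.α₁.χ.comp ψ.toMonoidHom = q.α₁.χ.comp ψ'.toMonoidHom)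
    (e3 : q.β₀.χ.comp ψ.toMonoidHom = q.β₀.χ.comp ψ'.toMonoidHom)
    (e4 : q.β₁.χ.comp ψ.toMonoidHom = q.β₁.χ.comp ψ'.toMonoidHom) : l = m := by
  obtain ⟨p, p1, p2, p3, p4⟩ := quad_comap q k l ψ h
  obtain ⟨r, r1, r2, r3, r4⟩ := quad_comap q k m ψ' h'
  have hcr := cross_ratio p r (by rw [p1, r1]; exact e1) (by rw [p2, r2]; exact e2)
    (by rw [p3, r3]; exact e3) (by rw [p4, r4]; exact e4)
  have hcr' := congrArg norm hcr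
  simp only [norm_mul] at hcr'
  rw [p1, p2, p3, p4, r1, r2, r3, r4] at hcr'
  have a00 := kap_rel k l ψ q.α₀ q.β₀ q.n00 (h _ _ q.n00)
  have a01 := kap_rel k l ψ q.α₀ q.β₁ q.n01 (h _ _ q.n01)
  have a10 := kap_rel k l ψ q.α₁ q.β₀ q.n10 (h _ _ q.n10)
  have a11 := kap_rel k l ψ q.α₁ q.β₁ q.n11 (h _ _ q.n11)
  have b00 := kap_rel k m ψ' q.α₀ q.β₀ q.n00 (h' _ _ q.n00)
  have b01 := kap_rel k m ψ' q.α₀ q.β₁ q.n01 (h' _ _ q.n01)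
  have b10 := kap_rel k m ψ' q.α₁ q.β₀ q.n10 (h' _ _ q.n10)
  have b11 := kap_rel k m ψ' q.α₁ q.β₁ q.n11 (h' _ _ q.n11)
  have c00 : (q.α₀.χ * q.β₀.χ).comp ψ.toMonoidHom = (q.α₀.χ * q.β₀.χ).comp ψ'.toMonoidHom := by
    rw [MonoidHom.mul_comp, MonoidHom.mul_comp, e1, e3]
  have c01 : (q.α₀.χ * q.β₁.χ).comp ψ.toMonoidHom = (q.α₀.χ * q.β₁.χ).comp ψ'.toMonoidHom := by
    rw [MonoidHom.mul_comp, MonoidHom.mul_comp, e1, e4]
  have c10 : (q.α₁.χ * q.β₀.χ).comp ψ.toMonoidHom = (q.α₁.χ * q.β₀.χ).comp ψ'.toMonoidHom := by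
    rw [MonoidHom.mul_comp, MonoidHom.mul_comp, e2, e3]
  have c11 : (q.α₁.χ * q.β₁.χ).comp ψ.toMonoidHom = (q.α₁.χ * q.β₁.χ).comp ψ'.toMonoidHom := by
    rw [MonoidHom.mul_comp, MonoidHom.mul_comp, e2, e4]
  rw [c00] at a00
  rw [c01] at a01
  rw [c10] at a10
  rw [c11] at a11
  rw [h00, one_pow, mul_one] at a00 b00
  rw [h11, one_pow, mul_one] at a11 b11
  set M00 := Lv ((q.α₀.χ * q.β₀.χ).comp ψ'.toMonoidHom) ^ k with hM00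
  set M01 := Lv ((q.α₀.χ * q.β₁.χ).comp ψ'.toMonoidHom) ^ k with hM01
  set M10 := Lv ((q.α₁.χ * q.β₀.χ).comp ψ'.toMonoidHom) ^ k with hM10
  set M11 := Lv ((q.α₁.χ * q.β₁.χ).comp ψ'.toMonoidHom) ^ k with hM11
  have m00 : 0 < M00 := pow_pos (Lv_pos _) _
  have m01 : 0 < M01 := pow_pos (Lv_pos _) _
  have m10 : 0 < M10 := pow_pos (Lv_pos _) _
  have m11 : 0 < M11 := pow_pos (Lv_pos _) _
  set A := Lv (q.α₀.χ * q.β₁.χ) with hA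
  set B := Lv (q.α₁.χ * q.β₀.χ) with hB
  have hApos : 0 < A := Lv_pos _
  have hBpos : 0 < B := Lv_pos _
  have P00 : 0 < ‖kap proj0 rel0 q.α₀ q.β₀‖ := norm_pos_iff.mpr q.k00
  have P01 : 0 < ‖kap proj0 rel0 q.α₀ q.β₁‖ := norm_pos_iff.mpr q.k01
  have P10 : 0 < ‖kap proj0 rel0 q.α₁ q.β₀‖ := norm_pos_iff.mpr q.k10
  have P11 : 0 < ‖kap proj0 rel0 q.α₁ q.β₁‖ := norm_pos_iff.mpr q.k11
  generalize ‖kap proj0 rel0 q.α₀ q.β₀‖ = x00 at *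
  generalize ‖kap proj0 rel0 q.α₀ q.β₁‖ = x01 at *
  generalize ‖kap proj0 rel0 q.α₁ q.β₀‖ = x10 at *
  generalize ‖kap proj0 rel0 q.α₁ q.β₁‖ = x11 at *
  generalize ‖kap proj0 rel0 (q.α₀.comap ψ.toMonoidHom) (q.β₀.comap ψ.toMonoidHom)‖ = y00 at *
  generalize ‖kap proj0 rel0 (q.α₀.comap ψ.toMonoidHom) (q.β₁.comap ψ.toMonoidHom)‖ = y01 at *
  generalize ‖kap proj0 rel0 (q.α₁.comap ψ.toMonoidHom) (q.β₀.comap ψ.toMonoidHom)‖ = y10 at *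
  generalize ‖kap proj0 rel0 (q.α₁.comap ψ.toMonoidHom) (q.β₁.comap ψ.toMonoidHom)‖ = y11 at *
  generalize ‖kap proj0 rel0 (q.α₀.comap ψ'.toMonoidHom) (q.β₀.comap ψ'.toMonoidHom)‖ = z00 at *
  generalize ‖kap proj0 rel0 (q.α₀.comap ψ'.toMonoidHom) (q.β₁.comap ψ'.toMonoidHom)‖ = z01 at *
  generalize ‖kap proj0 rel0 (q.α₁.comap ψ'.toMonoidHom) (q.β₀.comap ψ'.toMonoidHom)‖ = z10 at *
  generalize ‖kap proj0 rel0 (q.α₁.comap ψ'.toMonoidHom) (q.β₁.comap ψ'.toMonoidHom)‖ = z11 at *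
  have key : (x01 * x10 * x00 * x11) * (A * B) ^ l = (x01 * x10 * x00 * x11) * (A * B) ^ m := by
    calc (x01 * x10 * x00 * x11) * (A * B) ^ l
        = (x01 * A ^ l) * (x10 * B ^ l) * (x00 * x11) := by rw [mul_pow]; ring
      _ = (y01 * M01) * (y10 * M10) * ((z00 * M00) * (z11 * M11)) := by
          rw [a01, a10, b00, b11]
      _ = (y01 * y10 * (z00 * z11)) * (M01 * M10 * M00 * M11) := by ring
      _ = (z01 * z10 * (y00 * y11)) * (M01 * M10 * M00 * M11) := by rw [hcr']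
      _ = (z01 * M01) * (z10 * M10) * ((y00 * M00) * (y11 * M11)) := by ring
      _ = (x01 * A ^ m) * (x10 * B ^ m) * (x00 * x11) := by rw [b01, b10, a00, a11]
      _ = (x01 * x10 * x00 * x11) * (A * B) ^ m := by rw [mul_pow]; ring
  have hpos : 0 < x01 * x10 * x00 * x11 := by positivity
  have hp := mul_left_cancel₀ hpos.ne' key
  exact (pow_right_injective₀ (mul_pos hApos hBpos) hN) hp

/-- Only finitely many members are related to a given one. -/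
theorem rel_finite_set (q : Quad) (h00 : Lv (q.α₀.χ * q.β₀.χ) = 1)
    (h11 : Lv (q.α₁.χ * q.β₁.χ) = 1)
    (hN : Lv (q.α₀.χ * q.β₁.χ) * Lv (q.α₁.χ * q.β₀.χ) ≠ 1) (k : ℕ) :
    {l | Rel k l}.Finite := by
  have := char_finite
  have hch : ∀ l : {l | Rel k l}, ∃ ψ : Gam ≃* Gam, ∀ α β : CH Gam,
      (∃ g, (α.χ * β.χ) g ≠ 1) →
      ‖kap (projk k) (famRel k) (α.comap ψ.toMonoidHom) (β.comap ψ.toMonoidHom)‖ =
        ‖kap (projk l) (famRel l) α β‖ := fun l => l.2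
  choose ψ hψ using hch
  let F : {l | Rel k l} → (Gam →* ℂ) × (Gam →* ℂ) × (Gam →* ℂ) × (Gam →* ℂ) := fun l =>
    (q.α₀.χ.comp (ψ l).toMonoidHom, q.α₁.χ.comp (ψ l).toMonoidHom,
      q.β₀.χ.comp (ψ l).toMonoidHom, q.β₁.χ.comp (ψ l).toMonoidHom)
  have hF : Function.Injective F := by
    intro l m hlm
    simp only [F, Prod.mk.injEq] at hlm
    apply Subtype.ext
    exact index_eq q h00 h11 hN k l m (ψ l) (ψ m) (hψ l) (hψ m) hlm.1 hlm.2.1 hlm.2.2.1 hlm.2.2.2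
  exact Set.finite_coe_iff.mp (Finite.of_injective F hF)

end

end H970SH
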