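import Pool.Agent.Helper970.SH.Main3

open Matrix

namespace H970SH

noncomputable section

def z5 : ℂ := Complex.exp (2 * Real.pi * Complex.I / 5)
def w3 : ℂ := Complex.exp (2 * Real.pi * Complex.I / 3)

theorem z5_prim : IsPrimitiveRoot z5 5 := Complex.isPrimitiveRoot_exp 5 (by norm_num)
theorem w3_prim : IsPrimitiveRoot w3 3 := Complex.isPrimitiveRoot_exp 3 (by norm_num)

theorem z5_pow : z5 ^ 5 = 1 := z5_prim.pow_eq_one
theorem w3_pow : w3 ^ 3 = 1 := w3_prim.pow_eq_one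
theorem w3_ne : w3 ≠ 1 := w3_prim.ne_one (by norm_num)
theorem z5_ne : z5 ≠ 1 := z5_prim.ne_one (by norm_num)

theorem z5_norm : ‖z5‖ = 1 := z5_prim.norm'_eq_one (by norm_num)
theorem w3_norm : ‖w3‖ = 1 := w3_prim.norm'_eq_one (by norm_num)

theorem mk_alpha (δ : ℂ) (h1 : δ ^ 15 = -1) (h2 : δ ^ 10 = 1) (hn : ‖δ‖ = 1) :
    ∃ α : CH Gam, α.χ gd = δ ∧ α.χ gy = -1 ∧ α.c gd = 1 ∧ α.c gy = 0 :=
  ch_exists δ (-1) hn (by simp) (Or.inl ⟨h1, h2, rfl⟩)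

theorem mk_beta (η : ℂ) (h1 : η ^ 15 = 1) (h2 : η ≠ 1) (hn : ‖η‖ = 1) :
    ∃ α : CH Gam, α.χ gd = η ∧ α.χ gy = w3 ∧ α.c gd = 1 ∧ α.c gy = 0 :=
  ch_exists η w3 hn w3_norm (Or.inr ⟨h1, h2, w3_pow, w3_ne⟩)

theorem val_ne (δ η : ℂ) (h1 : δ ^ 15 = -1) (h2 : δ ^ 10 = 1) (h3 : η ^ 15 = 1) (h4 : η ≠ 1)
    (h5 : η ^ 10 = w3) (α β : CH Gam)
    (ha : α.χ gd = δ ∧ α.χ gy = -1 ∧ α.c gd = 1 ∧ α.c gy = 0)
    (hb : β.χ gd = η ∧ β.χ gy = w3 ∧ β.c gd = 1 ∧ β.c gy = 0) :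
    kap proj0 rel0 α β ≠ 0 := by
  intro h0
  have h := kap_val δ η w3 h1 h2 w3_pow w3_ne h3 h4 h5 α β ha.1 ha.2.1 ha.2.2.1 ha.2.2.2
    hb.1 hb.2.1 hb.2.2.1 hb.2.2.2
  rw [h0, zero_mul] at h
  have h6 : (w3 - 1) ^ 2 ≠ 0 := pow_ne_zero _ (sub_ne_zero.mpr w3_ne)
  apply h6
  linear_combination (1 / 4) * h

theorem nontriv (δ η : ℂ) (h1 : δ ^ 15 = -1) (h3 : η ^ 15 = 1) (α β : CH Gam)
    (ha : α.χ gd = δ) (hb : β.χ gd = η) : ∃ g, (α.χ * β.χ) g ≠ 1 := by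
  refine ⟨gd, fun h => ?_⟩
  rw [MonoidHom.mul_apply, ha, hb] at h
  have h2 : (δ * η) ^ 15 = -1 := by rw [mul_pow, h1, h3, mul_one]
  rw [h, one_pow] at h2
  norm_num at h2

theorem quad_exists : ∃ q : Quad, Lv (q.α₀.χ * q.β₀.χ) = 1 ∧ Lv (q.α₁.χ * q.β₁.χ) = 1 ∧
    Lv (q.α₀.χ * q.β₁.χ) * Lv (q.α₁.χ * q.β₀.χ) ≠ 1 := by
  have z5p := z5_pow
  have w3p := w3_pow
  -- the values
  have d0a : (-1 : ℂ) ^ 15 = -1 := by norm_num
  have d0b : (-1 : ℂ) ^ 10 = 1 := by norm_num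
  have d1a : (-z5) ^ 15 = -1 := by
    have : (-z5) ^ 15 = -(z5 ^ 5) ^ 3 := by ring
    rw [this, z5p]; norm_num
  have d1b : (-z5) ^ 10 = 1 := by
    have : (-z5) ^ 10 = (z5 ^ 5) ^ 2 := by ring
    rw [this, z5p]; norm_num
  have e0a : w3 ^ 15 = 1 := by
    have : w3 ^ 15 = (w3 ^ 3) ^ 5 := by ring
    rw [this, w3p]; norm_num
  have e0b : w3 ^ 10 = w3 := by
    have : w3 ^ 10 = (w3 ^ 3) ^ 3 * w3 := by ring
    rw [this, w3p]; norm_num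
  have e1a : (w3 * z5 ^ 4) ^ 15 = 1 := by
    have : (w3 * z5 ^ 4) ^ 15 = (w3 ^ 3) ^ 5 * (z5 ^ 5) ^ 12 := by ring
    rw [this, w3p, z5p]; norm_num
  have e1b : (w3 * z5 ^ 4) ^ 10 = w3 := by
    have : (w3 * z5 ^ 4) ^ 10 = (w3 ^ 3) ^ 3 * w3 * (z5 ^ 5) ^ 8 := by ring
    rw [this, w3p, z5p]; norm_num
  have e1c : w3 * z5 ^ 4 ≠ 1 := by
    intro h
    rw [h, one_pow] at e1b
    exact w3_ne e1b.symm
  obtain ⟨α₀, a0⟩ := mk_alpha (-1) d0a d0b (by simp)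
  obtain ⟨α₁, a1⟩ := mk_alpha (-z5) d1a d1b (by rw [norm_neg, z5_norm])
  obtain ⟨β₀, b0⟩ := mk_beta w3 e0a w3_ne w3_norm
  obtain ⟨β₁, b1⟩ := mk_beta (w3 * z5 ^ 4) e1a e1c
    (by rw [norm_mul, norm_pow, z5_norm, w3_norm]; norm_num)
  refine ⟨⟨α₀, α₁, β₀, β₁,
    nontriv _ _ d0a e0a _ _ a0.1 b0.1, nontriv _ _ d0a e1a _ _ a0.1 b1.1,
    nontriv _ _ d1a e0a _ _ a1.1 b0.1, nontriv _ _ d1a e1a _ _ a1.1 b1.1,
    val_ne _ _ d0a d0b e0a w3_ne e0b _ _ a0 b0, val_ne _ _ d0a d0b e1a e1c e1b _ _ a0 b1,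
    val_ne _ _ d1a d1b e0a w3_ne e0b _ _ a1 b0, val_ne _ _ d1a d1b e1a e1c e1b _ _ a1 b1⟩,
    ?_, ?_, ?_⟩
  · simp only [Lv_eq, MonoidHom.mul_apply, a0.1, b0.1]
    have h1 : (-1 * w3) ^ 24 = 1 := by
      have : (-1 * w3) ^ 24 = (w3 ^ 3) ^ 8 := by ring
      rw [this, w3p]; norm_num
    have h2 : (-1 * w3) ^ 72 = 1 := by
      have : (-1 * w3) ^ 72 = (w3 ^ 3) ^ 24 := by ring
      rw [this, w3p]; norm_num
    rw [h1, h2]; norm_num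
  · simp only [Lv_eq, MonoidHom.mul_apply, a1.1, b1.1]
    have h1 : (-z5 * (w3 * z5 ^ 4)) ^ 24 = 1 := by
      have : (-z5 * (w3 * z5 ^ 4)) ^ 24 = (w3 ^ 3) ^ 8 * (z5 ^ 5) ^ 24 := by ring
      rw [this, w3p, z5p]; norm_num
    have h2 : (-z5 * (w3 * z5 ^ 4)) ^ 72 = 1 := by
      have : (-z5 * (w3 * z5 ^ 4)) ^ 72 = (w3 ^ 3) ^ 24 * (z5 ^ 5) ^ 72 := by ring
      rw [this, w3p, z5p]; norm_num
    rw [h1, h2]; norm_num
  · simp only [Lv_eq, MonoidHom.mul_apply, a0.1, b0.1, a1.1, b1.1]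
    have h1 : (-1 * (w3 * z5 ^ 4)) ^ 24 = z5 := by
      have : (-1 * (w3 * z5 ^ 4)) ^ 24 = (w3 ^ 3) ^ 8 * (z5 ^ 5) ^ 19 * z5 := by ring
      rw [this, w3p, z5p]; norm_num
    have h2 : (-1 * (w3 * z5 ^ 4)) ^ 72 = z5 ^ 3 := by
      have : (-1 * (w3 * z5 ^ 4)) ^ 72 = (w3 ^ 3) ^ 24 * (z5 ^ 5) ^ 57 * z5 ^ 3 := by ring
      rw [this, w3p, z5p]; norm_num
    have h3 : (-z5 * w3) ^ 24 = z5 ^ 4 := by
      have : (-z5 * w3) ^ 24 = (w3 ^ 3) ^ 8 * (z5 ^ 5) ^ 4 * z5 ^ 4 := by ring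
      rw [this, w3p, z5p]; norm_num
    have h4 : (-z5 * w3) ^ 72 = z5 ^ 2 := by
      have : (-z5 * w3) ^ 72 = (w3 ^ 3) ^ 24 * (z5 ^ 5) ^ 14 * z5 ^ 2 := by ring
      rw [this, w3p, z5p]; norm_num
    rw [h1, h2, h3, h4, ← norm_mul]
    have hs : z5 ^ 4 + z5 ^ 3 + z5 ^ 2 + z5 + 1 = 0 := by
      have h5 : (z5 - 1) * (z5 ^ 4 + z5 ^ 3 + z5 ^ 2 + z5 + 1) = 0 := by
        have : (z5 - 1) * (z5 ^ 4 + z5 ^ 3 + z5 ^ 2 + z5 + 1) = z5 ^ 5 - 1 := by ring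
        rw [this, z5p, sub_self]
      rcases mul_eq_zero.mp h5 with h | h
      · exact absurd (sub_eq_zero.mp h) z5_ne
      · exact h
    have hprod : (1 + z5 - z5 ^ 3) * (1 + z5 ^ 4 - z5 ^ 2) = 5 + 3 * (z5 + z5 ^ 4) := by
      linear_combination (-2) * hs + (2 - z5 ^ 2) * z5p
    rw [hprod]
    have hstar : star z5 * z5 = 1 := by
      have h5 : star z5 * z5 = ((Complex.normSq z5 : ℝ) : ℂ) := by
        rw [Complex.normSq_eq_conj_mul_self]; rfl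
      rw [h5, Complex.normSq_eq_norm_sq, z5_norm]; norm_num
    have hstar4 : star z5 = z5 ^ 4 := by
      linear_combination z5 ^ 4 * hstar - star z5 * z5p
    have hreal : star (z5 + z5 ^ 4) = z5 + z5 ^ 4 := by
      rw [star_add, star_pow, hstar4]
      linear_combination z5 * (z5 ^ 10 + z5 ^ 5 + 1) * z5p
    have hre : ((z5 + z5 ^ 4).re : ℂ) = z5 + z5 ^ 4 := Complex.conj_eq_iff_re.mp hreal
    set t : ℝ := (z5 + z5 ^ 4).re with ht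
    have hq : (t : ℂ) ^ 2 + t - 1 = 0 := by
      rw [hre]
      linear_combination hs + (z5 ^ 3 + 2) * z5p
    have hq' : t ^ 2 + t - 1 = 0 := by exact_mod_cast hq
    rw [← hre]
    intro hcon
    have h6 : ‖((5 + 3 * t : ℝ) : ℂ)‖ = 1 := by
      rw [← hcon]; congr 1; push_cast; ring
    rw [Complex.norm_real, Real.norm_eq_abs] at h6
    rcases abs_eq (by norm_num : (0 : ℝ) ≤ 1) |>.mp h6 with h | h
    · have : t = -4 / 3 := by linarith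
      rw [this] at hq'; norm_num at hq'
    · have : t = -2 := by linarith
      rw [this] at hq'; norm_num at hq'

/-- Only finitely many members of the family are related to a given one. -/
theorem rel_fin (k : ℕ) : {l | Rel k l}.Finite := by
  obtain ⟨q, h1, h2, h3⟩ := quad_exists
  exact rel_finite_set q h1 h2 h3 k

theorem family : ∃ f : ℕ → ℕ, ∀ m n, m ≠ n →
    ¬ SimpleHomotopyEquivalent (fam (f m)) (fam (f n)) := by
  let r : ℕ → ℕ → Prop := fun k l =>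
    ¬ SimpleHomotopyEquivalent (fam k) (fam l) ∧ ¬ SimpleHomotopyEquivalent (fam l) (fam k)
  have hsymm : Std.Symm r := ⟨fun a b h => ⟨h.2, h.1⟩⟩
  have hfin : ∀ k, {l | ¬ r k l}.Finite := by
    intro k
    refine (rel_fin k).subset fun l hl => ?_
    simp only [r, Set.mem_ofPred_eq, not_and_or, not_not] at hl
    rcases hl with h | h
    · exact rel_of_simple k l h
    · exact rel_symm k l (rel_of_simple l k h)
  obtain ⟨f, -, hf⟩ := exists_seq_of_forall_finset_exists' (fun _ : ℕ => True) r (by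
    intro s _
    have h1 : (⋃ k ∈ s, {l | ¬ r k l}).Finite := Set.Finite.biUnion s.finite_toSet fun k _ => hfin k
    obtain ⟨y, hy⟩ := h1.infinite_compl.nonempty
    refine ⟨y, trivial, fun x hx => ?_⟩
    by_contra hcon
    exact hy (Set.mem_biUnion hx hcon))
  exact ⟨f, fun m n hmn => (hf hmn).1⟩

end

end H970SH
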